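import Mathlib
import Pool.Agent.H544.LD.Dual

/-!
Short sums of polynomial phases which are large at many places: the leading coefficient has a very good rational
approximation with a small denominator.
-/

set_option autoImplicit false

namespace Pool.Agent.H544.SR
open Finset Polynomial
open Pool.Agent.H807R2.Dav
open Pool.Agent.H373R2.T7 (conj_ee)
open Pool.Agent.H373R2.NB (Ph)
open Pool.Agent.H544.LD (iw dst dst_count)

/-- the sum over the block after `n` -/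
noncomputable def Fw (φ : ℕ → ℝ) (Δ n : ℕ) : ℂ := ∑ t ∈ Icc 1 Δ, ee (φ (n + t))

/-- the sum over the differences -/
noncomputable def Tw (φ : ℕ → ℝ) (x1 N s t : ℕ) : ℂ := ∑ n ∈ range N, ee (φ (x1 + n + s) - φ (x1 + n + t))

lemma Ph_shift (d : ℕ) : ∀ (α : ℝ) (φ : ℕ → ℝ) (s : ℕ), Ph d α φ → Ph d α (fun n => φ (n + s)) := by
  induction d with
  | zero =>
    intro α φ s h n
    exact h (n + s)
  | succ d ih =>
    intro α φ s h r
    have h1 := ih _ _ s (h r)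
    have e : (fun n => φ (n + r + s) - φ (n + s)) = (fun n => (fun n => φ (n + r) - φ n) (n + s)) := by
      funext n
      simp only
      congr 2
      ring
    rw [e]
    exact h1

lemma sq_le (φ : ℕ → ℝ) (Δ x1 N : ℕ) :
    ∑ n ∈ range N, ‖Fw φ Δ (x1 + n)‖ ^ 2 ≤ ∑ s ∈ Icc 1 Δ, ∑ t ∈ Icc 1 Δ, ‖Tw φ x1 N s t‖ := by
  have h1 : ∀ n, ((‖Fw φ Δ (x1 + n)‖ ^ 2 : ℝ) : ℂ) =
      ∑ s ∈ Icc 1 Δ, ∑ t ∈ Icc 1 Δ, ee (φ (x1 + n + s) - φ (x1 + n + t)) := by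
    intro n
    have e : ((‖Fw φ Δ (x1 + n)‖ ^ 2 : ℝ) : ℂ) = Fw φ Δ (x1 + n) * (starRingEnd ℂ) (Fw φ Δ (x1 + n)) := by
      rw [Complex.mul_conj, Complex.normSq_eq_norm_sq]
    rw [e]
    unfold Fw
    rw [map_sum, sum_mul_sum]
    apply sum_congr rfl
    intro s _
    apply sum_congr rfl
    intro t _
    rw [conj_ee, ← ee_add]
    congr 1
  have h2 : ((∑ n ∈ range N, ‖Fw φ Δ (x1 + n)‖ ^ 2 : ℝ) : ℂ) = ∑ s ∈ Icc 1 Δ, ∑ t ∈ Icc 1 Δ, Tw φ x1 N s t := by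
    rw [Complex.ofReal_sum, sum_congr rfl (fun n _ => h1 n), sum_comm]
    apply sum_congr rfl
    intro s _
    rw [sum_comm]
    rfl
  have h3 : ∑ n ∈ range N, ‖Fw φ Δ (x1 + n)‖ ^ 2 = ‖∑ s ∈ Icc 1 Δ, ∑ t ∈ Icc 1 Δ, Tw φ x1 N s t‖ := by
    rw [← h2, Complex.norm_real, Real.norm_of_nonneg (sum_nonneg fun _ _ => sq_nonneg _)]
  rw [h3]
  refine (norm_sum_le _ _).trans (sum_le_sum fun s _ => ?_)
  exact norm_sum_le _ _

lemma Tw_symm (φ : ℕ → ℝ) (x1 N s t : ℕ) : ‖Tw φ x1 N s t‖ = ‖Tw φ x1 N t s‖ := by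
  rw [← RCLike.norm_conj]
  congr 1
  unfold Tw
  rw [map_sum]
  apply sum_congr rfl
  intro n _
  rw [conj_ee]
  congr 1
  ring

lemma Tw_le (φ : ℕ → ℝ) (x1 N s t : ℕ) : ‖Tw φ x1 N s t‖ ≤ N := by
  unfold Tw
  refine (norm_sum_le _ _).trans ?_
  simp [norm_ee]

open Classical in
/-- the differences with a large sum -/
noncomputable def Sh (φ : ℕ → ℝ) (Δ x1 N : ℕ) (K : ℝ) : Finset ℕ :=
  (Icc 1 Δ).filter (fun h => ∃ t ∈ Icc 1 Δ, (N : ℝ) ≤ 2 * K * ‖Tw φ x1 N (t + h) t‖)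

/-- many differences have a large sum -/
lemma many (φ : ℕ → ℝ) (Δ x1 N : ℕ) (K : ℝ) (hK : 1 ≤ K) (hN : 1 ≤ N) (hΔ : 8 * K ≤ Δ)
    (h : (N : ℝ) * Δ ^ 2 ≤ K * ∑ n ∈ range N, ‖Fw φ Δ (x1 + n)‖ ^ 2) : (Δ : ℝ) ≤ 8 * K * #(Sh φ Δ x1 N K) := by
  have hK0 : 0 < K := by linarith
  have hN0 : (0 : ℝ) < N := by exact_mod_cast hN
  have hΔ0 : (0 : ℝ) < Δ := by linarith
  set S := Sh φ Δ x1 N K with hS
  have hpt : ∀ s ∈ Icc 1 Δ, ∀ t ∈ Icc 1 Δ, ‖Tw φ x1 N s t‖ ≤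
      (if dst s t ∈ insert 0 S then (N : ℝ) else 0) + N / (2 * K) := by
    have hmain : ∀ s ∈ Icc 1 Δ, ∀ t ∈ Icc 1 Δ, t ≤ s → ‖Tw φ x1 N s t‖ ≤
      (if dst s t ∈ insert 0 S then (N : ℝ) else 0) + N / (2 * K) := by
      intro s hs t ht hts
      have hd : dst s t = s - t := by unfold dst; omega
      split_ifs with hc
      · have := Tw_le φ x1 N s t
        have h2 : 0 ≤ (N : ℝ) / (2 * K) := by positivity
        linarith
      · rw [zero_add]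
        rw [mem_insert, not_or] at hc
        obtain ⟨hc1, hc2⟩ := hc
        rw [hd] at hc1 hc2
        rw [mem_Icc] at hs ht
        have h3 : ¬ ((N : ℝ) ≤ 2 * K * ‖Tw φ x1 N s t‖) := by
          intro h4
          apply hc2
          rw [hS]
          unfold Sh
          simp only [mem_filter, mem_Icc]
          refine ⟨⟨by omega, by omega⟩, t, ht, ?_⟩
          rwa [show t + (s - t) = s by omega]
        push Not at h3
        rw [le_div_iff₀ (by positivity)]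
        nlinarith
    intro s hs t ht
    rcases le_total t s with hts | hts
    · exact hmain s hs t ht hts
    · have h1 := hmain t ht s hs hts
      rw [Tw_symm]
      have : dst s t = dst t s := by unfold dst; omega
      rw [this]
      exact h1
  have h1 : ∑ s ∈ Icc 1 Δ, ∑ t ∈ Icc 1 Δ, ‖Tw φ x1 N s t‖ ≤ Δ * (2 * (#S + 1) * N) + Δ ^ 2 * (N / (2 * K)) := by
    calc ∑ s ∈ Icc 1 Δ, ∑ t ∈ Icc 1 Δ, ‖Tw φ x1 N s t‖
        ≤ ∑ s ∈ Icc 1 Δ, ∑ t ∈ Icc 1 Δ, ((if dst s t ∈ insert 0 S then (N : ℝ) else 0) + N / (2 * K)) :=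
          sum_le_sum fun s hs => sum_le_sum fun t ht => hpt s hs t ht
      _ ≤ ∑ s ∈ Icc 1 Δ, (2 * (#S + 1) * N + Δ * (N / (2 * K))) := by
          apply sum_le_sum
          intro s _
          rw [sum_add_distrib, ← sum_filter, sum_const, sum_const, nsmul_eq_mul, nsmul_eq_mul, Nat.card_Icc,
            Nat.add_sub_cancel]
          apply add_le_add _ le_rfl
          apply mul_le_mul_of_nonneg_right _ hN0.le
          have h2 := dst_count (Icc 1 Δ) (insert 0 S) s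
          have h3 : #(insert 0 S) ≤ #S + 1 := card_insert_le _ _
          have h4 : #((Icc 1 Δ).filter (fun t => dst s t ∈ insert 0 S)) ≤ 2 * (#S + 1) := by omega
          exact_mod_cast h4
      _ = _ := by
          rw [sum_const, nsmul_eq_mul, Nat.card_Icc, Nat.add_sub_cancel]
          ring
  have h2 := sq_le φ Δ x1 N
  have h3 : (N : ℝ) * Δ ^ 2 ≤ K * (Δ * (2 * (#S + 1) * N) + Δ ^ 2 * (N / (2 * K))) :=
    h.trans (mul_le_mul_of_nonneg_left (h2.trans h1) hK0.le)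
  have h4 : K * (Δ * (2 * (#S + 1) * N) + Δ ^ 2 * (N / (2 * K))) = N * Δ * (2 * K * (#S + 1)) + N * Δ ^ 2 / 2 := by
    field_simp
  rw [h4] at h3
  have h5 : (N : ℝ) * Δ * Δ ≤ N * Δ * (4 * K * (#S + 1)) := by nlinarith
  have h6 := le_of_mul_le_mul_left h5 (by positivity)
  nlinarith

/-- among many integers of `[1, Δ]` two are close to each other -/
lemma close (S : Finset ℕ) (Δ g : ℕ) (hg : 1 ≤ g) (hS : ∀ h ∈ S, 1 ≤ h ∧ h ≤ Δ) (hc : Δ / g + 1 < #S) :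
    ∃ h1 ∈ S, ∃ h2 ∈ S, h1 < h2 ∧ h2 - h1 ≤ g := by
  obtain ⟨a, ha, b, hb, hab, he⟩ := Finset.exists_ne_map_eq_of_card_lt_of_maps_to (s := S) (t := range (Δ / g + 1))
    (f := fun h => h / g) (by rw [card_range]; exact hc) (by
      intro h hh
      have := hS h hh
      simp only [mem_range, coe_range, Set.mem_Iio] at *
      have h2 := Nat.div_le_div_right (c := g) this.2
      omega)
  have key : ∀ a b : ℕ, a < b → a / g = b / g → b - a ≤ g := by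
    intro a b hab he
    have h1 := Nat.div_add_mod a g
    have h2 := Nat.div_add_mod b g
    have h3 := Nat.mod_lt b (by omega : g > 0)
    rw [he] at h1
    omega
  rcases lt_or_gt_of_ne hab with h | h
  · exact ⟨a, ha, b, hb, h, key a b h he⟩
  · exact ⟨b, hb, a, ha, h, key b a h he.symm⟩

/-- a set of positive integers has an element at least its cardinality -/
lemma big (S : Finset ℕ) (hS : ∀ h ∈ S, 1 ≤ h) (hne : S.Nonempty) : ∃ h ∈ S, #S ≤ h := by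
  refine ⟨S.max' hne, S.max'_mem hne, ?_⟩
  have h1 : S ⊆ Icc 1 (S.max' hne) := by
    intro h hh
    rw [mem_Icc]
    exact ⟨hS h hh, S.le_max' h hh⟩
  have h2 := card_le_card h1
  rw [Nat.card_Icc] at h2
  omega

/-- many multiples `h β` are close to integers: a good approximation of `β` -/
lemma linear (S : Finset ℕ) (Δ : ℕ) (β η v : ℝ) (hv : 1 ≤ v) (hη : 0 ≤ η) (hS : ∀ h ∈ S, 1 ≤ h ∧ h ≤ Δ)
    (hc : (Δ : ℝ) ≤ v * #S) (hΔ : 4 * v ≤ Δ) (h1 : ∀ h ∈ S, ∃ b : ℤ, |h * β - b| ≤ η) (h2 : 8 * η * Δ ≤ 1)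
    (h3 : 12 * v * η ≤ 1) : ∃ s : ℕ, 1 ≤ s ∧ (s : ℝ) ≤ 3 * v ∧ ∃ b : ℤ, |s * β - b| ≤ 3 * v * v * η / Δ := by
  have hv0 : 0 < v := by linarith
  have hΔ0 : (0 : ℝ) < Δ := by linarith
  obtain ⟨g, hg⟩ : ∃ g : ℕ, g = ⌈2 * v⌉₊ := ⟨_, rfl⟩
  have hg1 : 2 * v ≤ g := by rw [hg]; exact Nat.le_ceil _
  have hg2 : (g : ℝ) ≤ 3 * v := by
    have := Nat.ceil_lt_add_one (a := 2 * v) (by positivity)
    rw [← hg] at this
    linarith
  have hg0 : (0 : ℝ) < g := by linarith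
  have hgn : 1 ≤ g := by
    have : (0 : ℝ) < g := hg0
    exact_mod_cast this
  have hcard : Δ / g + 1 < #S := by
    have e1 : ((Δ / g : ℕ) : ℝ) ≤ Δ / g := Nat.cast_div_le
    have e2 : (Δ : ℝ) / g ≤ Δ / (2 * v) := div_le_div_of_nonneg_left hΔ0.le (by positivity) hg1
    have e3 : (Δ : ℝ) / v ≤ #S := by rw [div_le_iff₀ hv0]; linarith
    have e4 : (Δ : ℝ) / (2 * v) + 1 < Δ / v := by
      have e5 : 1 < (Δ : ℝ) / (2 * v) := by rw [lt_div_iff₀ (by positivity)]; linarith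
      have e6 : (Δ : ℝ) / v = Δ / (2 * v) + Δ / (2 * v) := by field_simp; ring
      rw [e6]
      linarith
    have e7 : ((Δ / g : ℕ) : ℝ) + 1 < #S := by linarith
    exact_mod_cast e7
  obtain ⟨p1, hp1, p2, hp2, hlt, hd⟩ := close S Δ g hgn hS hcard
  obtain ⟨b1, hb1⟩ := h1 p1 hp1
  obtain ⟨b2, hb2⟩ := h1 p2 hp2
  obtain ⟨s, hs⟩ : ∃ s : ℕ, s = p2 - p1 := ⟨_, rfl⟩
  have hs1 : 1 ≤ s := by omega
  have hsg : (s : ℝ) ≤ 3 * v := by
    have : (s : ℝ) ≤ g := by rw [hs]; exact_mod_cast hd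
    linarith
  have hsr : (s : ℝ) = p2 - p1 := by rw [hs, Nat.cast_sub hlt.le]
  have hne : S.Nonempty := ⟨p1, hp1⟩
  obtain ⟨h, hh, hhc⟩ := big S (fun h hh => (hS h hh).1) hne
  obtain ⟨bh, hbh⟩ := h1 h hh
  have hh1 : (Δ : ℝ) ≤ v * h := by
    refine hc.trans (mul_le_mul_of_nonneg_left ?_ hv0.le)
    exact_mod_cast hhc
  have hhΔ : (h : ℝ) ≤ Δ := by exact_mod_cast (hS h hh).2
  have hh0 : (0 : ℝ) < h := by exact_mod_cast (hS h hh).1
  set ε : ℝ := s * β - (b2 - b1 : ℤ) with hε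
  have hε1 : |ε| ≤ 2 * η := by
    have : ε = (p2 * β - b2) - (p1 * β - b1) := by
      rw [hε, hsr]; push_cast; ring
    rw [this]
    refine (abs_sub _ _).trans ?_
    linarith
  have hs0 : (0 : ℝ) < s := by exact_mod_cast hs1
  -- the integer is zero
  have key : (s : ℝ) * (h * β - bh) = h * ε + (((b2 - b1) * h - s * bh : ℤ) : ℝ) := by
    rw [hε]; push_cast; ring
  have hA : |(s : ℝ) * (h * β - bh)| ≤ s * η := by
    rw [abs_mul, abs_of_pos hs0]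
    exact mul_le_mul_of_nonneg_left hbh hs0.le
  have hB : |(h : ℝ) * ε| ≤ 2 * η * Δ := by
    rw [abs_mul, abs_of_pos hh0]
    calc (h : ℝ) * |ε| ≤ Δ * (2 * η) := mul_le_mul hhΔ hε1 (abs_nonneg _) hΔ0.le
      _ = _ := by ring
  have hsη : (s : ℝ) * η ≤ 1 / 4 := by
    have : (s : ℝ) * η ≤ 3 * v * η := mul_le_mul_of_nonneg_right hsg hη
    linarith
  have hz : ((b2 - b1) * h - s * bh : ℤ) = 0 := by
    have h5 : |(((b2 - b1) * h - s * bh : ℤ) : ℝ)| < 1 := by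
      have e : (((b2 - b1) * h - s * bh : ℤ) : ℝ) = (s : ℝ) * (h * β - bh) - h * ε := by rw [key]; ring
      rw [e]
      refine (abs_sub _ _).trans_lt ?_
      linarith
    have h6 : |((b2 - b1) * h - s * bh : ℤ)| < 1 := by exact_mod_cast h5
    exact Int.abs_lt_one_iff.1 h6
  rw [hz, Int.cast_zero, add_zero] at key
  refine ⟨s, hs1, hsg, b2 - b1, ?_⟩
  rw [← hε]
  rw [key, abs_mul, abs_of_pos hh0] at hA
  rw [le_div_iff₀ hΔ0]
  calc |ε| * Δ ≤ |ε| * (v * h) := mul_le_mul_of_nonneg_left hh1 (abs_nonneg _)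
    _ = v * (h * |ε|) := by ring
    _ ≤ v * (s * η) := mul_le_mul_of_nonneg_left hA hv0.le
    _ ≤ v * (3 * v * η) := mul_le_mul_of_nonneg_left (mul_le_mul_of_nonneg_right hsg hη) hv0.le
    _ = _ := by ring

end Pool.Agent.H544.SR
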