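import Mathlib

/-!
Values and increments of a polynomial.
-/

set_option autoImplicit false

namespace Pool.Agent.H544.SR
open Finset Polynomial Filter Topology

lemma ev_lead (P : ℝ[X]) (hl : 0 < P.leadingCoeff) : ∃ x0 : ℝ, 1 ≤ x0 ∧ ∀ x : ℝ, x0 ≤ x →
    P.leadingCoeff / 2 * x ^ P.natDegree ≤ P.eval x ∧ P.eval x ≤ 2 * P.leadingCoeff * x ^ P.natDegree := by
  have h1 := (Polynomial.isEquivalent_atTop_lead P).isLittleO.def (by norm_num : (0 : ℝ) < 1 / 2)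
  obtain ⟨x0, hx0⟩ := eventually_atTop.1 h1
  refine ⟨max x0 1, le_max_right _ _, fun x hx => ?_⟩
  have h2 := hx0 x ((le_max_left _ _).trans hx)
  have hx1 : 1 ≤ x := (le_max_right _ _).trans hx
  have h3 : 0 ≤ P.leadingCoeff * x ^ P.natDegree := by positivity
  rw [Pi.sub_apply, Real.norm_eq_abs, Real.norm_eq_abs, abs_of_nonneg h3, abs_le] at h2
  constructor <;> nlinarith [h2.1, h2.2]

theorem poly_bd (f : ℤ[X]) (e : ℕ) (hd : f.natDegree = e + 1) (hl : 0 < f.leadingCoeff) : ∃ n0 k : ℕ, 1 ≤ k ∧ 1 ≤ n0 ∧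
    ∀ m : ℕ, n0 ≤ m → 0 ≤ f.eval (m : ℤ) ∧ ((f.eval (m : ℤ) : ℤ) : ℝ) ≤ k * (m : ℝ) ^ (e + 1) ∧
      (m : ℝ) ^ e ≤ k * (((f.eval ((m + 1 : ℕ) : ℤ) : ℤ) : ℝ) - ((f.eval (m : ℤ) : ℤ) : ℝ)) ∧
      ((f.eval ((m + 1 : ℕ) : ℤ) : ℤ) : ℝ) - ((f.eval (m : ℤ) : ℤ) : ℝ) ≤ k * (m : ℝ) ^ e := by
  set P : ℝ[X] := f.map (Int.castRingHom ℝ) with hP
  have hinj : Function.Injective (Int.castRingHom ℝ) := RingHom.injective_int _
  have hPd : P.natDegree = e + 1 := by rw [hP, natDegree_map_eq_of_injective hinj, hd]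
  have hPl : P.leadingCoeff = (f.leadingCoeff : ℝ) := by
    rw [hP, leadingCoeff_map_of_injective hinj]
    simp
  have hl1 : (1 : ℝ) ≤ f.leadingCoeff := by exact_mod_cast hl
  have hev : ∀ m : ℕ, P.eval (m : ℝ) = ((f.eval (m : ℤ) : ℤ) : ℝ) := by
    intro m
    rw [hP, show ((m : ℝ)) = (Int.castRingHom ℝ) (m : ℤ) by simp, eval_map, eval₂_at_apply]
    simp
  set Q : ℝ[X] := derivative P with hQ
  have hQd : Q.natDegree = e := by
    rw [hQ, natDegree_derivative, hPd, Nat.add_sub_cancel]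
  have hQl : Q.leadingCoeff = (e + 1) * (f.leadingCoeff : ℝ) := by
    rw [leadingCoeff, hQd, hQ, coeff_derivative]
    rw [← hPd, ← leadingCoeff, hPl]
    push_cast
    ring
  obtain ⟨x1, hx1, h1⟩ := ev_lead P (by rw [hPl]; linarith)
  obtain ⟨x2, hx2, h2⟩ := ev_lead Q (by rw [hQl]; positivity)
  set c : ℕ := f.leadingCoeff.toNat with hc
  have hcr : (c : ℝ) = (f.leadingCoeff : ℝ) := by
    have h3 : ((c : ℤ) : ℝ) = (f.leadingCoeff : ℝ) := by rw [hc, Int.toNat_of_nonneg hl.le]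
    rw [← h3]; push_cast; rfl
  rw [hPl] at h1
  rw [hQl] at h2
  rw [← hcr] at h1 h2 hl1
  refine ⟨⌈max x1 x2⌉₊ + 1, 2 * (e + 1) * c * 2 ^ e, ?_, by omega, ?_⟩
  · have : 0 < 2 * (e + 1) * c * 2 ^ e := by
      have h3 : 0 < c := by exact_mod_cast (by linarith : (0 : ℝ) < c)
      positivity
    exact this
  intro m hm
  have hmr : max x1 x2 ≤ m := by
    have h3 := Nat.le_ceil (max x1 x2)
    have h4 : ((⌈max x1 x2⌉₊ + 1 : ℕ) : ℝ) ≤ m := by exact_mod_cast hm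
    push_cast at h4
    linarith
  have hm1 : x1 ≤ m := (le_max_left _ _).trans hmr
  have hm2 : x2 ≤ m := (le_max_right _ _).trans hmr
  have hm0 : (1 : ℝ) ≤ m := hx1.trans hm1
  obtain ⟨a1, a2⟩ := h1 m hm1
  rw [hPd, hev] at a1 a2
  have hpe : (1 : ℝ) ≤ 2 ^ e := one_le_pow₀ (by norm_num)
  have he1 : (1 : ℝ) ≤ (e : ℝ) + 1 := by
    have : (0 : ℝ) ≤ e := Nat.cast_nonneg e
    linarith
  have hk : (2 : ℝ) * c ≤ ((2 * (e + 1) * c * 2 ^ e : ℕ) : ℝ) := by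
    push_cast
    calc (2 : ℝ) * c = 2 * 1 * c * 1 := by ring
      _ ≤ 2 * ((e : ℝ) + 1) * c * 2 ^ e := by gcongr
  have hk2 : (2 : ℝ) ≤ ((2 * (e + 1) * c * 2 ^ e : ℕ) : ℝ) := by linarith
  obtain ⟨ξ, hξ, hs⟩ := exists_hasDerivAt_eq_slope (fun x => P.eval x) (fun x => Q.eval x) (show (m : ℝ) < m + 1 by linarith)
    (P.continuous.continuousOn) (fun x _ => P.hasDerivAt x)
  rw [show (m : ℝ) + 1 - m = 1 by ring, div_one] at hs
  rw [hev, show (m : ℝ) + 1 = ((m + 1 : ℕ) : ℝ) by push_cast; ring, hev] at hs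
  rw [← hs]
  obtain ⟨b1, b2⟩ := h2 ξ (hm2.trans hξ.1.le)
  rw [hQd] at b1 b2
  have hξ0 : 0 ≤ ξ := by linarith [hξ.1]
  have c1 : (m : ℝ) ^ e ≤ ξ ^ e := pow_le_pow_left₀ (by linarith) hξ.1.le e
  have c2 : ξ ^ e ≤ 2 ^ e * (m : ℝ) ^ e := by
    rw [← mul_pow]
    apply pow_le_pow_left₀ hξ0
    linarith [hξ.2]
  have c3 : 0 ≤ (m : ℝ) ^ e := by positivity
  refine ⟨?_, ?_, ?_, ?_⟩
  · have h3 : (0 : ℝ) ≤ (c : ℝ) / 2 * (m : ℝ) ^ (e + 1) := by positivity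
    exact_mod_cast h3.trans a1
  · refine a2.trans ?_
    exact mul_le_mul_of_nonneg_right hk (by positivity)
  · have h3 : (1 : ℝ) / 2 * ξ ^ e ≤ ((e : ℝ) + 1) * c / 2 * ξ ^ e := by
      apply mul_le_mul_of_nonneg_right _ (by positivity)
      have : (1 : ℝ) * 1 ≤ ((e : ℝ) + 1) * c := mul_le_mul he1 hl1 (by norm_num) (by linarith)
      linarith
    have h4 : (1 : ℝ) / 2 * (m : ℝ) ^ e ≤ Q.eval ξ := by linarith
    have h5 : 0 ≤ Q.eval ξ := le_trans (by positivity) h4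
    calc (m : ℝ) ^ e ≤ 2 * Q.eval ξ := by linarith
      _ ≤ _ := mul_le_mul_of_nonneg_right hk2 h5
  · calc Q.eval ξ ≤ 2 * (((e : ℝ) + 1) * c) * ξ ^ e := b2
      _ ≤ 2 * (((e : ℝ) + 1) * c) * (2 ^ e * (m : ℝ) ^ e) := by gcongr
      _ = _ := by push_cast; ring

/-- increments over longer steps -/
lemma incr (f : ℕ → ℝ) (n0 e : ℕ) (k : ℝ) (h : ∀ m : ℕ, n0 ≤ m → (m : ℝ) ^ e ≤ k * (f (m + 1) - f m) ∧
    f (m + 1) - f m ≤ k * (m : ℝ) ^ e) (h1 : 0 < k) (m : ℕ) (hm : n0 ≤ m) : ∀ t : ℕ, f m ≤ f (m + t) ∧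
    f (m + t) ≤ f m + t * (k * ((m + t : ℕ) : ℝ) ^ e) := by
  intro t
  induction t with
  | zero => simp
  | succ t ih =>
    obtain ⟨g1, g2⟩ := h (m + t) (by omega)
    have g3 : (0 : ℝ) ≤ ((m + t : ℕ) : ℝ) ^ e := by positivity
    have g4 : 0 ≤ f (m + t + 1) - f (m + t) := by
      by_contra hc
      push Not at hc
      have : k * (f (m + t + 1) - f (m + t)) < 0 := mul_neg_of_pos_of_neg h1 hc
      linarith
    have g5 : ((m + t : ℕ) : ℝ) ^ e ≤ ((m + (t + 1) : ℕ) : ℝ) ^ e := by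
      apply pow_le_pow_left₀ (by positivity)
      exact_mod_cast (by omega : m + t ≤ m + (t + 1))
    have g6 : (t : ℝ) * (k * ((m + t : ℕ) : ℝ) ^ e) ≤ t * (k * ((m + (t + 1) : ℕ) : ℝ) ^ e) := by gcongr
    have g7 : k * ((m + t : ℕ) : ℝ) ^ e ≤ k * ((m + (t + 1) : ℕ) : ℝ) ^ e := by gcongr
    rw [show m + (t + 1) = m + t + 1 by ring] at g6 g7 ⊢
    constructor
    · linarith [ih.1]
    · push_cast at g6 g7 ih ⊢
      have e1 : ((t : ℝ) + 1) * (k * ((m : ℝ) + t + 1) ^ e) = t * (k * ((m : ℝ) + t + 1) ^ e) + k * ((m : ℝ) + t + 1) ^ e := by ring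
      rw [e1]
      push_cast at g2
      linarith [ih.2]

end Pool.Agent.H544.SR
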