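import Mathlib
import Pool.Agent.H544.SR.S1

/-!
The inverse theorem: sums over short blocks which are large in mean square.
-/

set_option autoImplicit false

namespace Pool.Agent.H544.SR
open Finset Polynomial
open Pool.Agent.H807R2.Dav
open Pool.Agent.H373R2.NB (Ph)
open Pool.Agent.H544.LD (iw)

/-- pigeonhole -/
lemma pigeon (S : Finset ℕ) (R : ℕ) (f : ℕ → ℕ) (hR : 1 ≤ R) (hf : ∀ h ∈ S, f h ∈ Icc 1 R) :
    ∃ q ∈ Icc 1 R, #S ≤ R * #(S.filter (fun h => f h = q)) := by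
  by_contra hcon
  push Not at hcon
  have h1 : #S = ∑ q ∈ Icc 1 R, #(S.filter (fun h => f h = q)) := card_eq_sum_card_fiberwise (by
    intro h hh
    exact hf h hh)
  have h2 : ∑ q ∈ Icc 1 R, R * #(S.filter (fun h => f h = q)) < ∑ _q ∈ Icc 1 R, #S :=
    sum_lt_sum_of_nonempty ⟨1, mem_Icc.2 ⟨le_rfl, hR⟩⟩ hcon
  rw [← mul_sum, ← h1, sum_const, Nat.card_Icc, Nat.add_sub_cancel, smul_eq_mul] at h2
  exact lt_irrefl _ h2

theorem inv (e : ℕ) (he : 1 ≤ e) : ∃ c m : ℕ, 1 ≤ c ∧ ∀ (N Δ x1 : ℕ) (K β : ℝ) (φ : ℕ → ℝ), 1 ≤ N → 1 ≤ K →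
    Ph (e + 1) β φ → c * K ^ m ≤ Δ → c * K ^ m * Δ ≤ (N : ℝ) ^ e →
    (N : ℝ) * Δ ^ 2 ≤ K * ∑ n ∈ range N, ‖Fw φ Δ (x1 + n)‖ ^ 2 →
    ∃ q : ℕ, 1 ≤ q ∧ (q : ℝ) ≤ c * K ^ m ∧ ∃ b : ℤ, |q * β - b| ≤ c * K ^ m / ((N : ℝ) ^ e * Δ) := by
  obtain ⟨c0, m0, hc0, hI⟩ := iw e he
  refine ⟨192 * c0 ^ 3 * 2 ^ (3 * m0), 3 * m0 + 2, ?_, ?_⟩
  · have : 0 < 192 * c0 ^ 3 * 2 ^ (3 * m0) := by positivity
    exact this
  intro N Δ x1 K β φ hN hK hφ h1 h2 h3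
  have hc0r : (1 : ℝ) ≤ c0 := by exact_mod_cast hc0
  have hK0 : 0 < K := by linarith
  have hN0 : (0 : ℝ) < N := by exact_mod_cast hN
  set R : ℝ := c0 * (2 * K) ^ m0 with hR
  have hR1 : 1 ≤ R := one_le_mul_of_one_le_of_one_le hc0r (one_le_pow₀ (by linarith))
  have hR0 : 0 < R := by linarith
  have hC : ((192 * c0 ^ 3 * 2 ^ (3 * m0) : ℕ) : ℝ) * K ^ (3 * m0 + 2) = 192 * K ^ 2 * R ^ 3 := by
    rw [hR]
    push_cast
    rw [mul_pow, mul_pow, pow_add, mul_pow, ← pow_mul, ← pow_mul, mul_comm m0 3, mul_comm 3 m0]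
    ring
  rw [hC] at h1 h2 ⊢
  have hKR : 1 ≤ K * R := one_le_mul_of_one_le_of_one_le hK hR1
  have hb1 : K * R ≤ K ^ 2 * R ^ 3 := by
    have : 1 ≤ K * R * R := one_le_mul_of_one_le_of_one_le hKR hR1
    calc K * R ≤ K * R * (K * R * R) := le_mul_of_one_le_right (by positivity) this
      _ = _ := by ring
  have hb2 : K ≤ K ^ 2 * R ^ 3 := le_trans (le_mul_of_one_le_right hK0.le hR1) hb1
  have hb3 : R ≤ K ^ 2 * R ^ 3 := le_trans (le_mul_of_one_le_left hR0.le hK) hb1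
  have hb4 : K * R ^ 2 ≤ K ^ 2 * R ^ 3 := by
    calc K * R ^ 2 ≤ K * R ^ 2 * (K * R) := le_mul_of_one_le_right (by positivity) hKR
      _ = _ := by ring
  have hΔ0 : (0 : ℝ) < Δ := by
    have : (0 : ℝ) < 192 * K ^ 2 * R ^ 3 := by positivity
    linarith
  have hΔ1 : (1 : ℝ) ≤ Δ := by
    have : (1 : ℝ) ≤ 192 * K ^ 2 * R ^ 3 := by nlinarith
    linarith
  have hm := many φ Δ x1 N K hK hN (by nlinarith) h3
  set S := Sh φ Δ x1 N K with hS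
  have hSm : ∀ h ∈ S, (1 ≤ h ∧ h ≤ Δ) ∧ ∃ t ∈ Icc 1 Δ, (N : ℝ) ≤ 2 * K * ‖Tw φ x1 N (t + h) t‖ := by
    intro h hh
    rw [hS] at hh
    unfold Sh at hh
    simp only [mem_filter, mem_Icc] at hh
    obtain ⟨g1, t, g2, g3⟩ := hh
    exact ⟨g1, t, mem_Icc.2 g2, g3⟩
  have hex : ∀ h, ∃ q : ℕ, h ∈ S → (1 ≤ q ∧ (q : ℝ) ≤ R ∧ ∃ a : ℤ, |q * (h * β) - a| ≤ R / (N : ℝ) ^ e) := by
    intro h
    by_cases hh : h ∈ S
    · obtain ⟨_, t, ht, hbig⟩ := hSm h hh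
      have hph := Ph_shift e _ _ (x1 + t) (hφ h)
      have hsum : Tw φ x1 N (t + h) t = ∑ n ∈ range N, ee ((fun n => (fun n => φ (n + h) - φ n) (n + (x1 + t))) n) := by
        unfold Tw
        apply sum_congr rfl
        intro n _
        congr 2
        · congr 1; ring
        · congr 1; ring
      rw [hsum] at hbig
      obtain ⟨q, q1, q2, a, q3⟩ := hI N (2 * K) _ _ hN (by linarith) hph hbig
      exact ⟨q, fun _ => ⟨q1, q2, a, q3⟩⟩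
    · exact ⟨0, fun h' => absurd h' hh⟩
  choose f hf using hex
  obtain ⟨Rn, hRn⟩ : ∃ Rn : ℕ, Rn = ⌊R⌋₊ := ⟨_, rfl⟩
  have hRn1 : 1 ≤ Rn := by rw [hRn]; exact Nat.le_floor (by exact_mod_cast hR1)
  have hRnR : (Rn : ℝ) ≤ R := by rw [hRn]; exact Nat.floor_le hR0.le
  obtain ⟨q, hq, hcard⟩ := pigeon S Rn f hRn1 (by
    intro h hh
    obtain ⟨g1, g2, _⟩ := hf h hh
    rw [mem_Icc]
    exact ⟨g1, by rw [hRn]; exact Nat.le_floor g2⟩)
  rw [mem_Icc] at hq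
  have hqR : (q : ℝ) ≤ R := le_trans (by exact_mod_cast hq.2) hRnR
  have hq0 : (0 : ℝ) < q := by exact_mod_cast hq.1
  set T := S.filter (fun h => f h = q) with hT
  set v : ℝ := 8 * K * R with hv
  have hv1 : 1 ≤ v := by rw [hv]; nlinarith
  obtain ⟨s, hs1, hs2, b, hb⟩ := linear T Δ (q * β) (R / (N : ℝ) ^ e) v hv1 (by positivity)
    (fun h hh => (hSm h (mem_filter.1 hh).1).1)
    (by
      have g1 : (#S : ℝ) ≤ Rn * #T := by exact_mod_cast hcard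
      have g2 : (Rn : ℝ) * #T ≤ R * #T := mul_le_mul_of_nonneg_right hRnR (by positivity)
      calc (Δ : ℝ) ≤ 8 * K * #S := hm
        _ ≤ 8 * K * (R * #T) := mul_le_mul_of_nonneg_left (g1.trans g2) (by positivity)
        _ = _ := by rw [hv]; ring)
    (by rw [hv]; nlinarith)
    (by
      intro h hh
      obtain ⟨g1, g2⟩ := mem_filter.1 hh
      obtain ⟨_, _, a, ha⟩ := hf h g1
      rw [g2] at ha
      refine ⟨a, ?_⟩
      rwa [show (h : ℝ) * (q * β) = q * (h * β) by ring])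
    (by
      rw [show 8 * (R / (N : ℝ) ^ e) * Δ = (8 * R * Δ) / (N : ℝ) ^ e by ring, div_le_one (by positivity)]
      refine le_trans ?_ h2
      apply mul_le_mul_of_nonneg_right _ hΔ0.le
      nlinarith)
    (by
      rw [show 12 * v * (R / (N : ℝ) ^ e) = (96 * (K * R ^ 2)) / (N : ℝ) ^ e by rw [hv]; ring, div_le_one (by positivity)]
      refine le_trans ?_ h2
      have g0 : 0 < 192 * K ^ 2 * R ^ 3 := by positivity
      calc 96 * (K * R ^ 2) ≤ 192 * K ^ 2 * R ^ 3 := by nlinarith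
        _ ≤ 192 * K ^ 2 * R ^ 3 * Δ := le_mul_of_one_le_right g0.le hΔ1)
  refine ⟨s * q, Nat.mul_pos hs1 hq.1, ?_, b, ?_⟩
  · push_cast
    calc (s : ℝ) * q ≤ 3 * v * R := mul_le_mul hs2 hqR hq0.le (by positivity)
      _ = 24 * (K * R ^ 2) := by rw [hv]; ring
      _ ≤ _ := by nlinarith
  · push_cast
    rw [mul_assoc]
    refine hb.trans (le_of_eq ?_)
    rw [hv]
    field_simp
    ring

end Pool.Agent.H544.SR
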