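import Mathlib
import Pool.Agent.H544.SR.S2

/-!
The bilinear estimate with a window for each block.
-/

set_option autoImplicit false

namespace Pool.Agent.H544.SR
open Finset Polynomial
open Pool.Agent.H807R2.Dav
open Pool.Agent.H373R2.T7 (conj_ee orth parseval_Icc triple)

/-- the exponential sum over the window after `c` -/
noncomputable def gh (E : ℤ → ℝ) (L M : ℕ) (c : ℤ) (t : ℕ) : ℂ :=
  ∑ l ∈ Icc 1 L, (E (c + l) : ℂ) * ee ((t : ℝ) * ((((-1 : ℤ) * l : ℤ) : ℝ) / M))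

/-- the Fourier identity -/
lemma four (E : ℤ → ℝ) (A L M Δ : ℕ) (hM : 1 ≤ M) (hLM : L ≤ M) (F : ℕ → ℤ) (c : ℤ) (G : ℕ → ℝ)
    (hw : ∀ a ∈ Icc 1 A, ∀ t ∈ Icc 1 Δ, c < a + F t ∧ a + F t ≤ c + L) :
    (M : ℂ) * ∑ a ∈ Icc 1 A, ∑ t ∈ Icc 1 Δ, (G a : ℂ) * (E (a + F t) : ℂ) =
      ∑ τ ∈ range M, gh E L M c τ * (∑ a ∈ Icc 1 A, (G a : ℂ) * ee ((τ : ℝ) * ((((1 : ℤ) * a : ℤ) : ℝ) / M))) *
        ∑ t ∈ Icc 1 Δ, ee ((τ : ℝ) * (((F t - c : ℤ) : ℝ) / M)) := by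
  have h1 : ∀ τ ∈ range M, gh E L M c τ * (∑ a ∈ Icc 1 A, (G a : ℂ) * ee ((τ : ℝ) * ((((1 : ℤ) * a : ℤ) : ℝ) / M))) *
        ∑ t ∈ Icc 1 Δ, ee ((τ : ℝ) * (((F t - c : ℤ) : ℝ) / M)) = ∑ a ∈ Icc 1 A, ∑ t ∈ Icc 1 Δ, ∑ l ∈ Icc 1 L,
        (G a : ℂ) * (E (c + l) : ℂ) * ee ((τ : ℝ) * ((((a : ℤ) + F t - c - l : ℤ) : ℝ) / M)) := by
    intro τ _
    unfold gh
    rw [← triple]
    apply sum_congr rfl
    intro a _
    apply sum_congr rfl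
    intro t _
    apply sum_congr rfl
    intro l _
    have h2 : ee ((τ : ℝ) * ((((a : ℤ) + F t - c - l : ℤ) : ℝ) / M)) =
        ee ((τ : ℝ) * ((((1 : ℤ) * a : ℤ) : ℝ) / M)) * ee ((τ : ℝ) * ((((-1 : ℤ) * l : ℤ) : ℝ) / M)) *
          ee ((τ : ℝ) * (((F t - c : ℤ) : ℝ) / M)) := by
      rw [← ee_add, ← ee_add]
      congr 1
      push_cast
      ring
    rw [h2]
    ring
  rw [sum_congr rfl h1]
  symm
  rw [sum_comm, mul_sum]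
  apply sum_congr rfl
  intro a ha
  rw [sum_comm, mul_sum]
  apply sum_congr rfl
  intro t ht
  rw [sum_comm]
  obtain ⟨w1, w2⟩ := hw a ha t ht
  have h2 : ∀ l ∈ Icc 1 L, ∑ τ ∈ range M, (G a : ℂ) * (E (c + l) : ℂ) * ee ((τ : ℝ) * ((((a : ℤ) + F t - c - l : ℤ) : ℝ) / M)) =
      if (l : ℤ) = a + F t - c then (M : ℂ) * ((G a : ℂ) * (E (c + l) : ℂ)) else 0 := by
    intro l hl
    rw [mem_Icc] at hl
    rw [← mul_sum, orth M hM]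
    by_cases h3 : (l : ℤ) = a + F t - c
    · rw [if_pos h3, if_pos (by rw [h3]; simp)]
      ring
    · rw [if_neg h3, if_neg, mul_zero]
      intro hd
      apply h3
      have := Int.eq_zero_of_abs_lt_dvd hd (by rw [abs_lt]; constructor <;> omega)
      omega
  rw [sum_congr rfl h2]
  rw [sum_eq_single (a + F t - c).toNat]
  · have h3 : (((a + F t - c).toNat : ℕ) : ℤ) = a + F t - c := Int.toNat_of_nonneg (by omega)
    rw [if_pos h3, h3]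
    congr 3
    ring_nf
  · intro l _ hne
    rw [if_neg]
    intro h
    apply hne
    rw [← h, Int.toNat_natCast]
  · intro h
    exfalso
    apply h
    rw [mem_Icc]
    constructor <;> omega

/-- Parseval for the windows -/
lemma gh_sq (E : ℤ → ℝ) (L M : ℕ) (hM : 1 ≤ M) (hLM : L ≤ M) (c : ℤ) (ρ : ℝ) (hE : ∀ l ∈ Icc 1 L, |E (c + l)| ≤ ρ) :
    ∑ τ ∈ range M, ‖gh E L M c τ‖ ^ 2 ≤ M * (L * ρ ^ 2) := by
  unfold gh
  rw [parseval_Icc L M hM hLM (fun l => (E (c + l) : ℂ)) (-1) (Or.inr rfl)]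
  apply mul_le_mul_of_nonneg_left _ (by positivity)
  calc ∑ a ∈ Icc 1 L, ‖((E (c + a) : ℝ) : ℂ)‖ ^ 2 ≤ ∑ _a ∈ Icc 1 L, ρ ^ 2 := by
        apply sum_le_sum
        intro l hl
        rw [Complex.norm_real, Real.norm_eq_abs]
        exact pow_le_pow_left₀ (abs_nonneg _) (hE l hl) 2
    _ = _ := by rw [sum_const, nsmul_eq_mul, Nat.card_Icc, Nat.add_sub_cancel]

/-- the bilinear estimate -/
theorem bil (E : ℤ → ℝ) (A L M Δ N x1 : ℕ) (hM : 1 ≤ M) (hLM : L ≤ M) (hAM : A ≤ M) (F : ℕ → ℤ) (c : ℕ → ℤ)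
    (hw : ∀ n ∈ range N, ∀ a ∈ Icc 1 A, ∀ t ∈ Icc 1 Δ, c n < a + F (x1 + n + t) ∧ a + F (x1 + n + t) ≤ c n + L)
    (ρ B1 B2 : ℝ) (hρ : 0 ≤ ρ) (hB1 : 0 ≤ B1) (hE : ∀ n ∈ range N, ∀ l ∈ Icc 1 L, |E (c n + l)| ≤ ρ) (D : Finset ℕ)
    (h1 : ∀ τ ∈ range M, τ ∉ D → ∑ n ∈ range N, ‖Fw (fun m => (τ : ℝ) * ((F m : ℝ) / M)) Δ (x1 + n)‖ ^ 2 ≤ B1)
    (hD : D ⊆ range M) (h2 : ∀ τ ∈ D, ∑ n ∈ range N, ‖gh E L M (c n) τ‖ ≤ B2) :
    ∑ a ∈ Icc 1 A, |∑ n ∈ range N, ∑ t ∈ Icc 1 Δ, E (a + F (x1 + n + t))| ≤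
      #D * (A * Δ * B2) / M + Real.sqrt (B1 * (A * (N * L))) * ρ := by
  have hM0 : (0 : ℝ) < M := by exact_mod_cast hM
  set H : ℕ → ℝ := fun a => ∑ n ∈ range N, ∑ t ∈ Icc 1 Δ, E (a + F (x1 + n + t)) with hH
  set G : ℕ → ℝ := fun a => if 0 ≤ H a then 1 else -1 with hG
  have hGH : ∀ a, G a * H a = |H a| := by
    intro a
    simp only [hG]
    split_ifs with h
    · rw [one_mul, abs_of_nonneg h]
    · rw [abs_of_neg (lt_of_not_ge h)]; ring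
  have hG1 : ∀ a, ‖(G a : ℂ)‖ = 1 := by
    intro a
    rw [Complex.norm_real]
    simp only [hG]
    split_ifs <;> simp
  set Gh : ℕ → ℂ := fun τ => ∑ a ∈ Icc 1 A, (G a : ℂ) * ee ((τ : ℝ) * ((((1 : ℤ) * a : ℤ) : ℝ) / M)) with hGh
  set Sx : ℕ → ℕ → ℂ := fun n τ => ∑ t ∈ Icc 1 Δ, ee ((τ : ℝ) * (((F (x1 + n + t) - c n : ℤ) : ℝ) / M)) with hSx
  have hSxn : ∀ n τ, ‖Sx n τ‖ = ‖Fw (fun m => (τ : ℝ) * ((F m : ℝ) / M)) Δ (x1 + n)‖ := by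
    intro n τ
    have e : Sx n τ = ee ((τ : ℝ) * (((-(c n) : ℤ) : ℝ) / M)) * Fw (fun m => (τ : ℝ) * ((F m : ℝ) / M)) Δ (x1 + n) := by
      simp only [hSx]
      unfold Fw
      rw [mul_sum]
      apply sum_congr rfl
      intro t _
      rw [← ee_add]
      congr 1
      push_cast
      ring
    rw [e, norm_mul, norm_ee, one_mul]
  have hid : (M : ℂ) * ((∑ a ∈ Icc 1 A, |H a| : ℝ) : ℂ) = ∑ τ ∈ range M, Gh τ * ∑ n ∈ range N, gh E L M (c n) τ * Sx n τ := by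
    have e1 : ((∑ a ∈ Icc 1 A, |H a| : ℝ) : ℂ) = ∑ n ∈ range N, ∑ a ∈ Icc 1 A, ∑ t ∈ Icc 1 Δ, (G a : ℂ) * (E (a + F (x1 + n + t)) : ℂ) := by
      rw [sum_comm]
      push_cast
      apply sum_congr rfl
      intro a _
      rw [← hGH a]
      simp only [hH]
      push_cast
      rw [mul_sum]
      apply sum_congr rfl
      intro n _
      rw [mul_sum]
    rw [e1, mul_sum]
    rw [sum_congr rfl (fun n hn => four E A L M Δ hM hLM (fun t => F (x1 + n + t)) (c n) G (hw n hn))]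
    rw [sum_comm]
    apply sum_congr rfl
    intro τ _
    rw [mul_sum]
    apply sum_congr rfl
    intro n _
    simp only [hGh, hSx]
    ring
  have hval : (M : ℝ) * ∑ a ∈ Icc 1 A, |H a| ≤ ∑ τ ∈ range M, ‖Gh τ‖ * ‖∑ n ∈ range N, gh E L M (c n) τ * Sx n τ‖ := by
    have e1 : (M : ℝ) * ∑ a ∈ Icc 1 A, |H a| = ‖(M : ℂ) * ((∑ a ∈ Icc 1 A, |H a| : ℝ) : ℂ)‖ := by
      rw [norm_mul, Complex.norm_natCast, Complex.norm_real, Real.norm_of_nonneg (sum_nonneg fun _ _ => abs_nonneg _)]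
    rw [e1, hid]
    refine (norm_sum_le _ _).trans (sum_le_sum fun τ _ => ?_)
    rw [norm_mul]
  have hGhA : ∀ τ, ‖Gh τ‖ ≤ A := by
    intro τ
    simp only [hGh]
    refine (norm_sum_le _ _).trans ?_
    calc ∑ a ∈ Icc 1 A, ‖(G a : ℂ) * ee ((τ : ℝ) * ((((1 : ℤ) * a : ℤ) : ℝ) / M))‖ ≤ ∑ _a ∈ Icc 1 A, (1 : ℝ) := by
          apply sum_le_sum
          intro a _
          rw [norm_mul, norm_ee, mul_one, hG1]
      _ = _ := by rw [sum_const, nsmul_eq_mul, Nat.card_Icc, Nat.add_sub_cancel, mul_one]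
  have hSxΔ : ∀ n τ, ‖Sx n τ‖ ≤ Δ := by
    intro n τ
    simp only [hSx]
    refine (norm_sum_le _ _).trans ?_
    simp [norm_ee]
  -- the points of `D`
  have hbad : ∀ τ ∈ D, ‖Gh τ‖ * ‖∑ n ∈ range N, gh E L M (c n) τ * Sx n τ‖ ≤ A * Δ * B2 := by
    intro τ hτ
    have g1 : ‖∑ n ∈ range N, gh E L M (c n) τ * Sx n τ‖ ≤ Δ * B2 := by
      refine (norm_sum_le _ _).trans ?_
      calc ∑ n ∈ range N, ‖gh E L M (c n) τ * Sx n τ‖ ≤ ∑ n ∈ range N, ‖gh E L M (c n) τ‖ * Δ := by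
            apply sum_le_sum
            intro n _
            rw [norm_mul]
            exact mul_le_mul_of_nonneg_left (hSxΔ n τ) (norm_nonneg _)
        _ = Δ * ∑ n ∈ range N, ‖gh E L M (c n) τ‖ := by rw [← sum_mul]; ring
        _ ≤ _ := mul_le_mul_of_nonneg_left (h2 τ hτ) (by positivity)
    calc ‖Gh τ‖ * ‖∑ n ∈ range N, gh E L M (c n) τ * Sx n τ‖ ≤ A * (Δ * B2) :=
          mul_le_mul (hGhA τ) g1 (norm_nonneg _) (by positivity)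
      _ = _ := by ring
  -- the other points
  have hgood : ∀ τ ∈ range M, τ ∉ D → ‖Gh τ‖ * ‖∑ n ∈ range N, gh E L M (c n) τ * Sx n τ‖ ≤
      ‖Gh τ‖ * (Real.sqrt (∑ n ∈ range N, ‖gh E L M (c n) τ‖ ^ 2) * Real.sqrt B1) := by
    intro τ hτ hτD
    apply mul_le_mul_of_nonneg_left _ (norm_nonneg _)
    refine (norm_sum_le _ _).trans ?_
    have g1 : ∑ n ∈ range N, ‖gh E L M (c n) τ * Sx n τ‖ = ∑ n ∈ range N, ‖gh E L M (c n) τ‖ * ‖Sx n τ‖ :=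
      sum_congr rfl fun n _ => norm_mul _ _
    rw [g1]
    refine (Real.sum_mul_le_sqrt_mul_sqrt _ _ _).trans ?_
    apply mul_le_mul_of_nonneg_left _ (Real.sqrt_nonneg _)
    apply Real.sqrt_le_sqrt
    rw [sum_congr rfl (fun n _ => by rw [hSxn n τ])]
    exact h1 τ hτ hτD
  have hsum : ∑ τ ∈ range M, ‖Gh τ‖ * (Real.sqrt (∑ n ∈ range N, ‖gh E L M (c n) τ‖ ^ 2) * Real.sqrt B1) ≤
      M * (Real.sqrt (B1 * (A * (N * L))) * ρ) := by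
    have g1 : ∑ τ ∈ range M, ‖Gh τ‖ * (Real.sqrt (∑ n ∈ range N, ‖gh E L M (c n) τ‖ ^ 2) * Real.sqrt B1) =
        Real.sqrt B1 * ∑ τ ∈ range M, ‖Gh τ‖ * Real.sqrt (∑ n ∈ range N, ‖gh E L M (c n) τ‖ ^ 2) := by
      rw [mul_sum]
      exact sum_congr rfl fun τ _ => by ring
    rw [g1]
    have g2 := Real.sum_mul_le_sqrt_mul_sqrt (range M) (fun τ => ‖Gh τ‖) (fun τ => Real.sqrt (∑ n ∈ range N, ‖gh E L M (c n) τ‖ ^ 2))
    have g3 : ∑ τ ∈ range M, ‖Gh τ‖ ^ 2 ≤ M * A := by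
      simp only [hGh]
      rw [parseval_Icc A M hM hAM (fun a => (G a : ℂ)) 1 (Or.inl rfl)]
      apply mul_le_mul_of_nonneg_left _ hM0.le
      rw [sum_congr rfl (fun a _ => by rw [hG1 a])]
      simp
    have g4 : ∑ τ ∈ range M, Real.sqrt (∑ n ∈ range N, ‖gh E L M (c n) τ‖ ^ 2) ^ 2 ≤ M * (N * (L * ρ ^ 2)) := by
      rw [sum_congr rfl (fun τ _ => Real.sq_sqrt (sum_nonneg fun _ _ => sq_nonneg _)), sum_comm]
      calc ∑ n ∈ range N, ∑ τ ∈ range M, ‖gh E L M (c n) τ‖ ^ 2 ≤ ∑ _n ∈ range N, M * (L * ρ ^ 2) :=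
            sum_le_sum fun n hn => gh_sq E L M hM hLM (c n) ρ (hE n hn)
        _ = _ := by rw [sum_const, card_range, nsmul_eq_mul]; ring
    have g5 : Real.sqrt (∑ τ ∈ range M, ‖Gh τ‖ ^ 2) * Real.sqrt (∑ τ ∈ range M, Real.sqrt (∑ n ∈ range N, ‖gh E L M (c n) τ‖ ^ 2) ^ 2) ≤
        Real.sqrt (M * A) * Real.sqrt (M * (N * (L * ρ ^ 2))) :=
      mul_le_mul (Real.sqrt_le_sqrt g3) (Real.sqrt_le_sqrt g4) (Real.sqrt_nonneg _) (Real.sqrt_nonneg _)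
    have g6 : Real.sqrt B1 * (Real.sqrt (M * A) * Real.sqrt (M * (N * (L * ρ ^ 2)))) = M * (Real.sqrt (B1 * (A * (N * L))) * ρ) := by
      rw [← Real.sqrt_mul (by positivity), ← Real.sqrt_mul hB1]
      rw [show B1 * ((M : ℝ) * A * (M * (N * (L * ρ ^ 2)))) = (M * ρ) ^ 2 * (B1 * (A * (N * L))) by ring,
        Real.sqrt_mul (by positivity), Real.sqrt_sq (by positivity)]
      ring
    calc _ ≤ Real.sqrt B1 * (Real.sqrt (M * A) * Real.sqrt (M * (N * (L * ρ ^ 2)))) :=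
          mul_le_mul_of_nonneg_left (g2.trans g5) (Real.sqrt_nonneg _)
      _ = _ := g6
  have hfin : ∑ τ ∈ range M, ‖Gh τ‖ * ‖∑ n ∈ range N, gh E L M (c n) τ * Sx n τ‖ ≤
      #D * (A * Δ * B2) + M * (Real.sqrt (B1 * (A * (N * L))) * ρ) := by
    rw [← sum_sdiff hD]
    have g1 : ∑ τ ∈ range M \ D, ‖Gh τ‖ * ‖∑ n ∈ range N, gh E L M (c n) τ * Sx n τ‖ ≤
        ∑ τ ∈ range M, ‖Gh τ‖ * (Real.sqrt (∑ n ∈ range N, ‖gh E L M (c n) τ‖ ^ 2) * Real.sqrt B1) := by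
      refine (sum_le_sum fun τ hτ => hgood τ (mem_sdiff.1 hτ).1 (mem_sdiff.1 hτ).2).trans ?_
      apply sum_le_sum_of_subset_of_nonneg sdiff_subset
      intro τ _ _
      positivity
    have g2 : ∑ τ ∈ D, ‖Gh τ‖ * ‖∑ n ∈ range N, gh E L M (c n) τ * Sx n τ‖ ≤ #D * (A * Δ * B2) := by
      refine (sum_le_sum fun τ hτ => hbad τ hτ).trans ?_
      rw [sum_const, nsmul_eq_mul]
    linarith
  have h3 := hval.trans hfin
  have h4 : ∑ a ∈ Icc 1 A, |H a| ≤ (#D * (A * Δ * B2) + M * (Real.sqrt (B1 * (A * (N * L))) * ρ)) / M := by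
    rw [le_div_iff₀ hM0]
    linarith
  refine h4.trans (le_of_eq ?_)
  rw [add_div, mul_div_cancel_left₀ _ hM0.ne']

end Pool.Agent.H544.SR
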