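import Mathlib
import Pool.Agent.H544.SR.S3
import Pool.Agent.H561.SW.Stm

/-!
Bad frequencies: their number, and the exponential sums over the windows at them.
-/

set_option autoImplicit false

namespace Pool.Agent.H544.SR
open Finset Polynomial
open Pool.Agent.H807R2.Dav
open Pool.Agent.helper24_UT (NN Ed)

lemma ee_sub_one_le (t : ℝ) : ‖ee t - 1‖ ≤ 7 * |t| := by
  have h1 : ‖ee t - 1‖ ≤ 2 * Real.pi * |t| := by
    rw [ee_eq']
    have := Real.norm_exp_I_mul_ofReal_sub_one_le (x := 2 * Real.pi * t)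
    refine this.trans (le_of_eq ?_)
    rw [Real.norm_eq_abs, abs_mul, abs_of_pos Real.two_pi_pos]
  have h2 := Real.pi_lt_d2
  have h3 := abs_nonneg t
  nlinarith

lemma card_near (S : Finset ℕ) (w : ℝ) (hw : 0 ≤ w) (h : ∀ a ∈ S, ∀ b ∈ S, (b : ℝ) - a ≤ w) : (#S : ℝ) ≤ w + 1 := by
  rcases S.eq_empty_or_nonempty with he | he
  · rw [he, card_empty]
    push_cast
    linarith
  · set m := S.min' he with hm
    have h1 : S ⊆ Icc m (m + ⌊w⌋₊) := by
      intro b hb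
      rw [mem_Icc]
      refine ⟨S.min'_le b hb, ?_⟩
      have h2 := h m (S.min'_mem he) b hb
      have h3 : m ≤ b := S.min'_le b hb
      have h4 : b - m ≤ ⌊w⌋₊ := by
        apply Nat.le_floor
        rw [Nat.cast_sub h3]
        exact h2
      omega
    have h2 := card_le_card h1
    rw [Nat.card_Icc] at h2
    have h3 : (#S : ℝ) ≤ ((m + ⌊w⌋₊ + 1 - m : ℕ) : ℝ) := by exact_mod_cast h2
    rw [show m + ⌊w⌋₊ + 1 - m = ⌊w⌋₊ + 1 by omega] at h3
    push_cast at h3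
    have h4 := Nat.floor_le hw
    linarith

open Classical in
/-- the number of bad frequencies -/
lemma count (M g R : ℕ) (hM : 1 ≤ M) (hg : 1 ≤ g) (ε : ℝ) (hε0 : 0 ≤ ε) (hε : ε < 1) :
    (#((range M).filter (fun τ : ℕ => ∃ q : ℕ, 1 ≤ q ∧ q ≤ R ∧ ∃ b : ℤ, |(q : ℝ) * ((τ : ℝ) / M * g) - b| ≤ ε)) : ℝ) ≤
      R * (g * R + 1) * (2 * (ε * M) + 1) := by
  have hM0 : (0 : ℝ) < M := by exact_mod_cast hM
  have hg0 : (1 : ℝ) ≤ g := by exact_mod_cast hg
  set S : ℕ × ℕ → Finset ℕ := fun i => (range M).filter (fun τ : ℕ => |(i.1 : ℝ) * ((τ : ℝ) / M * g) - i.2| ≤ ε) with hS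
  have hsub : (range M).filter (fun τ : ℕ => ∃ q : ℕ, 1 ≤ q ∧ q ≤ R ∧ ∃ b : ℤ, |(q : ℝ) * ((τ : ℝ) / M * g) - b| ≤ ε) ⊆
      (Icc 1 R ×ˢ range (g * R + 1)).biUnion S := by
    intro τ hτ
    rw [mem_filter] at hτ
    obtain ⟨t1, q, q1, q2, b, hb⟩ := hτ
    rw [mem_range] at t1
    have q1r : (1 : ℝ) ≤ q := by exact_mod_cast q1
    have hp : 0 ≤ (q : ℝ) * ((τ : ℝ) / M * g) := by positivity
    have hτM : (τ : ℝ) / M ≤ 1 := by
      rw [div_le_one hM0]
      exact_mod_cast t1.le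
    have hu : (q : ℝ) * ((τ : ℝ) / M * g) ≤ R * g := by
      apply mul_le_mul (by exact_mod_cast q2) _ (by positivity) (by positivity)
      calc (τ : ℝ) / M * g ≤ 1 * g := mul_le_mul_of_nonneg_right hτM (by linarith)
        _ = g := one_mul _
    rw [abs_le] at hb
    have hb0 : 0 ≤ b := by
      by_contra hc
      push Not at hc
      have : (b : ℝ) ≤ -1 := by exact_mod_cast (by omega : b ≤ -1)
      linarith
    have hbR : b < g * R + 1 := by
      by_contra hc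
      push Not at hc
      have : (g : ℝ) * R + 1 ≤ b := by exact_mod_cast hc
      linarith
    rw [mem_biUnion]
    refine ⟨(q, b.toNat), mem_product.2 ⟨mem_Icc.2 ⟨q1, q2⟩, mem_range.2 (by omega)⟩, ?_⟩
    rw [hS]
    simp only [mem_filter, mem_range]
    refine ⟨t1, ?_⟩
    have e : ((b.toNat : ℕ) : ℝ) = (b : ℝ) := by
      have h1 : ((b.toNat : ℤ) : ℝ) = (b : ℝ) := by rw [Int.toNat_of_nonneg hb0]
      rw [← h1]; push_cast; rfl
    rw [e, abs_le]
    exact hb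
  have h1 : ∀ i ∈ Icc 1 R ×ˢ range (g * R + 1), (#(S i) : ℝ) ≤ 2 * (ε * M) + 1 := by
    intro i hi
    rw [mem_product, mem_Icc] at hi
    have q1r : (1 : ℝ) ≤ i.1 := by exact_mod_cast hi.1.1
    apply card_near _ _ (by positivity)
    intro a ha b hb
    rw [hS] at ha hb
    simp only [mem_filter] at ha hb
    have h2 := (abs_le.1 ha.2).1
    have h3 := (abs_le.1 hb.2).2
    have h4 : (i.1 : ℝ) * g * ((b : ℝ) - a) / M ≤ 2 * ε := by
      have e : (i.1 : ℝ) * g * ((b : ℝ) - a) / M = (i.1 : ℝ) * ((b : ℝ) / M * g) - (i.1 : ℝ) * ((a : ℝ) / M * g) := by ring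
      rw [e]
      linarith
    rw [div_le_iff₀ hM0] at h4
    by_cases hab : (b : ℝ) - a ≤ 0
    · have : 0 ≤ 2 * (ε * M) := by positivity
      linarith
    · push Not at hab
      have h5 : 1 * ((b : ℝ) - a) ≤ (i.1 : ℝ) * g * ((b : ℝ) - a) :=
        mul_le_mul_of_nonneg_right (one_le_mul_of_one_le_of_one_le q1r hg0) hab.le
      linarith
  calc _ ≤ (#((Icc 1 R ×ˢ range (g * R + 1)).biUnion S) : ℝ) := by exact_mod_cast card_le_card hsub
    _ ≤ ∑ i ∈ Icc 1 R ×ˢ range (g * R + 1), (#(S i) : ℝ) := by exact_mod_cast card_biUnion_le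
    _ ≤ ∑ _i ∈ Icc 1 R ×ˢ range (g * R + 1), (2 * (ε * M) + 1) := sum_le_sum h1
    _ = _ := by
        rw [sum_const, nsmul_eq_mul, card_product, Nat.card_Icc, card_range, Nat.add_sub_cancel]
        push_cast
        ring

lemma shift_block (f : ℕ → ℂ) (s W : ℕ) : ∑ l ∈ Ioc s (s + W), f l = ∑ l ∈ Icc 1 W, f (s + l) := by
  apply sum_nbij' (fun l => l - s) (fun l => s + l)
  · intro l hl
    simp only [mem_Ioc, mem_Icc] at hl ⊢
    omega
  · intro l hl
    simp only [mem_Ioc, mem_Icc] at hl ⊢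
    omega
  · intro l hl
    simp only [mem_Ioc] at hl
    omega
  · intro l hl
    omega
  · intro l hl
    simp only [mem_Ioc] at hl
    congr 1
    omega

lemma split_blocks (f : ℕ → ℂ) (W : ℕ) : ∀ J : ℕ, ∑ l ∈ Icc 1 (J * W), f l = ∑ i ∈ range J, ∑ l ∈ Icc 1 W, f (i * W + l) := by
  intro J
  induction J with
  | zero => simp
  | succ J ih =>
    rw [sum_range_succ, ← ih, ← shift_block]
    have e : ∀ n : ℕ, Icc 1 n = Ioc 0 n := by
      intro n
      ext x
      simp only [mem_Icc, mem_Ioc]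
      omega
    rw [e, e, show (J + 1) * W = J * W + W by ring]
    exact (sum_Ioc_consecutive f (Nat.zero_le _) (Nat.le_add_right _ _)).symm

/-- the sum over one window at a fraction with denominator `q` -/
lemma win_rat (E : ℤ → ℝ) (u : ℤ) (W q : ℕ) (hq : 1 ≤ q) (b : ℤ) :
    ‖∑ l ∈ Icc 1 W, (E (u + l) : ℂ) * ee (-((l : ℝ) * ((b : ℝ) / q)))‖ ≤ Real.sqrt (q * NN E u W q) := by
  have hq0 : (0 : ℝ) < q := by exact_mod_cast hq
  have e1 : ∑ l ∈ Icc 1 W, (E (u + l) : ℂ) * ee (-((l : ℝ) * ((b : ℝ) / q))) =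
      ∑ m ∈ Ioc u (u + W), (E m : ℂ) * ee (-(((m - u : ℤ) : ℝ) * ((b : ℝ) / q))) := by
    apply sum_nbij' (fun l : ℕ => u + l) (fun m : ℤ => (m - u).toNat)
    · intro l hl
      simp only [mem_Ioc, mem_Icc] at hl ⊢
      omega
    · intro l hl
      simp only [mem_Ioc, mem_Icc] at hl ⊢
      omega
    · intro l hl
      omega
    · intro l hl
      simp only [mem_Ioc] at hl ⊢
      omega
    · intro l hl
      congr 3
      push_cast
      ring
  have e2 : ∑ m ∈ Ioc u (u + W), (E m : ℂ) * ee (-(((m - u : ℤ) : ℝ) * ((b : ℝ) / q))) =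
      ∑ r ∈ range q, ee (-((((r : ℤ) - u : ℤ) : ℝ) * ((b : ℝ) / q))) *
        ((∑ m ∈ (Ioc u (u + W)).filter (fun m => m % (q : ℤ) = (r : ℤ)), E m : ℝ) : ℂ) := by
    rw [← sum_fiberwise_of_maps_to (s := Ioc u (u + W)) (t := range q) (g := fun m : ℤ => (m % (q : ℤ)).toNat)]
    · apply sum_congr rfl
      intro r hr
      push_cast
      rw [mul_sum]
      have hset : (Ioc u (u + W)).filter (fun m : ℤ => (m % (q : ℤ)).toNat = r) =
          (Ioc u (u + W)).filter (fun m : ℤ => m % (q : ℤ) = (r : ℤ)) := by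
        apply filter_congr
        intro m _
        have h1 : 0 ≤ m % (q : ℤ) := Int.emod_nonneg _ (by omega)
        omega
      rw [hset]
      apply sum_congr rfl
      intro m hm
      rw [mem_filter] at hm
      have h1 : m = (r : ℤ) + q * (m / q) := by
        have := Int.emod_add_mul_ediv m q
        rw [hm.2] at this
        omega
      have h2 : ee (-(((m - u : ℤ) : ℝ) * ((b : ℝ) / q))) = ee (-((((r : ℤ) - u : ℤ) : ℝ) * ((b : ℝ) / q))) := by
        rw [← ee_add_int (-((((r : ℤ) - u : ℤ) : ℝ) * ((b : ℝ) / q))) (-((m / q) * b))]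
        congr 1
        have h3 : (m : ℝ) = r + q * ((m / q : ℤ) : ℝ) := by
          have := congrArg (fun x : ℤ => (x : ℝ)) h1
          push_cast at this
          exact this
        push_cast
        rw [h3]
        field_simp
        ring
      push_cast at h2
      rw [h2]
      ring
    · intro m _
      rw [mem_range]
      have h1 : 0 ≤ m % (q : ℤ) := Int.emod_nonneg _ (by omega)
      have h2 : m % (q : ℤ) < q := Int.emod_lt_of_pos _ (by omega)
      omega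
  rw [e1, e2]
  refine (norm_sum_le _ _).trans ?_
  have e3 : ∀ r ∈ range q, ‖ee (-((((r : ℤ) - u : ℤ) : ℝ) * ((b : ℝ) / q))) *
        ((∑ m ∈ (Ioc u (u + W)).filter (fun m => m % (q : ℤ) = (r : ℤ)), E m : ℝ) : ℂ)‖ =
      |∑ m ∈ (Ioc u (u + W)).filter (fun m => m % (q : ℤ) = (r : ℤ)), E m| := by
    intro r _
    rw [norm_mul, norm_ee, one_mul, Complex.norm_real, Real.norm_eq_abs]
  rw [sum_congr rfl e3]
  apply Real.le_sqrt_of_sq_le
  refine (sq_sum_le_card_mul_sum_sq).trans (le_of_eq ?_)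
  rw [card_range]
  unfold NN
  congr 1
  apply sum_congr rfl
  intro r _
  rw [sq_abs]

/-- the sum over a window at a bad frequency -/
lemma maj (E : ℤ → ℝ) (c : ℤ) (J W M q : ℕ) (hq : 1 ≤ q) (ρ ε : ℝ) (hε : 0 ≤ ε) (b : ℤ) (τ : ℕ)
    (hb : |(q : ℝ) * ((τ : ℝ) / M) - b| ≤ ε) (hE : ∀ l ∈ Icc 1 (J * W), |E (c + l)| ≤ ρ) :
    ‖gh E (J * W) M c τ‖ ≤ ∑ i ∈ range J, Real.sqrt (q * NN E (c + (i * W : ℕ)) W q) + J * (7 * ε * W ^ 2 * ρ) := by
  have hq0 : (1 : ℝ) ≤ q := by exact_mod_cast hq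
  have hθ : |(τ : ℝ) / M - b / q| ≤ ε := by
    have e : (τ : ℝ) / M - b / q = ((q : ℝ) * ((τ : ℝ) / M) - b) / q := by
      field_simp
    rw [e, abs_div, abs_of_pos (by linarith : (0 : ℝ) < q)]
    rw [div_le_iff₀ (by linarith)]
    calc _ ≤ ε := hb
      _ ≤ ε * q := le_mul_of_one_le_right hε hq0
  unfold gh
  rw [split_blocks]
  have e0 : (J : ℝ) * (7 * ε * W ^ 2 * ρ) = ∑ _i ∈ range J, 7 * ε * W ^ 2 * ρ := by
    rw [sum_const, card_range, nsmul_eq_mul]
  rw [e0, ← sum_add_distrib]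
  refine (norm_sum_le _ _).trans (sum_le_sum fun i hi => ?_)
  rw [mem_range] at hi
  have e1 : ∑ l ∈ Icc 1 W, (E (c + ((i * W + l : ℕ) : ℤ)) : ℂ) * ee ((τ : ℝ) * ((((-1 : ℤ) * ((i * W + l : ℕ) : ℤ) : ℤ) : ℝ) / M)) =
      ee (-(((i * W : ℕ) : ℝ) * ((τ : ℝ) / M))) *
        (∑ l ∈ Icc 1 W, (E (c + ((i * W : ℕ) : ℤ) + l) : ℂ) * ee (-((l : ℝ) * ((b : ℝ) / q))) +
          ∑ l ∈ Icc 1 W, (E (c + ((i * W : ℕ) : ℤ) + l) : ℂ) * ee (-((l : ℝ) * ((b : ℝ) / q))) *
            (ee (-((l : ℝ) * ((τ : ℝ) / M - b / q))) - 1)) := by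
    rw [← sum_add_distrib, mul_sum]
    apply sum_congr rfl
    intro l _
    have h1 : ee ((τ : ℝ) * ((((-1 : ℤ) * ((i * W + l : ℕ) : ℤ) : ℤ) : ℝ) / M)) =
        ee (-(((i * W : ℕ) : ℝ) * ((τ : ℝ) / M))) * (ee (-((l : ℝ) * ((b : ℝ) / q))) * ee (-((l : ℝ) * ((τ : ℝ) / M - b / q)))) := by
      rw [← ee_add, ← ee_add]
      congr 1
      push_cast
      ring
    rw [h1]
    have h2 : c + ((i * W + l : ℕ) : ℤ) = c + ((i * W : ℕ) : ℤ) + l := by push_cast; ring
    rw [h2]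
    ring
  rw [e1, norm_mul, norm_ee, one_mul]
  refine (norm_add_le _ _).trans (add_le_add (win_rat E _ W q hq b) ?_)
  refine (norm_sum_le _ _).trans ?_
  calc ∑ l ∈ Icc 1 W, ‖(E (c + ((i * W : ℕ) : ℤ) + l) : ℂ) * ee (-((l : ℝ) * ((b : ℝ) / q))) *
            (ee (-((l : ℝ) * ((τ : ℝ) / M - b / q))) - 1)‖ ≤ ∑ _l ∈ Icc 1 W, 7 * ε * W * ρ := by
        apply sum_le_sum
        intro l hl
        rw [mem_Icc] at hl
        have h3 : |E (c + ((i * W : ℕ) : ℤ) + l)| ≤ ρ := by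
          have h4 := hE (i * W + l) (mem_Icc.2 ⟨by omega, by
            calc i * W + l ≤ i * W + W := by omega
              _ = (i + 1) * W := by ring
              _ ≤ J * W := Nat.mul_le_mul_right _ hi⟩)
          have h2 : c + ((i * W + l : ℕ) : ℤ) = c + ((i * W : ℕ) : ℤ) + l := by push_cast; ring
          rwa [h2] at h4
        have hρ : 0 ≤ ρ := (abs_nonneg _).trans h3
        rw [norm_mul, norm_mul, norm_ee, mul_one, Complex.norm_real, Real.norm_eq_abs]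
        have h5 : ‖ee (-((l : ℝ) * ((τ : ℝ) / M - b / q))) - 1‖ ≤ 7 * ε * W := by
          refine (ee_sub_one_le _).trans ?_
          rw [abs_neg, abs_mul, abs_of_nonneg (Nat.cast_nonneg l)]
          have h6 : (l : ℝ) ≤ W := by exact_mod_cast hl.2
          calc 7 * ((l : ℝ) * |(τ : ℝ) / M - b / q|) ≤ 7 * (W * ε) := by gcongr
            _ = _ := by ring
        calc |E (c + ((i * W : ℕ) : ℤ) + l)| * ‖ee (-((l : ℝ) * ((τ : ℝ) / M - b / q))) - 1‖ ≤ ρ * (7 * ε * W) :=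
              mul_le_mul h3 h5 (norm_nonneg _) hρ
          _ = _ := by ring
    _ = _ := by
        rw [sum_const, nsmul_eq_mul, Nat.card_Icc, Nat.add_sub_cancel]
        ring

end Pool.Agent.H544.SR
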