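import Mathlib
import Pool.Agent.H544.SR.S3
import Pool.Agent.H561.SW.Stm

/-!
From the mean over all windows to a sparse set of windows.
-/

set_option autoImplicit false

namespace Pool.Agent.H544.SR
open Finset Polynomial
open Pool.Agent.helper24_UT (NN Ed)

lemma NN_nonneg (E : ℤ → ℝ) (u : ℤ) (W q : ℕ) : 0 ≤ NN E u W q := sum_nonneg fun _ _ => sq_nonneg _

lemma ioc_split (g : ℤ → ℝ) (u v w : ℤ) (h1 : u ≤ v) (h2 : v ≤ w) :
    ∑ m ∈ Ioc u w, g m = ∑ m ∈ Ioc u v, g m + ∑ m ∈ Ioc v w, g m := by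
  rw [← Ioc_union_Ioc_eq_Ioc h1 h2, sum_union]
  rw [disjoint_left]
  intro m hm hm'
  rw [mem_Ioc] at hm hm'
  omega

lemma abs_fib (E : ℤ → ℝ) (q : ℕ) (hq : 1 ≤ q) (u : ℤ) (j : ℕ) (ρ : ℝ) (hE : ∀ m ∈ Ioc u (u + j), |E m| ≤ ρ) :
    ∑ r ∈ range q, |∑ m ∈ Ioc u (u + j), if m % (q : ℤ) = (r : ℤ) then E m else 0| ≤ j * ρ := by
  calc ∑ r ∈ range q, |∑ m ∈ Ioc u (u + j), if m % (q : ℤ) = (r : ℤ) then E m else 0| ≤
        ∑ r ∈ range q, ∑ m ∈ Ioc u (u + j), if m % (q : ℤ) = (r : ℤ) then |E m| else 0 := by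
          apply sum_le_sum
          intro r _
          refine (abs_sum_le_sum_abs _ _).trans (le_of_eq ?_)
          apply sum_congr rfl
          intro m _
          split_ifs
          · rfl
          · exact abs_zero
    _ = ∑ m ∈ Ioc u (u + j), |E m| := by
        rw [sum_comm]
        apply sum_congr rfl
        intro m _
        have h1 : 0 ≤ m % (q : ℤ) := Int.emod_nonneg _ (by omega)
        have h2 : m % (q : ℤ) < q := Int.emod_lt_of_pos _ (by omega)
        rw [sum_eq_single (m % (q : ℤ)).toNat]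
        · rw [if_pos (by omega)]
        · intro r _ hr
          rw [if_neg]
          intro h
          apply hr
          omega
        · intro h
          exfalso
          apply h
          rw [mem_range]
          omega
    _ ≤ ∑ _m ∈ Ioc u (u + j), ρ := sum_le_sum hE
    _ = _ := by
        rw [sum_const, Int.card_Ioc, nsmul_eq_mul]
        congr 2
        rw [show u + (j : ℤ) - u = j by ring, Int.toNat_natCast]

lemma NN_shift (E : ℤ → ℝ) (u : ℤ) (j W q : ℕ) (ρ : ℝ) (hq : 1 ≤ q) (hE : ∀ m ∈ Ioc u (u + (W + j : ℕ)), |E m| ≤ ρ) :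
    NN E u W q ≤ 2 * NN E (u + j) W q + 8 * (j * ρ) ^ 2 := by
  set g : ℕ → ℤ → ℝ := fun r m => if m % (q : ℤ) = (r : ℤ) then E m else 0 with hg
  set δ : ℕ → ℝ := fun r => ∑ m ∈ Ioc u (u + j), g r m - ∑ m ∈ Ioc (u + W) (u + W + j), g r m with hδ
  have hS : ∀ v : ℤ, ∀ r : ℕ, ∑ m ∈ (Ioc v (v + W)).filter (fun m => m % (q : ℤ) = (r : ℤ)), E m = ∑ m ∈ Ioc v (v + W), g r m := by
    intro v r
    rw [sum_filter]
  have h1 : ∀ r, ∑ m ∈ Ioc u (u + W), g r m = ∑ m ∈ Ioc (u + j) (u + j + W), g r m + δ r := by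
    intro r
    have e1 := ioc_split (g r) u (u + W) (u + W + j) (by omega) (by omega)
    have e2 := ioc_split (g r) u (u + j) (u + W + j) (by omega) (by omega)
    have e3 : u + (j : ℤ) + W = u + W + j := by ring
    rw [hδ, e3]
    simp only
    linarith
  have h2 : ∑ r ∈ range q, |δ r| ≤ 2 * (j * ρ) := by
    have e1 := abs_fib E q hq u j ρ (fun m hm => hE m (by
      rw [mem_Ioc] at hm ⊢
      push_cast
      omega))
    have e2 := abs_fib E q hq (u + W) j ρ (fun m hm => hE m (by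
      rw [mem_Ioc] at hm ⊢
      push_cast
      omega))
    calc ∑ r ∈ range q, |δ r| ≤ ∑ r ∈ range q, (|∑ m ∈ Ioc u (u + j), g r m| + |∑ m ∈ Ioc (u + W) (u + W + j), g r m|) := by
          apply sum_le_sum
          intro r _
          exact abs_sub _ _
      _ ≤ _ := by
          rw [sum_add_distrib]
          linarith
  have h3 : ∑ r ∈ range q, δ r ^ 2 ≤ (2 * (j * ρ)) ^ 2 := by
    calc ∑ r ∈ range q, δ r ^ 2 = ∑ r ∈ range q, |δ r| * |δ r| := by
          apply sum_congr rfl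
          intro r _
          rw [← sq, sq_abs]
      _ ≤ ∑ r ∈ range q, |δ r| * ∑ s ∈ range q, |δ s| := by
          apply sum_le_sum
          intro r hr
          exact mul_le_mul_of_nonneg_left (single_le_sum (f := fun s => |δ s|) (fun s _ => abs_nonneg _) hr) (abs_nonneg _)
      _ = (∑ r ∈ range q, |δ r|) ^ 2 := by rw [← sum_mul, sq]
      _ ≤ _ := pow_le_pow_left₀ (sum_nonneg fun _ _ => abs_nonneg _) h2 2
  unfold NN
  calc ∑ r ∈ range q, (∑ m ∈ (Ioc u (u + W)).filter (fun m => m % (q : ℤ) = (r : ℤ)), E m) ^ 2 ≤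
        ∑ r ∈ range q, (2 * (∑ m ∈ (Ioc (u + j) (u + j + W)).filter (fun m => m % (q : ℤ) = (r : ℤ)), E m) ^ 2 + 2 * δ r ^ 2) := by
          apply sum_le_sum
          intro r _
          rw [hS, hS, h1]
          nlinarith [sq_nonneg (∑ m ∈ Ioc (u + (j : ℤ)) (u + j + W), g r m - δ r)]
    _ ≤ _ := by
        rw [sum_add_distrib, ← mul_sum, ← mul_sum]
        have h4 : 2 * ∑ r ∈ range q, δ r ^ 2 ≤ 8 * (j * ρ) ^ 2 := by
          calc 2 * ∑ r ∈ range q, δ r ^ 2 ≤ 2 * (2 * (j * ρ)) ^ 2 := by linarith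
            _ = _ := by ring
        linarith

/-- the windows at `cc n`, `n < N`, whose distances are at least `D` -/
theorem sparse (E : ℤ → ℝ) (X N D W q : ℕ) (cc : ℕ → ℤ) (ρ : ℝ) (hq : 1 ≤ q)
    (h0 : ∀ n ∈ range N, 0 ≤ cc n) (hX : ∀ n ∈ range N, cc n + D ≤ X)
    (hm : ∀ n ∈ range N, ∀ n' ∈ range N, n < n' → cc n + D ≤ cc n')
    (hE : ∀ n ∈ range N, ∀ m ∈ Ioc (cc n) (cc n + (W + D : ℕ)), |E m| ≤ ρ) :
    D * ∑ n ∈ range N, NN E (cc n) W q ≤ 2 * ∑ u ∈ range X, NN E (u : ℤ) W q + 8 * N * D * (D * ρ) ^ 2 := by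
  have h1 : ∀ n ∈ range N, (D : ℝ) * NN E (cc n) W q ≤ 2 * ∑ j ∈ range D, NN E (cc n + j) W q + 8 * D * (D * ρ) ^ 2 := by
    intro n hn
    have e : (D : ℝ) * NN E (cc n) W q = ∑ _j ∈ range D, NN E (cc n) W q := by rw [sum_const, card_range, nsmul_eq_mul]
    have e2 : 2 * ∑ j ∈ range D, NN E (cc n + j) W q + 8 * D * (D * ρ) ^ 2 =
        ∑ j ∈ range D, (2 * NN E (cc n + j) W q + 8 * (D * ρ) ^ 2) := by
      rw [sum_add_distrib, ← mul_sum, sum_const, card_range, nsmul_eq_mul]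
      ring
    rw [e, e2]
    apply sum_le_sum
    intro j hj
    rw [mem_range] at hj
    have hρ : 0 ≤ ρ := by
      have h5 := hE n hn (cc n + 1) (by rw [mem_Ioc]; push_cast; omega)
      exact (abs_nonneg _).trans h5
    have h3 := NN_shift E (cc n) j W q ρ hq (fun m hm' => hE n hn m (by
      rw [mem_Ioc] at hm' ⊢
      push_cast at hm' ⊢
      omega))
    have h4 : (j : ℝ) ≤ D := by exact_mod_cast hj.le
    have h5 : ((j : ℝ) * ρ) ^ 2 ≤ (D * ρ) ^ 2 := by
      apply pow_le_pow_left₀ (by positivity)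
      exact mul_le_mul_of_nonneg_right h4 hρ
    linarith
  rw [mul_sum]
  refine (sum_le_sum h1).trans ?_
  rw [sum_add_distrib, ← mul_sum, sum_const, card_range, nsmul_eq_mul]
  have h2 : ∑ n ∈ range N, ∑ j ∈ range D, NN E (cc n + j) W q ≤ ∑ u ∈ range X, NN E (u : ℤ) W q := by
    rw [← sum_product']
    have hinj : Set.InjOn (fun p : ℕ × ℕ => (cc p.1 + p.2).toNat) (↑(range N ×ˢ range D) : Set (ℕ × ℕ)) := by
      intro p hp p' hp' h
      rw [mem_coe, mem_product, mem_range, mem_range] at hp hp'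
      simp only at h
      have a1 := h0 p.1 (mem_range.2 hp.1)
      have a2 := h0 p'.1 (mem_range.2 hp'.1)
      rcases lt_trichotomy p.1 p'.1 with h3 | h3 | h3
      · have := hm p.1 (mem_range.2 hp.1) p'.1 (mem_range.2 hp'.1) h3
        omega
      · ext
        · exact h3
        · rw [h3] at h
          omega
      · have := hm p'.1 (mem_range.2 hp'.1) p.1 (mem_range.2 hp.1) h3
        omega
    have e : ∑ p ∈ range N ×ˢ range D, NN E (cc p.1 + p.2) W q =
        ∑ u ∈ (range N ×ˢ range D).image (fun p : ℕ × ℕ => (cc p.1 + p.2).toNat), NN E (u : ℤ) W q := by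
      rw [sum_image (fun p hp p' hp' h => hinj hp hp' h)]
      apply sum_congr rfl
      intro p hp
      rw [mem_product, mem_range, mem_range] at hp
      have a1 := h0 p.1 (mem_range.2 hp.1)
      rw [Int.toNat_of_nonneg (by omega)]
    rw [e]
    apply sum_le_sum_of_subset_of_nonneg
    · intro u hu
      rw [mem_image] at hu
      obtain ⟨p, hp, rfl⟩ := hu
      rw [mem_product, mem_range, mem_range] at hp
      have a1 := h0 p.1 (mem_range.2 hp.1)
      have a2 := hX p.1 (mem_range.2 hp.1)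
      rw [mem_range]
      omega
    · intro u _ _
      exact NN_nonneg _ _ _ _
  have e : 2 * ∑ u ∈ range X, NN E (u : ℤ) W q + 8 * N * D * (D * ρ) ^ 2 =
      2 * ∑ u ∈ range X, NN E (u : ℤ) W q + N * (8 * D * (D * ρ) ^ 2) := by ring
  rw [e]
  linarith

end Pool.Agent.H544.SR
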