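import Mathlib
import Pool.Agent.H544.SR.S4
import Pool.Agent.H544.SR.S5

/-!
The estimate for one range, with free parameters.
-/

set_option autoImplicit false

namespace Pool.Agent.H544.SR
open Finset Polynomial
open Pool.Agent.H807R2.Dav
open Pool.Agent.H373R2.NB (Ph Ph_poly)
open Pool.Agent.helper24_UT (NN Ed)

lemma sum_sqrt_le (N : ℕ) (a : ℕ → ℝ) (h : ∀ n ∈ range N, 0 ≤ a n) (S : ℝ) (hS : ∑ n ∈ range N, a n ≤ S) :
    ∑ n ∈ range N, Real.sqrt (a n) ≤ Real.sqrt (N * S) := by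
  have h1 := Real.sum_mul_le_sqrt_mul_sqrt (range N) (fun _ => (1 : ℝ)) (fun n => Real.sqrt (a n))
  simp only [one_mul, one_pow, sum_const, card_range, nsmul_eq_mul, mul_one] at h1
  refine h1.trans ?_
  rw [← Real.sqrt_mul (Nat.cast_nonneg _)]
  apply Real.sqrt_le_sqrt
  apply mul_le_mul_of_nonneg_left _ (Nat.cast_nonneg _)
  rw [sum_congr rfl (fun n hn => Real.sq_sqrt (h n hn))]
  exact hS

open Classical in
theorem core (e : ℕ) (he : 1 ≤ e) : ∃ c m : ℕ, 1 ≤ c ∧ ∀ (P : ℤ[X]), P.natDegree ≤ e + 1 → ∀ g : ℕ, 1 ≤ g →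
    (g : ℝ) = ((e + 1).factorial : ℝ) * (P.coeff (e + 1) : ℤ) → ∀ (E : ℤ → ℝ) (N Δ x1 A J W D X R : ℕ) (K ρ T ε : ℝ),
    1 ≤ N → 1 ≤ K → 1 ≤ W → 1 ≤ J → 1 ≤ D → 0 ≤ ρ → c * K ^ m ≤ Δ → c * K ^ m * Δ ≤ (N : ℝ) ^ e → c * K ^ m ≤ R →
    c * K ^ m / ((N : ℝ) ^ e * Δ) ≤ ε → ε < 1 → A ≤ J * W →
    (∀ n ∈ range N, ∀ t ∈ Icc 1 Δ, P.eval ((x1 + n : ℕ) : ℤ) ≤ P.eval ((x1 + n + t : ℕ) : ℤ) ∧
      P.eval ((x1 + n + t : ℕ) : ℤ) + A ≤ P.eval ((x1 + n : ℕ) : ℤ) + (J * W : ℕ)) →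
    (∀ n ∈ range N, 0 ≤ P.eval ((x1 + n : ℕ) : ℤ)) →
    (∀ n ∈ range N, P.eval ((x1 + n : ℕ) : ℤ) + (J * W + D : ℕ) ≤ X) →
    (∀ n ∈ range N, ∀ n' ∈ range N, n < n' → P.eval ((x1 + n : ℕ) : ℤ) + D ≤ P.eval ((x1 + n' : ℕ) : ℤ)) →
    (∀ m : ℤ, 0 ≤ m → m ≤ X → |E m| ≤ ρ) →
    (∀ q : ℕ, 1 ≤ q → q ≤ R * g → ∑ u ∈ range X, NN E (u : ℤ) W q ≤ T) →
    ∑ a ∈ Icc 1 A, |∑ n ∈ range N, ∑ t ∈ Icc 1 Δ, E (a + P.eval ((x1 + n + t : ℕ) : ℤ))| ≤
      (R * (g * R + 1) * (2 * (ε * (J * W : ℕ)) + 1)) * (A * Δ * (J * Real.sqrt (N * ((R * g : ℕ) * ((2 * T + 8 * N * D * (D * ρ) ^ 2) / D))) +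
        N * J * (7 * ε * W ^ 2 * ρ))) / (J * W : ℕ) + Real.sqrt (N * Δ ^ 2 / K * (A * (N * (J * W : ℕ)))) * ρ := by
  obtain ⟨c, m, hc, hinv⟩ := inv e he
  refine ⟨c, m, hc, ?_⟩
  intro P hPd g hg hPg E N Δ x1 A J W D X R K ρ T ε hN hK hW hJ hD hρ h1 h2 h3 h4 hε hAL hwin h0 hX hm hE hT
  have hK0 : 0 < K := by linarith
  have hN0 : (0 : ℝ) < N := by exact_mod_cast hN
  have hD0 : (0 : ℝ) < D := by exact_mod_cast hD
  have hM : 1 ≤ J * W := Nat.mul_pos hJ hW
  have hM0 : (0 : ℝ) < (J * W : ℕ) := by exact_mod_cast hM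
  have hcK : (0 : ℝ) < c * K ^ m := by
    have : (1 : ℝ) ≤ c := by exact_mod_cast hc
    positivity
  have hΔ0 : (0 : ℝ) < Δ := by linarith
  have hε0 : 0 ≤ ε := le_trans (by positivity) h4
  set M := J * W with hMd
  set F : ℕ → ℤ := fun n => P.eval (n : ℤ) with hF
  set c' : ℕ → ℤ := fun n => P.eval ((x1 + n : ℕ) : ℤ) with hc'
  set Db := (range M).filter (fun τ : ℕ => ∃ q : ℕ, 1 ≤ q ∧ q ≤ R ∧ ∃ b : ℤ, |(q : ℝ) * ((τ : ℝ) / M * g) - b| ≤ ε) with hDb
  have hcard := count M g R hM hg ε hε0 hε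
  rw [← hDb] at hcard
  set S2 : ℝ := (2 * T + 8 * N * D * (D * ρ) ^ 2) / D with hS2
  set B2 : ℝ := J * Real.sqrt (N * ((R * g : ℕ) * S2)) + N * J * (7 * ε * W ^ 2 * ρ) with hB2
  have hbil := bil E A M M Δ N x1 hM le_rfl hAL F c' (by
      intro n hn a ha t ht
      obtain ⟨w1, w2⟩ := hwin n hn t ht
      rw [mem_Icc] at ha
      simp only [hF, hc']
      constructor <;> omega) ρ (N * Δ ^ 2 / K) B2 hρ (by positivity)
    (by
      intro n hn l hl
      rw [mem_Icc] at hl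
      have a1 := h0 n hn
      have a2 := hX n hn
      apply hE
      · simp only [hc']; omega
      · simp only [hc']; push_cast at a2 ⊢; omega) Db
    (by
      intro τ hτ hτD
      by_contra hcon
      push Not at hcon
      apply hτD
      rw [hDb, mem_filter]
      refine ⟨hτ, ?_⟩
      have hph := Ph_poly (e + 1) P hPd ((τ : ℝ) / M)
      have hφ : (fun m : ℕ => (τ : ℝ) * (((F m : ℤ) : ℝ) / M)) = (fun n : ℕ => (τ : ℝ) / M * ((P.eval (n : ℤ) : ℤ) : ℝ)) := by
        funext n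
        simp only [hF]
        ring
      rw [hφ] at hcon
      rw [← hPg] at hph
      have h5 : (N : ℝ) * Δ ^ 2 ≤ K * ∑ n ∈ range N, ‖Fw (fun n : ℕ => (τ : ℝ) / M * ((P.eval (n : ℤ) : ℤ) : ℝ)) Δ (x1 + n)‖ ^ 2 := by
        rw [div_lt_iff₀ hK0] at hcon
        linarith
      obtain ⟨q, q1, q2, b, hb⟩ := hinv N Δ x1 K _ _ hN hK hph h1 h2 h5
      exact ⟨q, q1, by exact_mod_cast q2.trans h3, b, hb.trans h4⟩)
    (by rw [hDb]; exact filter_subset _ _)
    (by
      intro τ hτ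
      rw [hDb, mem_filter] at hτ
      obtain ⟨_, q0, q1, q2, b, hb⟩ := hτ
      obtain ⟨q, hq⟩ : ∃ q : ℕ, q = q0 * g := ⟨_, rfl⟩
      have hqpos : 1 ≤ q := by rw [hq]; exact Nat.mul_pos q1 hg
      have hqR : q ≤ R * g := by rw [hq]; exact Nat.mul_le_mul_right _ q2
      have hb' : |(q : ℝ) * ((τ : ℝ) / M) - b| ≤ ε := by
        have e1 : (q : ℝ) * ((τ : ℝ) / M) - b = (q0 : ℝ) * ((τ : ℝ) / M * g) - b := by rw [hq]; push_cast; ring
        rw [e1]; exact hb
      have hmaj : ∀ n ∈ range N, ‖gh E M M (c' n) τ‖ ≤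
          ∑ i ∈ range J, Real.sqrt (q * NN E (c' n + (i * W : ℕ)) W q) + J * (7 * ε * W ^ 2 * ρ) := by
        intro n hn
        apply maj E (c' n) J W M q hqpos ρ ε hε0 b τ hb'
        intro l hl
        rw [mem_Icc] at hl
        have a1 := h0 n hn
        have a2 := hX n hn
        apply hE
        · simp only [hc']; omega
        · simp only [hc']; push_cast at a2 ⊢
          have : (l : ℤ) ≤ J * W := by exact_mod_cast hl.2
          have a3 : ((M : ℕ) : ℤ) = J * W := by rw [hMd]; push_cast; ring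
          omega
      refine (sum_le_sum hmaj).trans ?_
      rw [sum_add_distrib, sum_const, card_range, nsmul_eq_mul, sum_comm, hB2]
      have e2 : (N : ℝ) * (J * (7 * ε * W ^ 2 * ρ)) = N * J * (7 * ε * W ^ 2 * ρ) := by ring
      rw [e2]
      apply add_le_add_left
      have hsp : ∀ i ∈ range J, ∑ n ∈ range N, Real.sqrt (q * NN E (c' n + (i * W : ℕ)) W q) ≤
          Real.sqrt (N * ((R * g : ℕ) * S2)) := by
        intro i hi
        rw [mem_range] at hi
        have hiJ : i * W + W ≤ J * W := by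
          calc i * W + W = (i + 1) * W := by ring
            _ ≤ J * W := Nat.mul_le_mul_right _ hi
        have hs := sparse E X N D W q (fun n => c' n + (i * W : ℕ)) ρ hqpos
          (by
            intro n hn
            have a1 := h0 n hn
            simp only [hc']
            omega)
          (by
            intro n hn
            have a2 := hX n hn
            simp only [hc']
            push_cast at a2 ⊢
            have a3 : ((i * W + W : ℕ) : ℤ) ≤ ((J * W : ℕ) : ℤ) := by exact_mod_cast hiJ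
            have a4 : ((M : ℕ) : ℤ) = J * W := by rw [hMd]; push_cast; ring
            push_cast at a3
            omega)
          (by
            intro n hn n' hn' hnn
            have a1 := hm n hn n' hn' hnn
            simp only [hc']
            omega)
          (by
            intro n hn mm hmm
            rw [mem_Ioc] at hmm
            have a1 : 0 ≤ c' n := h0 n hn
            have a2 : c' n + ((J * W + D : ℕ) : ℤ) ≤ X := hX n hn
            have a3 : ((i * W + W : ℕ) : ℤ) ≤ ((J * W : ℕ) : ℤ) := by exact_mod_cast hiJ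
            obtain ⟨v, hv⟩ : ∃ v, v = c' n := ⟨_, rfl⟩
            simp only [← hv] at a1 a2 hmm
            push_cast at a2 a3 hmm
            have a5 : (0 : ℤ) ≤ i * W := by positivity
            apply hE
            · omega
            · omega)
        apply sum_sqrt_le
        · intro n _
          have := NN_nonneg E (c' n + (i * W : ℕ)) W q
          positivity
        rw [← mul_sum]
        have h6 : ∑ n ∈ range N, NN E (c' n + (i * W : ℕ)) W q ≤ S2 := by
          rw [hS2, le_div_iff₀ hD0, mul_comm]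
          have := hT q hqpos hqR
          linarith
        have h7 : 0 ≤ ∑ n ∈ range N, NN E (c' n + (i * W : ℕ)) W q := sum_nonneg fun _ _ => NN_nonneg _ _ _ _
        have h8 : (q : ℝ) ≤ (R * g : ℕ) := by exact_mod_cast hqR
        exact mul_le_mul h8 h6 h7 (by positivity)
      refine (sum_le_sum hsp).trans (le_of_eq ?_)
      rw [sum_const, card_range, nsmul_eq_mul])
  refine hbil.trans ?_
  apply add_le_add_left
  have hB20 : 0 ≤ B2 := by rw [hB2]; positivity
  apply div_le_div_of_nonneg_right _ hM0.le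
  exact mul_le_mul_of_nonneg_right hcard (by positivity)

end Pool.Agent.H544.SR
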