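import Mathlib
import Pool.Agent.H544.SR.S6
import Pool.Agent.H544.SR.S7

/-!
Choice of the parameters.
-/

set_option autoImplicit false

namespace Pool.Agent.H544.SR
open Finset Polynomial

lemma fl (y : ℝ) (hy : 1 ≤ y) : y / 2 ≤ ⌊y⌋₊ ∧ (⌊y⌋₊ : ℝ) ≤ y ∧ 1 ≤ ⌊y⌋₊ := by
  have h1 := Nat.lt_floor_add_one y
  have h2 := Nat.floor_le (by linarith : 0 ≤ y)
  have h3 : 1 ≤ ⌊y⌋₊ := Nat.le_floor (by exact_mod_cast hy)
  have h4 : (1 : ℝ) ≤ ⌊y⌋₊ := by exact_mod_cast h3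
  exact ⟨by linarith, h2, h3⟩

lemma c_a (R g l JW A ε : ℝ) (r s : ℕ) (hR0 : 0 ≤ R) (hR : R ≤ l ^ (r + 1)) (hg : 1 ≤ g) (hl : 13 ≤ l) (hgl : 2 * g ≤ l)
    (hA : 0 < A) (hJW : JW ≤ 3 * A) (hJ0 : 0 ≤ JW) (hε : ε = 2 * l ^ s / A) :
    R * (g * R + 1) * (2 * (ε * JW) + 1) ≤ l ^ (2 * r + s + 4) := by
  have hl1 : 1 ≤ l := by linarith
  have h1 : g * R + 1 ≤ l ^ (r + 2) := by
    have h2 : 1 ≤ l ^ (r + 1) := one_le_pow₀ hl1
    have h3 : g * R ≤ g * l ^ (r + 1) := mul_le_mul_of_nonneg_left hR (by linarith)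
    calc g * R + 1 ≤ g * l ^ (r + 1) + g * l ^ (r + 1) := by nlinarith
      _ = 2 * g * l ^ (r + 1) := by ring
      _ ≤ l * l ^ (r + 1) := mul_le_mul_of_nonneg_right hgl (by positivity)
      _ = _ := by ring
  have h2 : 2 * (ε * JW) + 1 ≤ l ^ (s + 1) := by
    have h3 : ε * JW ≤ 6 * l ^ s := by
      rw [hε]
      calc 2 * l ^ s / A * JW ≤ 2 * l ^ s / A * (3 * A) := mul_le_mul_of_nonneg_left hJW (by positivity)
        _ = _ := by field_simp; norm_num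
    have h4 : 1 ≤ l ^ s := one_le_pow₀ hl1
    calc 2 * (ε * JW) + 1 ≤ 13 * l ^ s := by linarith
      _ ≤ l * l ^ s := mul_le_mul_of_nonneg_right hl (by positivity)
      _ = _ := by ring
  have h3 : 0 ≤ ε * JW := by rw [hε]; positivity
  calc R * (g * R + 1) * (2 * (ε * JW) + 1) ≤ l ^ (r + 1) * l ^ (r + 2) * l ^ (s + 1) := by
        apply mul_le_mul _ h2 (by linarith) (by positivity)
        exact mul_le_mul hR h1 (by positivity) (by positivity)
    _ = l ^ (2 * r + s + 4) := by rw [← pow_add, ← pow_add]; congr 1; ring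

/-- the bound for the windows -/
lemma c_b (x A N D W l T ρ : ℝ) (e G v w B' C As : ℕ) (hx : 0 < x) (hl : 1 ≤ l) (hW : 0 < W) (hD : 0 < D) (hN : 0 ≤ N)
    (hT : T = 2 * x ^ (e + 1) * l ^ (G + 1) * W ^ 2 / l ^ As) (hD1 : x ^ e / l ^ v / 2 ≤ D) (hD2 : D ≤ x ^ e / l ^ v)
    (hWA : A ≤ 2 * W * l ^ B') (hAs : As = w + G + 1 + v) (hC : B' + 2 + w ≤ C) (hxA : x ^ e * l ^ C ≤ A)
    (hρ : ρ = l ^ 2) (hNx : N ≤ x) :
    (2 * T + 8 * N * D * (D * ρ) ^ 2) / D ≤ 40 * x * W ^ 2 / l ^ w := by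
  have hl0 : 0 < l := by linarith
  have e1 : (2 * T + 8 * N * D * (D * ρ) ^ 2) / D = 2 * T / D + 8 * N * (D * ρ) ^ 2 := by
    field_simp
  rw [e1]
  have h1 : 2 * T / D ≤ 8 * x * W ^ 2 / l ^ w := by
    rw [div_le_iff₀ hD]
    have hT0 : 2 * T = 8 * x * W ^ 2 / l ^ w * (x ^ e / l ^ v / 2) := by
      rw [hT, hAs, show w + G + 1 + v = w + (G + 1) + v by ring, pow_add l (w + (G + 1)), pow_add l w]
      field_simp
      ring
    rw [hT0]
    exact mul_le_mul_of_nonneg_left hD1 (by positivity)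
  have h2 : 8 * N * (D * ρ) ^ 2 ≤ 32 * x * W ^ 2 / l ^ w := by
    have h3 : D ≤ x ^ e := hD2.trans (div_le_self (by positivity) (one_le_pow₀ hl))
    have h4 : x ^ e ≤ 2 * W * l ^ B' / l ^ C := by
      rw [le_div_iff₀ (by positivity)]
      linarith
    have h5 : D * ρ ≤ 2 * W / l ^ w := by
      calc D * ρ ≤ 2 * W * l ^ B' / l ^ C * l ^ 2 := by
            rw [hρ]
            exact mul_le_mul_of_nonneg_right (h3.trans h4) (by positivity)
        _ = 2 * W * (l ^ (B' + 2) / l ^ C) := by rw [pow_add]; ring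
        _ ≤ 2 * W * (1 / l ^ w) := by
            apply mul_le_mul_of_nonneg_left _ (by positivity)
            rw [div_le_div_iff₀ (by positivity) (by positivity), one_mul, ← pow_add]
            exact pow_le_pow_right₀ hl hC
        _ = _ := by ring
    have h6 : (D * ρ) ^ 2 ≤ (2 * W / l ^ w) ^ 2 := by
      apply pow_le_pow_left₀ _ h5
      rw [hρ]; positivity
    have h7 : (2 * W / l ^ w) ^ 2 ≤ 4 * W ^ 2 / l ^ w := by
      have : 1 ≤ l ^ w := one_le_pow₀ hl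
      rw [div_pow, mul_pow]
      norm_num
      apply div_le_div_of_nonneg_left (by positivity) (by positivity)
      nlinarith
    calc 8 * N * (D * ρ) ^ 2 ≤ 8 * x * (4 * W ^ 2 / l ^ w) := by
          apply mul_le_mul _ (h6.trans h7) (by positivity) (by positivity)
          linarith
      _ = _ := by ring
  calc _ ≤ 8 * x * W ^ 2 / l ^ w + 32 * x * W ^ 2 / l ^ w := add_le_add h1 h2
    _ = _ := by ring

/-- the square root of the windows -/
lemma c_s (x N W l Rg S2 : ℝ) (r w w' : ℕ) (hx : 0 < x) (hl : 40 ≤ l) (hW : 0 < W) (hN : 0 ≤ N) (hNx : N ≤ x)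
    (hRg0 : 0 ≤ Rg) (hRg : Rg ≤ l ^ (r + 2)) (hS2 : S2 ≤ 40 * x * W ^ 2 / l ^ w) (hS0 : 0 ≤ S2) (hw : w = r + 3 + 2 * w') :
    Real.sqrt (N * (Rg * S2)) ≤ x * W / l ^ w' := by
  have hl0 : 0 < l := by linarith
  rw [Real.sqrt_le_left (by positivity)]
  calc N * (Rg * S2) ≤ x * (l ^ (r + 2) * (40 * x * W ^ 2 / l ^ w)) := by gcongr
    _ = (40 / l) * (x * W / l ^ w') ^ 2 := by
        rw [hw, show r + 3 + 2 * w' = (r + 2) + 1 + (w' + w') by ring, pow_add l (r + 2 + 1), pow_add l (r + 2), pow_add l w']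
        field_simp
    _ ≤ 1 * (x * W / l ^ w') ^ 2 := by
        apply mul_le_mul_of_nonneg_right _ (by positivity)
        rw [div_le_one hl0]; exact hl
    _ = _ := one_mul _

/-- the first part -/
lemma c_f (x A N Δ J W l ε ρ sq cnt : ℝ) (U s b w' B' : ℕ) (hx : 0 < x) (hA : 0 < A) (hl : 1 ≤ l) (hW : 0 < W) (hJ : 0 < J)
    (hΔ : 0 ≤ Δ) (hcnt : cnt ≤ l ^ b) (hsq0 : 0 ≤ sq) (hsq : sq ≤ x * W / l ^ w') (hN : 0 ≤ N) (hNx : N ≤ x)
    (hε : ε = 2 * l ^ s / A) (hρ : ρ = l ^ 2) (hWA : W ≤ A / l ^ B') (hw' : w' = b + U + 1) (hB' : B' = b + s + U + 3) :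
    cnt * (A * Δ * (J * sq + N * J * (7 * ε * W ^ 2 * ρ))) / (J * W) ≤ 15 * (A * Δ * x / l ^ (U + 1)) := by
  have hl0 : 0 < l := by linarith
  rw [div_le_iff₀ (by positivity)]
  have h1 : J * sq ≤ J * (x * W / l ^ w') := mul_le_mul_of_nonneg_left hsq hJ.le
  have hεW : ε * W ≤ 2 * l ^ s / l ^ B' := by
    rw [hε]
    calc 2 * l ^ s / A * W ≤ 2 * l ^ s / A * (A / l ^ B') := mul_le_mul_of_nonneg_left hWA (by positivity)
      _ = _ := by field_simp
  have hε0 : 0 ≤ ε := by rw [hε]; positivity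
  have h2 : N * J * (7 * ε * W ^ 2 * ρ) ≤ J * W * x * (14 * l ^ (s + 2) / l ^ B') := by
    calc N * J * (7 * ε * W ^ 2 * ρ) = N * (J * W * 7 * (ε * W) * l ^ 2) := by rw [hρ]; ring
      _ ≤ x * (J * W * 7 * (2 * l ^ s / l ^ B') * l ^ 2) := by gcongr
      _ = _ := by rw [pow_add]; ring
  calc cnt * (A * Δ * (J * sq + N * J * (7 * ε * W ^ 2 * ρ))) ≤
        l ^ b * (A * Δ * (J * (x * W / l ^ w') + J * W * x * (14 * l ^ (s + 2) / l ^ B'))) := by
          have h3 : 0 ≤ J * sq + N * J * (7 * ε * W ^ 2 * ρ) := by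
            have : 0 ≤ ρ := by rw [hρ]; positivity
            positivity
          apply mul_le_mul hcnt _ (by positivity) (by positivity)
          apply mul_le_mul_of_nonneg_left _ (by positivity)
          linarith
    _ = A * Δ * x * (J * W) * (l ^ b / l ^ w' + 14 * (l ^ b * l ^ (s + 2)) / l ^ B') := by ring
    _ = 15 * (A * Δ * x / l ^ (U + 1)) * (J * W) := by
        have e1 : l ^ b / l ^ w' = 1 / l ^ (U + 1) := by
          rw [hw', show b + U + 1 = b + (U + 1) by ring, pow_add]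
          field_simp
        have e2 : 14 * (l ^ b * l ^ (s + 2)) / l ^ B' = 14 / l ^ (U + 1) := by
          rw [hB', show b + s + U + 3 = (b + (s + 2)) + (U + 1) by ring, pow_add l (b + (s + 2)), pow_add l b]
          field_simp
        rw [e1, e2]
        ring

/-- the second part -/
lemma c_g (x A N Δ JW l K ρ : ℝ) (U : ℕ) (hx : 0 < x) (hA : 0 < A) (hl : 1 ≤ l) (hΔ : 0 ≤ Δ) (hN : 0 ≤ N) (hNx : N ≤ x)
    (hJW : JW ≤ 3 * A) (hJ0 : 0 ≤ JW) (hK : K = l ^ (2 * U + 8)) (hρ : ρ = l ^ 2) :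
    Real.sqrt (N * Δ ^ 2 / K * (A * (N * JW))) * ρ ≤ 2 * (A * Δ * x / l ^ (U + 1)) := by
  have hl0 : 0 < l := by linarith
  have h1 : Real.sqrt (N * Δ ^ 2 / K * (A * (N * JW))) ≤ 2 * (A * Δ * x / l ^ (U + 4)) := by
    rw [Real.sqrt_le_left (by positivity), hK]
    calc N * Δ ^ 2 / l ^ (2 * U + 8) * (A * (N * JW)) ≤ x * Δ ^ 2 / l ^ (2 * U + 8) * (A * (x * (3 * A))) := by gcongr
      _ = 3 * (A * Δ * x) ^ 2 / (l ^ (U + 4) * l ^ (U + 4)) := by
          rw [← pow_add, show U + 4 + (U + 4) = 2 * U + 8 by ring]; ring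
      _ ≤ 4 * (A * Δ * x) ^ 2 / (l ^ (U + 4) * l ^ (U + 4)) := by gcongr; norm_num
      _ = _ := by ring
  calc _ ≤ 2 * (A * Δ * x / l ^ (U + 4)) * l ^ 2 := by
        rw [hρ]
        exact mul_le_mul_of_nonneg_right h1 (by positivity)
    _ = 2 * (A * Δ * x / l ^ (U + 2)) := by
        rw [show U + 4 = (U + 2) + 2 by ring, pow_add l (U + 2) 2]
        field_simp
    _ ≤ _ := by
        apply mul_le_mul_of_nonneg_left _ (by norm_num)
        apply div_le_div_of_nonneg_left (by positivity) (by positivity)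
        exact pow_le_pow_right₀ hl (by omega)

end Pool.Agent.H544.SR
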