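import Mathlib
import Pool.Agent.H544.SR.S8
import Pool.Agent.H544.LD.Fin

/-!
The estimate for one range of the variable.
-/

set_option autoImplicit false

namespace Pool.Agent.H544.SR
open Finset Polynomial
open Pool.Agent.helper24_UT (NN Ed)
open Pool.Agent.H561.SW (S_SI3)
open Pool.Agent.H373R2.T7 (ev_L' ev_log' Vz_inv_small Vz lamI lamzI lamI_nonneg lamzI_nonneg lamI_le lamzI_le)

theorem param (hSI : S_SI3) (f : ℤ[X]) (e : ℕ) (he : 1 ≤ e) (hd : f.natDegree = e + 1) (hl : 0 < f.leadingCoeff) (U G V : ℕ) :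
    ∃ C0 E0 : ℕ, ∀ E1 : ℕ, ∃ n1 : ℕ, ∀ x : ℕ, n1 ≤ x → ∀ A a0 : ℕ, (x : ℝ) ^ e * Real.log x ^ C0 ≤ A →
      (A : ℝ) + a0 ≤ (x : ℝ) ^ (e + 1) * Real.log x ^ G → ∀ z : ℕ, Real.log x ^ E0 ≤ z → (z : ℝ) ≤ Real.log x ^ E1 →
      ∃ Δ : ℕ, 1 ≤ Δ ∧ (Δ : ℝ) ≤ x / Real.log x ^ (U + 2) ∧ ∀ x1 N : ℕ, x1 ≤ x → (x : ℝ) ≤ x1 * Real.log x ^ V → N ≤ x →
        (x : ℝ) ≤ N * Real.log x ^ V →
        ∑ a ∈ Icc 1 A, |∑ n ∈ range N, ∑ t ∈ Icc 1 Δ, Ed z ((a : ℤ) + (f + C (a0 : ℤ)).eval ((x1 + n + t : ℕ) : ℤ))| ≤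
          A * Δ * x / Real.log x ^ U := by
  obtain ⟨c, m, hc, hcore⟩ := core e he
  obtain ⟨n0, k, hk, hn0, hpol⟩ := poly_bd f e hd hl
  obtain ⟨r, hr⟩ : ∃ r : ℕ, r = (2 * U + 8) * m + 1 := ⟨_, rfl⟩
  obtain ⟨B, hB⟩ : ∃ B : ℕ, B = r + G + e * V + U + 2 := ⟨_, rfl⟩
  obtain ⟨s, hs⟩ : ∃ s : ℕ, s = r + e * V + B := ⟨_, rfl⟩
  obtain ⟨b, hb⟩ : ∃ b : ℕ, b = 2 * r + s + 4 := ⟨_, rfl⟩
  obtain ⟨w', hw'⟩ : ∃ w' : ℕ, w' = b + U + 1 := ⟨_, rfl⟩
  obtain ⟨w, hw⟩ : ∃ w : ℕ, w = r + 3 + 2 * w' := ⟨_, rfl⟩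
  obtain ⟨v, hv⟩ : ∃ v : ℕ, v = e * V + 1 := ⟨_, rfl⟩
  obtain ⟨As, hAs⟩ : ∃ As : ℕ, As = w + G + 1 + v := ⟨_, rfl⟩
  obtain ⟨B', hB'⟩ : ∃ B' : ℕ, B' = b + s + U + 3 := ⟨_, rfl⟩
  obtain ⟨C0, hC0⟩ : ∃ C0 : ℕ, C0 = B' + 2 + w + B + r + s + 2 := ⟨_, rfl⟩
  obtain ⟨lc, hlc⟩ : ∃ lc : ℕ, (lc : ℤ) = f.leadingCoeff := ⟨f.leadingCoeff.toNat, Int.toNat_of_nonneg hl.le⟩
  have hlc1 : 1 ≤ lc := by omega
  obtain ⟨g, hg⟩ : ∃ g : ℕ, g = (e + 1).factorial * lc := ⟨_, rfl⟩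
  have hg1 : 1 ≤ g := by rw [hg]; exact Nat.mul_pos (Nat.factorial_pos _) hlc1
  refine ⟨C0, 2 * (r + 2), fun E1 => ?_⟩
  obtain ⟨X0, hX0⟩ := hSI As (r + 2) (G + 1) E1
  obtain ⟨n2, hn2⟩ := ev_L' ((40 + c + 2 * g + k * 3 ^ (e + 1) + k + 4 + (e + 4) + (g + 1) : ℕ) : ℝ)
  obtain ⟨n3, hn3⟩ := ev_log' (G + 1 + V + v) ((n0 + 2 : ℕ) : ℝ)
  obtain ⟨n4, hn4⟩ := Vz_inv_small E1
  refine ⟨X0 + n2 + n3 + n4 + 3, fun x hx A a0 hA1 hA2 z hz1 hz2 => ?_⟩
  have hcl := hn2 x (by omega)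
  have hbig := hn3 x (by omega)
  have hVz := hn4 x (by omega) z
  set l := Real.log x with hld
  push_cast at hcl hbig
  have hx1 : (1 : ℝ) ≤ x := by exact_mod_cast (by omega : 1 ≤ x)
  have hx0 : (0 : ℝ) < x := by linarith
  have hsx : Real.sqrt x ≤ x := by
    rw [Real.sqrt_le_left (by linarith)]
    nlinarith
  have hc0 : (0 : ℝ) ≤ c := Nat.cast_nonneg _
  have hg0 : (1 : ℝ) ≤ g := by exact_mod_cast hg1
  have hk0 : (1 : ℝ) ≤ k := by exact_mod_cast hk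
  have he0 : (0 : ℝ) ≤ e := Nat.cast_nonneg _
  have hn00 : (1 : ℝ) ≤ n0 := by exact_mod_cast hn0
  have h3e : (0 : ℝ) < 3 ^ (e + 1) := by positivity
  have hk3 : 0 ≤ (k : ℝ) * 3 ^ (e + 1) := by positivity
  have hl40 : 40 ≤ l := by linarith
  have hl1 : 1 ≤ l := by linarith
  have hl0 : 0 < l := by linarith
  have hcl' : (c : ℝ) ≤ l := by linarith
  have hgl : 2 * (g : ℝ) ≤ l := by linarith
  have hkl : (k : ℝ) * 3 ^ (e + 1) + 4 ≤ l := by linarith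
  have hkl' : (k : ℝ) ≤ l := by linarith
  have hel : (e : ℝ) + 4 ≤ l := by linarith
  have pm : ∀ i j : ℕ, i ≤ j → l ^ i ≤ l ^ j := fun i j h => pow_le_pow_right₀ hl1 h
  have p1 : ∀ i : ℕ, 1 ≤ l ^ i := fun i => one_le_pow₀ hl1
  have p0 : ∀ i : ℕ, 0 < l ^ i := fun i => by positivity
  have hlx : ((n0 : ℝ) + 2) * l ^ (G + 1 + V + v) ≤ x := hbig.trans hsx
  have hlx2 : ∀ i : ℕ, i ≤ G + 1 + V + v → 2 * l ^ i ≤ x := by
    intro i hi
    refine le_trans ?_ hlx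
    have := pm i _ hi
    have h1 := p0 (G + 1 + V + v)
    nlinarith
  have hxe : (x : ℝ) ≤ (x : ℝ) ^ e := le_self_pow₀ hx1 (by omega)
  have hxe0 : (0 : ℝ) < (x : ℝ) ^ e := by positivity
  have hxe1 : (1 : ℝ) ≤ (x : ℝ) ^ e := one_le_pow₀ hx1
  have hAr : 0 < (A : ℝ) := lt_of_lt_of_le (by positivity) hA1
  have ha0 : (0 : ℝ) ≤ a0 := Nat.cast_nonneg _
  have hAup : (A : ℝ) ≤ (x : ℝ) ^ (e + 1) * l ^ G := by linarith
  -- Δ
  have hy1 : 1 ≤ (A : ℝ) / ((x : ℝ) ^ e * l ^ B) := by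
    rw [one_le_div (by positivity)]
    refine le_trans ?_ hA1
    exact mul_le_mul_of_nonneg_left (pm _ _ (by omega)) hxe0.le
  obtain ⟨hΔ1, hΔ2, hΔ3⟩ := fl _ hy1
  set Δ := ⌊(A : ℝ) / ((x : ℝ) ^ e * l ^ B)⌋₊ with hΔd
  have hΔ0 : (0 : ℝ) < Δ := by exact_mod_cast hΔ3
  have hΔx : (Δ : ℝ) * l ^ B ≤ x * l ^ G := by
    calc (Δ : ℝ) * l ^ B ≤ (A : ℝ) / ((x : ℝ) ^ e * l ^ B) * l ^ B := by gcongr
      _ = A / (x : ℝ) ^ e := by field_simp
      _ ≤ ((x : ℝ) ^ (e + 1) * l ^ G) / (x : ℝ) ^ e := by gcongr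
      _ = _ := by rw [pow_succ]; field_simp
  refine ⟨Δ, hΔ3, ?_, ?_⟩
  · rw [le_div_iff₀ (p0 _)]
    have h1 : (Δ : ℝ) * l ^ (U + 2) * l ^ G ≤ x * l ^ G := by
      refine le_trans ?_ hΔx
      rw [mul_assoc, ← pow_add]
      exact mul_le_mul_of_nonneg_left (pm _ _ (by omega)) hΔ0.le
    exact le_of_mul_le_mul_right h1 (p0 G)
  intro x1 N hx1x hx1V hNx hNV
  have hN0 : (0 : ℝ) < N := by
    by_contra hcon
    push Not at hcon
    have : (N : ℝ) * l ^ V ≤ 0 := mul_nonpos_of_nonpos_of_nonneg hcon (p0 V).le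
    linarith
  have hN1 : 1 ≤ N := by exact_mod_cast hN0
  have hNxr : (N : ℝ) ≤ x := by exact_mod_cast hNx
  have hx1r : (x1 : ℝ) ≤ x := by exact_mod_cast hx1x
  have hΔxx : Δ ≤ x := by
    have h1 : (Δ : ℝ) * l ^ G ≤ x * l ^ G := by
      refine le_trans ?_ hΔx
      exact mul_le_mul_of_nonneg_left (pm _ _ (by omega)) hΔ0.le
    exact_mod_cast le_of_mul_le_mul_right h1 (p0 G)
  have hn0x1 : n0 ≤ x1 := by
    have h1 : (n0 : ℝ) * l ^ V ≤ x1 * l ^ V := by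
      refine le_trans ?_ hx1V
      refine le_trans ?_ hlx
      have := pm V (G + 1 + V + v) (by omega)
      have h2 := p0 V
      nlinarith
    exact_mod_cast le_of_mul_le_mul_right h1 (p0 V)
  have hNe : (x : ℝ) ^ e ≤ (N : ℝ) ^ e * l ^ (e * V) := by
    calc (x : ℝ) ^ e ≤ (N * l ^ V) ^ e := pow_le_pow_left₀ hx0.le hNV e
      _ = _ := by rw [mul_pow, ← pow_mul, mul_comm V e]
  have hx1e : (x : ℝ) ^ e ≤ (x1 : ℝ) ^ e * l ^ (e * V) := by
    calc (x : ℝ) ^ e ≤ (x1 * l ^ V) ^ e := pow_le_pow_left₀ hx0.le hx1V e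
      _ = _ := by rw [mul_pow, ← pow_mul, mul_comm V e]
  -- K, R
  set K : ℝ := l ^ (2 * U + 8) with hK
  have hcK : (c : ℝ) * K ^ m ≤ l ^ r := by
    rw [hK, ← pow_mul, hr, pow_succ, mul_comm]
    exact mul_le_mul_of_nonneg_left hcl' (by positivity)
  have hcK0 : 0 ≤ (c : ℝ) * K ^ m := by positivity
  set R := ⌈(c : ℝ) * K ^ m⌉₊ with hR
  have hR1 : (c : ℝ) * K ^ m ≤ R := Nat.le_ceil _
  have hR2 : (R : ℝ) ≤ l ^ (r + 1) := by
    have h1 := Nat.ceil_lt_add_one hcK0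
    calc (R : ℝ) ≤ l ^ r + 1 := by linarith
      _ ≤ l ^ r + l ^ r := by linarith [p1 r]
      _ = 2 * l ^ r := by ring
      _ ≤ l * l ^ r := mul_le_mul_of_nonneg_right (by linarith) (p0 r).le
      _ = _ := by ring
  -- W, J
  have hy2 : 1 ≤ (A : ℝ) / l ^ B' := by
    rw [one_le_div (p0 _)]
    refine le_trans ?_ hA1
    calc l ^ B' = 1 * l ^ B' := (one_mul _).symm
      _ ≤ (x : ℝ) ^ e * l ^ C0 := mul_le_mul hxe1 (pm _ _ (by omega)) (p0 _).le hxe0.le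
  obtain ⟨hW1, hW2, hW3⟩ := fl _ hy2
  set W := ⌊(A : ℝ) / l ^ B'⌋₊ with hWd
  have hW0 : (0 : ℝ) < W := by exact_mod_cast hW3
  have hWA : (A : ℝ) ≤ 2 * W * l ^ B' := by
    rw [div_div, div_le_iff₀ (by have := p0 B'; positivity)] at hW1
    linarith
  have hWleA : (W : ℝ) ≤ A := hW2.trans (div_le_self hAr.le (p1 _))
  obtain ⟨J, hJ⟩ : ∃ J : ℕ, J = ⌊2 * (A : ℝ) / W⌋₊ + 1 := ⟨_, rfl⟩
  have hJ1 : 1 ≤ J := by omega
  have hJ0 : (0 : ℝ) < J := by exact_mod_cast hJ1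
  have hJW1 : 2 * (A : ℝ) ≤ J * W := by
    have h1 := Nat.lt_floor_add_one (2 * (A : ℝ) / W)
    have h2 : 2 * (A : ℝ) / W < J := by rw [hJ]; push_cast; exact h1
    rw [div_lt_iff₀ hW0] at h2
    exact h2.le
  have hJW2 : (J : ℝ) * W ≤ 3 * A := by
    have h1 := Nat.floor_le (by positivity : 0 ≤ 2 * (A : ℝ) / W)
    have h2 : (J : ℝ) ≤ 2 * A / W + 1 := by rw [hJ]; push_cast; linarith
    calc (J : ℝ) * W ≤ (2 * A / W + 1) * W := by gcongr
      _ = 2 * A + W := by field_simp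
      _ ≤ _ := by linarith
  -- D
  have hy3 : 1 ≤ (x : ℝ) ^ e / l ^ v := by
    rw [one_le_div (p0 _)]
    have := hlx2 v (by omega)
    have := p0 v
    linarith
  obtain ⟨hD1, hD2, hD3⟩ := fl _ hy3
  set D := ⌊(x : ℝ) ^ e / l ^ v⌋₊ with hDd
  have hD0 : (0 : ℝ) < D := by exact_mod_cast hD3
  -- X
  obtain ⟨X, hX⟩ : ∃ X : ℕ, X = ⌈(x : ℝ) ^ (e + 1) * l ^ (G + 1)⌉₊ := ⟨_, rfl⟩
  have hX1 : (x : ℝ) ^ (e + 1) * l ^ (G + 1) ≤ X := by rw [hX]; exact Nat.le_ceil _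
  have hxe1' : (1 : ℝ) ≤ (x : ℝ) ^ (e + 1) := one_le_pow₀ hx1
  have hX2 : (X : ℝ) ≤ 2 * ((x : ℝ) ^ (e + 1) * l ^ (G + 1)) := by
    have h1 := Nat.ceil_lt_add_one (by positivity : 0 ≤ (x : ℝ) ^ (e + 1) * l ^ (G + 1))
    rw [← hX] at h1
    have h2 : 1 ≤ (x : ℝ) ^ (e + 1) * l ^ (G + 1) := one_le_mul_of_one_le_of_one_le hxe1' (p1 _)
    linarith
  have hxX : (x : ℝ) ≤ X := by
    refine le_trans ?_ hX1
    calc (x : ℝ) ≤ (x : ℝ) ^ (e + 1) := le_self_pow₀ hx1 (by omega)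
      _ ≤ _ := le_mul_of_one_le_right (by positivity) (p1 _)
  have hXx : (X : ℝ) ≤ (x : ℝ) ^ (e + 2) := by
    refine hX2.trans ?_
    have := hlx2 (G + 1) (by omega)
    calc 2 * ((x : ℝ) ^ (e + 1) * l ^ (G + 1)) = (x : ℝ) ^ (e + 1) * (2 * l ^ (G + 1)) := by ring
      _ ≤ (x : ℝ) ^ (e + 1) * x := by gcongr
      _ = _ := by ring
  have hlX1 : l ≤ Real.log X := Real.log_le_log hx0 hxX
  have hlX2 : Real.log X ≤ ((e : ℝ) + 2) * l := by
    have h1 := Real.log_le_log (by linarith : (0 : ℝ) < X) hXx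
    rw [Real.log_pow] at h1
    push_cast at h1
    exact h1
  have hlX3 : Real.log X ≤ l ^ 2 := by
    refine hlX2.trans ?_
    rw [sq]
    exact mul_le_mul_of_nonneg_right (by linarith) hl0.le
  have hlX0 : 0 < Real.log X := by linarith
  -- the error function
  have hz1' : 1 ≤ z := by
    have : (1 : ℝ) ≤ z := (p1 _).trans hz1
    exact_mod_cast this
  have hVzl : (Vz z)⁻¹ ≤ l := hVz hz1' hz2
  have hEd : ∀ mm : ℤ, 0 ≤ mm → mm ≤ X → |Ed z mm| ≤ l ^ 2 := by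
    intro mm _ hm2
    have h1 := lamI_nonneg mm
    have h2 := lamzI_nonneg z mm
    have h3 : lamI mm ≤ Real.log X := lamI_le mm X (by linarith) (by exact_mod_cast hm2)
    have h4 := lamzI_le z mm
    have h5 : l ≤ l ^ 2 := le_self_pow₀ hl1 (by norm_num)
    unfold Ed
    rw [abs_le]
    constructor <;> linarith
  -- values
  have hvals : ∀ mm : ℕ, x1 ≤ mm → ∀ t : ℕ, ((f.eval (mm : ℤ) : ℤ) : ℝ) ≤ ((f.eval ((mm + t : ℕ) : ℤ) : ℤ) : ℝ) ∧
      ((f.eval ((mm + t : ℕ) : ℤ) : ℤ) : ℝ) ≤ ((f.eval (mm : ℤ) : ℤ) : ℝ) + t * (k * ((mm + t : ℕ) : ℝ) ^ e) := by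
    intro mm hmm t
    exact incr (fun i : ℕ => ((f.eval (i : ℤ) : ℤ) : ℝ)) n0 e k (fun i hi => ⟨(hpol i hi).2.2.1, (hpol i hi).2.2.2⟩) (by linarith) mm
      (by omega) t
  have hPe : ∀ i : ℕ, (f + C (a0 : ℤ)).eval (i : ℤ) = f.eval (i : ℤ) + a0 := by
    intro i
    rw [eval_add, eval_C]
  have hPd : (f + C (a0 : ℤ)).natDegree ≤ e + 1 := by rw [natDegree_add_C, hd]
  have hPg : (g : ℝ) = ((e + 1).factorial : ℝ) * ((f + C (a0 : ℤ)).coeff (e + 1) : ℤ) := by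
    rw [coeff_add, coeff_C_succ, add_zero, ← hd, ← leadingCoeff, ← hlc, hg, hd]
    push_cast
    ring
  obtain ⟨T, hT⟩ : ∃ T : ℝ, T = 2 * (x : ℝ) ^ (e + 1) * l ^ (G + 1) * (W : ℝ) ^ 2 / l ^ As := ⟨_, rfl⟩
  obtain ⟨ε, hε⟩ : ∃ ε : ℝ, ε = 2 * l ^ s / A := ⟨_, rfl⟩
  have hmain := hcore (f + C (a0 : ℤ)) hPd g hg1 hPg (Ed z) N Δ x1 A J W D X R K (l ^ 2) T ε hN1 (p1 _) hW3 hJ1 hD3 (by positivity)
    (by
      -- c K ^ m ≤ Δ
      refine hcK.trans (le_trans ?_ hΔ1)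
      rw [div_div, le_div_iff₀ (by have := p0 B; positivity)]
      refine le_trans ?_ hA1
      calc l ^ r * ((x : ℝ) ^ e * l ^ B * 2) = (x : ℝ) ^ e * (2 * (l ^ r * l ^ B)) := by ring
        _ ≤ (x : ℝ) ^ e * (l * (l ^ r * l ^ B)) := by
            apply mul_le_mul_of_nonneg_left _ hxe0.le
            exact mul_le_mul_of_nonneg_right (by linarith) (by positivity)
        _ = (x : ℝ) ^ e * l ^ (1 + r + B) := by rw [pow_add, pow_add]; ring
        _ ≤ _ := mul_le_mul_of_nonneg_left (pm _ _ (by omega)) hxe0.le)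
    (by
      -- c K ^ m Δ ≤ N ^ e
      have h1 : (c : ℝ) * K ^ m * Δ * l ^ (e * V + G) ≤ x * l ^ G := by
        calc (c : ℝ) * K ^ m * Δ * l ^ (e * V + G) ≤ l ^ r * Δ * l ^ (e * V + G) := by gcongr
          _ = Δ * l ^ (r + (e * V + G)) := by rw [pow_add l r]; ring
          _ ≤ Δ * l ^ B := mul_le_mul_of_nonneg_left (pm _ _ (by omega)) hΔ0.le
          _ ≤ _ := hΔx
      have h2 : (c : ℝ) * K ^ m * Δ * l ^ (e * V + G) ≤ (N : ℝ) ^ e * l ^ (e * V + G) := by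
        refine h1.trans ?_
        rw [pow_add, ← mul_assoc]
        exact mul_le_mul_of_nonneg_right (hxe.trans hNe) (p0 _).le
      exact le_of_mul_le_mul_right h2 (p0 _))
    hR1
    (by
      -- ε
      rw [hε, div_le_div_iff₀ (by positivity) hAr]
      have h1 : (A : ℝ) ≤ 2 * Δ * ((x : ℝ) ^ e * l ^ B) := by
        rw [div_div, div_le_iff₀ (by have := p0 B; positivity)] at hΔ1
        linarith
      calc (c : ℝ) * K ^ m * A ≤ l ^ r * (2 * Δ * ((x : ℝ) ^ e * l ^ B)) := by gcongr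
        _ ≤ l ^ r * (2 * Δ * (((N : ℝ) ^ e * l ^ (e * V)) * l ^ B)) := by gcongr
        _ = 2 * l ^ s * ((N : ℝ) ^ e * Δ) := by rw [hs, pow_add, pow_add]; ring)
    (by
      rw [hε, div_lt_one hAr]
      refine lt_of_lt_of_le ?_ hA1
      calc 2 * l ^ s < l * l ^ s := mul_lt_mul_of_pos_right (by linarith) (p0 _)
        _ = 1 * l ^ (s + 1) := by ring
        _ ≤ (x : ℝ) ^ e * l ^ C0 := mul_le_mul hxe1 (pm _ _ (by omega)) (p0 _).le hxe0.le)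
    (by
      have h1 : (A : ℝ) ≤ J * W := by linarith
      exact_mod_cast h1)
    (by
      intro n hn t ht
      rw [mem_range] at hn
      rw [mem_Icc] at ht
      obtain ⟨v1, v2⟩ := hvals (x1 + n) (by omega) t
      rw [hPe, hPe]
      constructor
      · have : f.eval ((x1 + n : ℕ) : ℤ) ≤ f.eval ((x1 + n + t : ℕ) : ℤ) := by exact_mod_cast v1
        linarith
      · have h1 : (t : ℝ) * (k * ((x1 + n + t : ℕ) : ℝ) ^ e) ≤ A := by
          have h2 : ((x1 + n + t : ℕ) : ℝ) ≤ 3 * x := by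
            have : x1 + n + t ≤ 3 * x := by omega
            exact_mod_cast this
          have h3 : (t : ℝ) ≤ Δ := by exact_mod_cast ht.2
          calc (t : ℝ) * (k * ((x1 + n + t : ℕ) : ℝ) ^ e) ≤ Δ * (k * (3 * x) ^ e) := by gcongr
            _ ≤ (A : ℝ) / ((x : ℝ) ^ e * l ^ B) * (k * (3 * x) ^ e) := by gcongr
            _ = A * ((k * 3 ^ e) / l ^ B) := by rw [mul_pow]; field_simp
            _ ≤ A * 1 := by
                apply mul_le_mul_of_nonneg_left _ hAr.le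
                rw [div_le_one (p0 _)]
                have h4 : (k : ℝ) * 3 ^ e ≤ k * 3 ^ (e + 1) := by
                  apply mul_le_mul_of_nonneg_left _ (by linarith)
                  exact pow_le_pow_right₀ (by norm_num) (by omega)
                have h5 : l ≤ l ^ B := le_self_pow₀ hl1 (by omega)
                linarith
            _ = _ := mul_one _
        have h2 : ((f.eval ((x1 + n + t : ℕ) : ℤ) : ℤ) : ℝ) + a0 + A ≤ ((f.eval ((x1 + n : ℕ) : ℤ) : ℤ) : ℝ) + a0 + (J * W : ℕ) := by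
          push_cast at v2 hJW1 h1 ⊢
          linarith
        exact_mod_cast h2)
    (by
      intro n hn
      rw [hPe]
      have := (hpol (x1 + n) (by omega)).1
      omega)
    (by
      intro n hn
      rw [mem_range] at hn
      rw [hPe]
      have h1 := (hpol (x1 + n) (by omega)).2.1
      have h2 : ((x1 + n : ℕ) : ℝ) ≤ 3 * x := by
        have : x1 + n ≤ 3 * x := by omega
        exact_mod_cast this
      have h3 : (k : ℝ) * ((x1 + n : ℕ) : ℝ) ^ (e + 1) ≤ k * 3 ^ (e + 1) * (x : ℝ) ^ (e + 1) := by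
        calc (k : ℝ) * ((x1 + n : ℕ) : ℝ) ^ (e + 1) ≤ k * (3 * x) ^ (e + 1) := by gcongr
          _ = _ := by rw [mul_pow]; ring
      have h4 : (D : ℝ) ≤ (x : ℝ) ^ (e + 1) := by
        refine hD2.trans ((div_le_self hxe0.le (p1 _)).trans ?_)
        exact pow_le_pow_right₀ hx1 (by omega)
      have h5 : ((f.eval ((x1 + n : ℕ) : ℤ) : ℤ) : ℝ) + a0 + (J * W + D : ℕ) ≤ X := by
        refine le_trans ?_ hX1
        have e1 : (x : ℝ) ^ (e + 1) * l ^ (G + 1) = l * ((x : ℝ) ^ (e + 1) * l ^ G) := by ring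
        rw [e1]
        have h6 : (k : ℝ) * 3 ^ (e + 1) * (x : ℝ) ^ (e + 1) ≤ k * 3 ^ (e + 1) * ((x : ℝ) ^ (e + 1) * l ^ G) := by
          apply mul_le_mul_of_nonneg_left _ hk3
          exact le_mul_of_one_le_right (by positivity) (p1 _)
        have h7 : (x : ℝ) ^ (e + 1) ≤ (x : ℝ) ^ (e + 1) * l ^ G := le_mul_of_one_le_right (by positivity) (p1 _)
        have h8 : ((k : ℝ) * 3 ^ (e + 1) + 4) * ((x : ℝ) ^ (e + 1) * l ^ G) ≤ l * ((x : ℝ) ^ (e + 1) * l ^ G) :=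
          mul_le_mul_of_nonneg_right hkl (by positivity)
        generalize ((f.eval ((x1 + n : ℕ) : ℤ) : ℤ) : ℝ) = F1 at h1 ⊢
        have h9 : (((J * W + D : ℕ)) : ℝ) = J * W + D := by push_cast; ring
        rw [h9]
        linarith
      exact_mod_cast h5)
    (by
      intro n hn n' hn' hnn
      rw [mem_range] at hn hn'
      rw [hPe, hPe]
      obtain ⟨i, hi⟩ : ∃ i : ℕ, x1 + n' = x1 + n + 1 + i := ⟨n' - n - 1, by omega⟩
      have h1 := (hvals (x1 + n + 1) (by omega) i).1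
      have h2 := (hpol (x1 + n) (by omega)).2.2.1
      have h3 : (x1 : ℝ) ^ e ≤ ((x1 + n : ℕ) : ℝ) ^ e := by
        apply pow_le_pow_left₀ (Nat.cast_nonneg _)
        exact_mod_cast (by omega : x1 ≤ x1 + n)
      have h4 : (k : ℝ) * D ≤ (x1 : ℝ) ^ e := by
        have h5 : (k : ℝ) * D * l ^ (e * V) ≤ (x1 : ℝ) ^ e * l ^ (e * V) := by
          refine le_trans ?_ hx1e
          calc (k : ℝ) * D * l ^ (e * V) ≤ l * ((x : ℝ) ^ e / l ^ v) * l ^ (e * V) := by gcongr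
            _ = (x : ℝ) ^ e := by rw [hv, pow_succ]; field_simp
        exact le_of_mul_le_mul_right h5 (p0 _)
      have h5 : (D : ℝ) ≤ ((f.eval ((x1 + n + 1 : ℕ) : ℤ) : ℤ) : ℝ) - ((f.eval ((x1 + n : ℕ) : ℤ) : ℤ) : ℝ) :=
        le_of_mul_le_mul_left (h4.trans (h3.trans h2)) (by linarith)
      rw [← hi] at h1
      have h6 : ((f.eval ((x1 + n : ℕ) : ℤ) : ℤ) : ℝ) + D ≤ ((f.eval ((x1 + n' : ℕ) : ℤ) : ℤ) : ℝ) := by linarith
      have h7 : f.eval ((x1 + n : ℕ) : ℤ) + D ≤ f.eval ((x1 + n' : ℕ) : ℤ) := by exact_mod_cast h6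
      linarith)
    hEd
    (by
      intro q hq1 hq2
      have hqr : (q : ℝ) ≤ l ^ (r + 2) := by
        have h1 : (q : ℝ) ≤ R * g := by exact_mod_cast hq2
        calc (q : ℝ) ≤ R * g := h1
          _ ≤ l ^ (r + 1) * l := by gcongr; linarith
          _ = _ := by ring
      have h1 := hX0 X (by
          have : X0 ≤ x := by omega
          exact_mod_cast (le_trans (by exact_mod_cast this : (X0 : ℝ) ≤ x) hxX)) z
        (by
          refine le_trans ?_ hz1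
          calc Real.log X ^ (r + 2) ≤ (l ^ 2) ^ (r + 2) := by gcongr
            _ = _ := by rw [← pow_mul])
        (hz2.trans (by gcongr)) q hq1 (hqr.trans (by gcongr)) W
        (by
          rw [← Real.sqrt_eq_rpow, Real.sqrt_le_left (by positivity)]
          have h2 : (x : ℝ) ^ e * l ≤ W := by
            have h3 : (x : ℝ) ^ e * l * (2 * l ^ B') ≤ W * (2 * l ^ B') := by
              calc (x : ℝ) ^ e * l * (2 * l ^ B') = (x : ℝ) ^ e * (2 * l ^ (B' + 1)) := by ring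
                _ ≤ (x : ℝ) ^ e * (l * l ^ (B' + 1)) := by
                    apply mul_le_mul_of_nonneg_left _ hxe0.le
                    exact mul_le_mul_of_nonneg_right (by linarith) (p0 _).le
                _ = (x : ℝ) ^ e * l ^ (B' + 2) := by ring
                _ ≤ (x : ℝ) ^ e * l ^ C0 := mul_le_mul_of_nonneg_left (pm _ _ (by omega)) hxe0.le
                _ ≤ A := hA1
                _ ≤ _ := by linarith
            exact le_of_mul_le_mul_right h3 (by have := p0 B'; positivity)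
          calc (X : ℝ) ≤ 2 * ((x : ℝ) ^ (e + 1) * l ^ (G + 1)) := hX2
            _ ≤ l * ((x : ℝ) ^ (2 * e) * l ^ (2 * (G + 1))) := by
                have h4 : (x : ℝ) ^ (e + 1) ≤ (x : ℝ) ^ (2 * e) := pow_le_pow_right₀ hx1 (by omega)
                have h5 : l ^ (G + 1) ≤ l ^ (2 * (G + 1)) := pm _ _ (by omega)
                have h6 : (2 : ℝ) ≤ l := by linarith
                gcongr
            _ ≤ (l * l) * ((x : ℝ) ^ (2 * e) * l ^ (2 * (G + 1))) := by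
                apply mul_le_mul_of_nonneg_right _ (by positivity)
                exact le_mul_of_one_le_right hl0.le hl1
            _ = ((x : ℝ) ^ e * l * l ^ (G + 1)) ^ 2 := by rw [pow_mul, pow_mul]; ring
            _ ≤ (W * Real.log X ^ (G + 1)) ^ 2 := by gcongr)
        (by
          have h2 : (W : ℝ) ≤ X := by
            refine hWleA.trans (hAup.trans (le_trans ?_ hX1))
            exact mul_le_mul_of_nonneg_left (pm _ _ (by omega)) (by positivity)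
          exact_mod_cast h2)
      refine h1.trans ?_
      rw [hT]
      have h2 : l ^ As ≤ Real.log X ^ As := by gcongr
      calc (X : ℝ) * (W : ℝ) ^ 2 / Real.log X ^ As ≤ (2 * ((x : ℝ) ^ (e + 1) * l ^ (G + 1))) * (W : ℝ) ^ 2 / l ^ As := by gcongr
        _ = _ := by ring)
  refine hmain.trans ?_
  have hT0 : 0 ≤ T := by rw [hT]; positivity
  have hRg0 : (0 : ℝ) ≤ ((R * g : ℕ) : ℝ) := Nat.cast_nonneg _
  have hRg : ((R * g : ℕ) : ℝ) ≤ l ^ (r + 2) := by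
    push_cast
    calc (R : ℝ) * g ≤ l ^ (r + 1) * l := by gcongr; linarith
      _ = _ := by ring
  have hjw : (((J * W : ℕ)) : ℝ) = J * W := by push_cast; ring
  rw [hjw]
  have q1 := c_a (R : ℝ) g l (J * W) A ε r s (Nat.cast_nonneg _) hR2 hg0 (by linarith) hgl hAr hJW2 (by positivity) hε
  have q2 := c_b x A N D W l T (l ^ 2) e G v w B' C0 As hx0 hl1 hW0 hD0 hN0.le hT hD1 hD2 hWA hAs (by omega) hA1 rfl hNxr
  have q3 := c_s x N W l ((R * g : ℕ) : ℝ) _ r w w' hx0 hl40 hW0 hN0.le hNxr hRg0 hRg q2 (by positivity) hw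
  have q1' : (R : ℝ) * (g * R + 1) * (2 * (ε * (J * W)) + 1) ≤ l ^ b := by rw [hb]; exact q1
  have q4 := c_f x A N Δ J W l ε (l ^ 2) _ _ U s b w' B' hx0 hAr hl1 hW0 hJ0 hΔ0.le q1' (Real.sqrt_nonneg _) q3 hN0.le hNxr hε rfl
    hW2 hw' hB'
  have q5 := c_g x A N Δ (J * W) l K (l ^ 2) U hx0 hAr hl1 hΔ0.le hN0.le hNxr hJW2 (by positivity) hK rfl
  refine (add_le_add q4 q5).trans ?_
  have h9 : 15 * ((A : ℝ) * Δ * x / l ^ (U + 1)) + 2 * (A * Δ * x / l ^ (U + 1)) = (17 / l) * (A * Δ * x / l ^ U) := by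
    rw [pow_succ]
    field_simp
    ring
  rw [h9]
  calc (17 / l) * ((A : ℝ) * Δ * x / l ^ U) ≤ 1 * (A * Δ * x / l ^ U) := by
        apply mul_le_mul_of_nonneg_right _ (by positivity)
        rw [div_le_one hl0]; linarith
    _ = _ := one_mul _

end Pool.Agent.H544.SR
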