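import Mathlib
import Pool.Agent.H544.SR.S9

/-!
First moment over the shifts, for each length.
-/

set_option autoImplicit false

namespace Pool.Agent.H544.SR
open Finset Polynomial
open Pool.Agent.helper24_UT (NN Ed)
open Pool.Agent.H561.SW (S_SI3)
open Pool.Agent.H373R2.T7 (ev_L' ev_log' Vz_inv_small Vz lamI lamzI lamI_nonneg lamzI_nonneg lamI_le lamzI_le cf abs_eval_le)

lemma abs_ioc (g : ℕ → ℝ) (u s : ℕ) (ρ : ℝ) (hg : ∀ m, u < m → m ≤ u + s → |g m| ≤ ρ) : |∑ m ∈ Ioc u (u + s), g m| ≤ s * ρ := by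
  refine (abs_sum_le_sum_abs _ _).trans ?_
  calc ∑ m ∈ Ioc u (u + s), |g m| ≤ ∑ _m ∈ Ioc u (u + s), ρ := by
        apply sum_le_sum
        intro m hm
        rw [mem_Ioc] at hm
        exact hg m hm.1 hm.2
    _ = _ := by rw [sum_const, Nat.card_Ioc, nsmul_eq_mul, Nat.add_sub_cancel_left]

lemma shift_range (g : ℕ → ℝ) (u N : ℕ) : ∑ n ∈ range N, g (u + n + 1) = ∑ m ∈ Ioc u (u + N), g m := by
  apply sum_nbij' (fun n => u + n + 1) (fun m => m - u - 1)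
  · intro n hn
    rw [mem_range] at hn
    rw [mem_Ioc]
    omega
  · intro m hm
    rw [mem_Ioc] at hm
    rw [mem_range]
    omega
  · intro n hn
    omega
  · intro m hm
    rw [mem_Ioc] at hm
    omega
  · intro n hn
    rfl

lemma smooth_cmp (g : ℕ → ℝ) (x1 N Δ : ℕ) (ρ : ℝ) (hρ : 0 ≤ ρ) (hg : ∀ m, x1 < m → m ≤ x1 + N + Δ → |g m| ≤ ρ) :
    |∑ n ∈ range N, ∑ t ∈ Icc 1 Δ, g (x1 + n + t) - Δ * ∑ m ∈ Ioc x1 (x1 + N), g m| ≤ 2 * Δ ^ 2 * ρ := by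
  rw [sum_comm]
  have e1 : (Δ : ℝ) * ∑ m ∈ Ioc x1 (x1 + N), g m = ∑ _t ∈ Icc 1 Δ, ∑ m ∈ Ioc x1 (x1 + N), g m := by
    rw [sum_const, Nat.card_Icc, nsmul_eq_mul, Nat.add_sub_cancel]
  rw [e1, ← sum_sub_distrib]
  refine (abs_sum_le_sum_abs _ _).trans ?_
  have h1 : ∀ t ∈ Icc 1 Δ, |∑ n ∈ range N, g (x1 + n + t) - ∑ m ∈ Ioc x1 (x1 + N), g m| ≤ 2 * Δ * ρ := by
    intro t ht
    rw [mem_Icc] at ht
    obtain ⟨s, hs⟩ : ∃ s, t = s + 1 := ⟨t - 1, by omega⟩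
    have e2 : ∑ n ∈ range N, g (x1 + n + t) = ∑ m ∈ Ioc (x1 + s) (x1 + s + N), g m := by
      rw [← shift_range]
      apply sum_congr rfl
      intro n _
      congr 1
      omega
    have e3 := sum_Ioc_consecutive g (show x1 ≤ x1 + s by omega) (show x1 + s ≤ x1 + s + N by omega)
    have e4 := sum_Ioc_consecutive g (show x1 ≤ x1 + N by omega) (show x1 + N ≤ x1 + N + s by omega)
    rw [show x1 + N + s = x1 + s + N by ring] at e4
    have e5 : ∑ n ∈ range N, g (x1 + n + t) - ∑ m ∈ Ioc x1 (x1 + N), g m =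
        ∑ m ∈ Ioc (x1 + N) (x1 + s + N), g m - ∑ m ∈ Ioc x1 (x1 + s), g m := by
      rw [e2]
      linarith
    rw [e5]
    have h2 := abs_ioc g x1 s ρ (fun m a b => hg m a (by omega))
    have h3 := abs_ioc g (x1 + N) s ρ (fun m a b => hg m (by omega) (by omega))
    rw [show x1 + N + s = x1 + s + N by ring] at h3
    have h4 : (s : ℝ) * ρ ≤ Δ * ρ := mul_le_mul_of_nonneg_right (by exact_mod_cast (by omega : s ≤ Δ)) hρ
    refine (abs_sub _ _).trans ?_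
    linarith
  refine (sum_le_sum h1).trans (le_of_eq ?_)
  rw [sum_const, Nat.card_Icc, nsmul_eq_mul, Nat.add_sub_cancel]
  ring

/-- a bound for the error function at the values -/
lemma ed_vals (f : ℤ[X]) (e : ℕ) (hd : f.natDegree = e + 1) (G E1 : ℕ) : ∃ n1 : ℕ, ∀ x : ℕ, n1 ≤ x → ∀ A a0 : ℕ,
    (A : ℝ) + a0 ≤ (x : ℝ) ^ (e + 1) * Real.log x ^ G → ∀ z : ℕ, 1 ≤ z → (z : ℝ) ≤ Real.log x ^ E1 →
    ∀ a ∈ Icc 1 A, ∀ n ∈ Icc 1 (3 * x), ((a : ℝ) + (((f + C (a0 : ℤ)).eval (n : ℤ) : ℤ) : ℝ) ≤ 2 * cf f * 3 ^ (e + 1) * ((x : ℝ) ^ (e + 1) * Real.log x ^ G)) ∧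
      |Ed z ((a : ℤ) + (f + C (a0 : ℤ)).eval (n : ℤ))| ≤ Real.log x ^ 2 := by
  obtain ⟨n2, hn2⟩ := ev_L' ((e : ℝ) + 4)
  obtain ⟨n3, hn3⟩ := ev_log' G (2 * cf f * 3 ^ (e + 1))
  obtain ⟨n4, hn4⟩ := Vz_inv_small E1
  refine ⟨n2 + n3 + n4 + 3, fun x hx A a0 hA z hz1 hz2 a ha n hn => ?_⟩
  have hl := hn2 x (by omega)
  have hbig := hn3 x (by omega)
  have hVz := hn4 x (by omega) z hz1 hz2
  set l := Real.log x with hld
  have hx1 : (1 : ℝ) ≤ x := by exact_mod_cast (by omega : 1 ≤ x)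
  have hx0 : (0 : ℝ) < x := by linarith
  have he0 : (0 : ℝ) ≤ e := Nat.cast_nonneg _
  have hl1 : 1 ≤ l := by linarith
  have hl0 : 0 < l := by linarith
  have hsx : Real.sqrt x ≤ x := by
    rw [Real.sqrt_le_left (by linarith)]
    nlinarith
  rw [mem_Icc] at ha hn
  have hcf1 : (1 : ℝ) ≤ cf f := by
    have h1 : 1 ≤ cf f := by
      by_contra hc
      have h2 : cf f = 0 := by omega
      have h3 := abs_eval_le f
      have h4 : f.coeff f.natDegree ≠ 0 := by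
        rw [coeff_natDegree, Ne, leadingCoeff_eq_zero]
        intro h0
        rw [h0] at hd
        simp at hd
      apply h4
      have h5 : (f.coeff f.natDegree).natAbs ≤ cf f := by
        unfold cf
        exact single_le_sum (f := fun i => (f.coeff i).natAbs) (fun _ _ => Nat.zero_le _) (mem_range.2 (by omega))
      omega
    exact_mod_cast h1
  have h1 : ((a : ℝ) + (((f + C (a0 : ℤ)).eval (n : ℤ) : ℤ) : ℝ)) ≤ 2 * cf f * 3 ^ (e + 1) * ((x : ℝ) ^ (e + 1) * l ^ G) := by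
    rw [eval_add, eval_C]
    push_cast
    have h2 : ((f.eval (n : ℤ) : ℤ) : ℝ) ≤ cf f * (n : ℝ) ^ (e + 1) := by
      have h3 := (le_abs_self _).trans (abs_eval_le f n hn.1)
      rw [hd] at h3
      exact_mod_cast h3
    have h3 : (n : ℝ) ≤ 3 * x := by exact_mod_cast hn.2
    have h4 : (cf f : ℝ) * (n : ℝ) ^ (e + 1) ≤ cf f * (3 * x) ^ (e + 1) := by gcongr
    have h5 : (a : ℝ) ≤ A := by exact_mod_cast ha.2
    have h6 : (1 : ℝ) ≤ l ^ G := one_le_pow₀ hl1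
    have h7 : (x : ℝ) ^ (e + 1) ≤ (x : ℝ) ^ (e + 1) * l ^ G := le_mul_of_one_le_right (by positivity) h6
    have h8 : (cf f : ℝ) * (3 * x) ^ (e + 1) ≤ cf f * 3 ^ (e + 1) * ((x : ℝ) ^ (e + 1) * l ^ G) := by
      rw [mul_pow, ← mul_assoc]
      exact mul_le_mul_of_nonneg_left h7 (by positivity)
    have h9 : (1 : ℝ) * 1 ≤ cf f * 3 ^ (e + 1) := mul_le_mul hcf1 (one_le_pow₀ (by norm_num)) (by norm_num) (by linarith)
    have h10 : 1 * ((x : ℝ) ^ (e + 1) * l ^ G) ≤ cf f * 3 ^ (e + 1) * ((x : ℝ) ^ (e + 1) * l ^ G) := by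
      apply mul_le_mul_of_nonneg_right _ (by positivity)
      linarith
    linarith
  refine ⟨h1, ?_⟩
  have h2 : ((((a : ℤ) + (f + C (a0 : ℤ)).eval (n : ℤ)) : ℤ) : ℝ) ≤ (x : ℝ) ^ (e + 2) := by
    push_cast
    refine h1.trans ?_
    calc 2 * cf f * 3 ^ (e + 1) * ((x : ℝ) ^ (e + 1) * l ^ G) = (x : ℝ) ^ (e + 1) * (2 * cf f * 3 ^ (e + 1) * l ^ G) := by ring
      _ ≤ (x : ℝ) ^ (e + 1) * x := mul_le_mul_of_nonneg_left (hbig.trans hsx) (by positivity)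
      _ = _ := by ring
  generalize (a : ℤ) + (f + C (a0 : ℤ)).eval (n : ℤ) = mm at h2 ⊢
  have h3 := lamI_nonneg mm
  have h4 := lamzI_nonneg z mm
  have h5 : lamI mm ≤ Real.log ((x : ℝ) ^ (e + 2)) := lamI_le mm _ (one_le_pow₀ hx1) h2
  rw [Real.log_pow] at h5
  push_cast at h5
  have h6 := lamzI_le z mm
  have h7 : ((e : ℝ) + 2) * l ≤ l ^ 2 := by
    rw [sq]
    exact mul_le_mul_of_nonneg_right (by linarith) hl0.le
  have h8 : l ≤ l ^ 2 := le_self_pow₀ hl1 (by norm_num)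
  unfold Ed
  rw [abs_le]
  constructor <;> linarith

theorem fm (hSI : S_SI3) (f : ℤ[X]) (e : ℕ) (he : 1 ≤ e) (hd : f.natDegree = e + 1) (hl : 0 < f.leadingCoeff) (U G : ℕ) :
    ∃ C0 E0 : ℕ, ∀ E1 : ℕ, ∃ n1 : ℕ, ∀ x : ℕ, n1 ≤ x → ∀ A a0 : ℕ, (x : ℝ) ^ e * Real.log x ^ C0 ≤ A →
      (A : ℝ) + a0 ≤ (x : ℝ) ^ (e + 1) * Real.log x ^ G → ∀ z : ℕ, Real.log x ^ E0 ≤ z → (z : ℝ) ≤ Real.log x ^ E1 →
      ∀ y : ℕ, y ≤ x → ∑ a ∈ Icc 1 A, |∑ n ∈ Icc 1 y, Ed z ((a : ℤ) + (f + C (a0 : ℤ)).eval (n : ℤ))| ≤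
          A * x / Real.log x ^ U := by
  obtain ⟨C0, E0, h0⟩ := param hSI f e he hd hl (U + 1) G (U + 4)
  refine ⟨C0, E0, fun E1 => ?_⟩
  obtain ⟨n2, h2⟩ := h0 E1
  obtain ⟨n3, h3⟩ := ed_vals f e hd G E1
  obtain ⟨n4, h4⟩ := ev_L' 20
  obtain ⟨n5, h5⟩ := ev_log' (U + 4) 1
  refine ⟨n2 + n3 + n4 + n5 + 3, fun x hx A a0 hA1 hA2 z hz1 hz2 y hy => ?_⟩
  have hl20 := h4 x (by omega)
  have hbig := h5 x (by omega)
  obtain ⟨Δ, hΔ1, hΔ2, hpar⟩ := h2 x (by omega) A a0 hA1 hA2 z hz1 hz2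
  set l := Real.log x with hld
  have hx1 : (1 : ℝ) ≤ x := by exact_mod_cast (by omega : 1 ≤ x)
  have hx0 : (0 : ℝ) < x := by linarith
  have hl1 : 1 ≤ l := by linarith
  have hl0 : 0 < l := by linarith
  have p0 : ∀ i : ℕ, 0 < l ^ i := fun i => by positivity
  have p1 : ∀ i : ℕ, 1 ≤ l ^ i := fun i => one_le_pow₀ hl1
  have hsx : Real.sqrt x ≤ x := by
    rw [Real.sqrt_le_left (by linarith)]
    nlinarith
  have hz1' : 1 ≤ z := by
    have : (1 : ℝ) ≤ z := (p1 _).trans hz1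
    exact_mod_cast this
  have hval : ∀ a ∈ Icc 1 A, ∀ n ∈ Icc 1 (3 * x), |Ed z ((a : ℤ) + (f + C (a0 : ℤ)).eval (n : ℤ))| ≤ l ^ 2 := fun a ha n hn =>
    (h3 x (by omega) A a0 hA2 z hz1' hz2 a ha n hn).2
  have hA0 : (0 : ℝ) ≤ A := Nat.cast_nonneg _
  -- x1
  have hyy : 1 ≤ (x : ℝ) / l ^ (U + 4) := by
    rw [one_le_div (p0 _)]
    linarith
  obtain ⟨x1, hx1d⟩ : ∃ x1 : ℕ, x1 = ⌈(x : ℝ) / l ^ (U + 4)⌉₊ := ⟨_, rfl⟩
  have hx1a : (x : ℝ) ≤ x1 * l ^ (U + 4) := by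
    rw [← div_le_iff₀ (p0 _), hx1d]
    exact Nat.le_ceil _
  have hx1b : (x1 : ℝ) ≤ 2 * ((x : ℝ) / l ^ (U + 4)) := by
    have := Nat.ceil_lt_add_one (by positivity : 0 ≤ (x : ℝ) / l ^ (U + 4))
    rw [hx1d]
    linarith
  have hx1c : (x1 : ℝ) * l ^ 2 ≤ (2 / l) * (x / l ^ (U + 1)) := by
    calc (x1 : ℝ) * l ^ 2 ≤ 2 * ((x : ℝ) / l ^ (U + 4)) * l ^ 2 := mul_le_mul_of_nonneg_right hx1b (by positivity)
      _ = _ := by rw [show U + 4 = (U + 1) + 3 by ring, pow_add]; field_simp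
  have hx1d' : (x1 : ℝ) * l ^ 2 ≤ x / l ^ (U + 1) := by
    refine hx1c.trans ?_
    calc (2 / l) * (x / l ^ (U + 1)) ≤ 1 * (x / l ^ (U + 1)) := by
          apply mul_le_mul_of_nonneg_right _ (by positivity)
          rw [div_le_one hl0]; linarith
      _ = _ := one_mul _
  have hfin : ∀ c : ℝ, 0 ≤ c → c ≤ 20 → c * (A * x / l ^ (U + 1)) ≤ A * x / l ^ U := by
    intro c hc0 hc
    calc c * (A * x / l ^ (U + 1)) = (c / l) * (A * x / l ^ U) := by rw [pow_succ]; field_simp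
      _ ≤ 1 * (A * x / l ^ U) := by
          apply mul_le_mul_of_nonneg_right _ (by positivity)
          rw [div_le_one hl0]; linarith
      _ = _ := one_mul _
  have htriv : ∀ y' : ℕ, y' ≤ x → ∀ a ∈ Icc 1 A, |∑ n ∈ Icc 1 y', Ed z ((a : ℤ) + (f + C (a0 : ℤ)).eval (n : ℤ))| ≤ y' * l ^ 2 := by
    intro y' hy' a ha
    refine (abs_sum_le_sum_abs _ _).trans ?_
    calc ∑ n ∈ Icc 1 y', |Ed z ((a : ℤ) + (f + C (a0 : ℤ)).eval (n : ℤ))| ≤ ∑ _n ∈ Icc 1 y', l ^ 2 := by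
          apply sum_le_sum
          intro n hn
          rw [mem_Icc] at hn
          exact hval a ha n (mem_Icc.2 (by omega))
      _ = _ := by rw [sum_const, Nat.card_Icc, nsmul_eq_mul, Nat.add_sub_cancel]
  by_cases hy2 : y ≤ 2 * x1
  · have h6 : ∑ a ∈ Icc 1 A, |∑ n ∈ Icc 1 y, Ed z ((a : ℤ) + (f + C (a0 : ℤ)).eval (n : ℤ))| ≤ ∑ _a ∈ Icc 1 A, 2 * (x / l ^ (U + 1)) := by
      apply sum_le_sum
      intro a ha
      refine (htriv y hy a ha).trans ?_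
      have : (y : ℝ) ≤ 2 * x1 := by exact_mod_cast hy2
      calc (y : ℝ) * l ^ 2 ≤ 2 * x1 * l ^ 2 := by gcongr
        _ = 2 * (x1 * l ^ 2) := by ring
        _ ≤ _ := by linarith
    refine h6.trans ?_
    rw [sum_const, Nat.card_Icc, nsmul_eq_mul, Nat.add_sub_cancel]
    have := hfin 2 (by norm_num) (by norm_num)
    calc (A : ℝ) * (2 * (x / l ^ (U + 1))) = 2 * (A * x / l ^ (U + 1)) := by ring
      _ ≤ _ := this
  · push Not at hy2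
    obtain ⟨N, hN⟩ : ∃ N, y = x1 + N := ⟨y - x1, by omega⟩
    have hx1N : x1 ≤ N := by omega
    have h6 := hpar x1 N (by omega) hx1a (by omega) (by
      refine hx1a.trans ?_
      apply mul_le_mul_of_nonneg_right _ (p0 _).le
      exact_mod_cast hx1N)
    have hΔ0 : (0 : ℝ) < Δ := by exact_mod_cast hΔ1
    have hΔx : (Δ : ℝ) ≤ x := hΔ2.trans (div_le_self hx0.le (p1 _))
    have hΔxn : Δ ≤ x := by exact_mod_cast hΔx
    have h7 : ∀ a ∈ Icc 1 A, |∑ n ∈ Icc 1 y, Ed z ((a : ℤ) + (f + C (a0 : ℤ)).eval (n : ℤ))| ≤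
        |∑ n ∈ range N, ∑ t ∈ Icc 1 Δ, Ed z ((a : ℤ) + (f + C (a0 : ℤ)).eval ((x1 + n + t : ℕ) : ℤ))| / Δ + 3 * (x / l ^ (U + 1)) := by
      intro a ha
      have g1 := smooth_cmp (fun m : ℕ => Ed z ((a : ℤ) + (f + C (a0 : ℤ)).eval (m : ℤ))) x1 N Δ (l ^ 2) (by positivity)
        (fun m hm1 hm2 => hval a ha m (mem_Icc.2 (by omega)))
      have g2 : ∑ n ∈ Icc 1 y, Ed z ((a : ℤ) + (f + C (a0 : ℤ)).eval (n : ℤ)) =
          ∑ n ∈ Icc 1 x1, Ed z ((a : ℤ) + (f + C (a0 : ℤ)).eval (n : ℤ)) +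
          ∑ m ∈ Ioc x1 (x1 + N), Ed z ((a : ℤ) + (f + C (a0 : ℤ)).eval (m : ℤ)) := by
        have e : ∀ n : ℕ, Icc 1 n = Ioc 0 n := by
          intro n
          ext x
          simp only [mem_Icc, mem_Ioc]
          omega
        rw [hN, e, e]
        exact (sum_Ioc_consecutive (fun m : ℕ => Ed z ((a : ℤ) + (f + C (a0 : ℤ)).eval (m : ℤ))) (Nat.zero_le x1) (Nat.le_add_right x1 N)).symm
      have g3 := htriv x1 (by omega) a ha
      rw [g2]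
      refine (abs_add_le _ _).trans ?_
      set S := ∑ n ∈ range N, ∑ t ∈ Icc 1 Δ, Ed z ((a : ℤ) + (f + C (a0 : ℤ)).eval ((x1 + n + t : ℕ) : ℤ)) with hS
      set Q := ∑ m ∈ Ioc x1 (x1 + N), Ed z ((a : ℤ) + (f + C (a0 : ℤ)).eval (m : ℤ)) with hQ
      have g4 : Δ * |Q| ≤ |S| + 2 * Δ ^ 2 * l ^ 2 := by
        have e1 : (Δ : ℝ) * |Q| = |Δ * Q| := by rw [abs_mul, abs_of_pos hΔ0]
        have e2 : (Δ : ℝ) * Q = S - (S - Δ * Q) := by ring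
        rw [e1, e2]
        refine (abs_sub _ _).trans ?_
        linarith
      have g5 : |Q| ≤ |S| / Δ + 2 * Δ * l ^ 2 := by
        rw [← sub_nonneg]
        have e1 : |S| / Δ + 2 * Δ * l ^ 2 - |Q| = (|S| + 2 * Δ ^ 2 * l ^ 2 - Δ * |Q|) / Δ := by
          field_simp
        rw [e1]
        apply div_nonneg _ hΔ0.le
        linarith
      have g6 : 2 * Δ * l ^ 2 ≤ 2 * (x / l ^ (U + 1)) := by
        have e1 : (Δ : ℝ) * l ^ 2 ≤ x / l ^ (U + 1) := by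
          calc (Δ : ℝ) * l ^ 2 ≤ x / l ^ (U + 1 + 2) * l ^ 2 := mul_le_mul_of_nonneg_right hΔ2 (by positivity)
            _ = _ := by rw [pow_add l (U + 1) 2]; field_simp
        linarith
      linarith
    refine (sum_le_sum h7).trans ?_
    rw [sum_add_distrib, ← sum_div, sum_const, Nat.card_Icc, nsmul_eq_mul, Nat.add_sub_cancel]
    have h8 : (∑ a ∈ Icc 1 A, |∑ n ∈ range N, ∑ t ∈ Icc 1 Δ, Ed z ((a : ℤ) + (f + C (a0 : ℤ)).eval ((x1 + n + t : ℕ) : ℤ))|) / Δ ≤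
        A * x / l ^ (U + 1) := by
      rw [div_le_iff₀ hΔ0]
      refine h6.trans (le_of_eq ?_)
      ring
    have h9 := hfin 4 (by norm_num) (by norm_num)
    calc _ ≤ A * x / l ^ (U + 1) + A * (3 * (x / l ^ (U + 1))) := by linarith
      _ = 4 * (A * x / l ^ (U + 1)) := by ring
      _ ≤ _ := h9

end Pool.Agent.H544.SR
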