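import Mathlib
import Pool.Agent.H544.SR.S10
import Pool.Agent.H544.LD.Main

/-!
All lengths up to `x`, for almost all shifts.
-/

set_option autoImplicit false

namespace Pool.Agent.H544.SR
open Finset Polynomial
open Pool.Agent.helper24_UT (NN Ed)
open Pool.Agent.H561.SW (S_SI3)
open Pool.Agent.H373R2.T7 (ev_L' ev_log' Vz_inv_small Vz Vz_pos lamI lamzI lamP lamI_nonneg lamzI_nonneg lamP_nonneg lamP_le lamI_le lamzI_le cf abs_eval_le pp_sum)
open Pool.Agent.H544.LD (Cz model_cls Gz Gz_nonneg Gz_le_one Cz_eq cls va Hp grid markov om)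

/-- the constant of `f + b`, cut at `z` -/
noncomputable def Cs (f : ℤ[X]) (b z : ℕ) : ℝ := Cz (fun _ : Fin 1 => f) (fun _ => b) z

lemma Cs_eq (f : ℤ[X]) (b z : ℕ) : Cs f b z = (Vz z)⁻¹ ^ 1 * (Gz (Hp (fun _ : Fin 1 => f) (fun _ => b)) z 1 / (1 : ℕ)) := by
  unfold Cs
  rw [Cz_eq]
  unfold Gz
  rw [filter_true_of_mem]
  · simp
  · intro p hp
    rw [Pool.Agent.H373R2.T7.mem_pz] at hp
    intro h
    have := hp.2.one_lt
    have := Nat.le_of_dvd (by norm_num) h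
    omega

lemma ev_loglog (D : ℝ) : ∃ x0 : ℕ, ∀ x : ℕ, x0 ≤ x → D * Real.log (Real.log x) ^ 2 ≤ Real.log x / 2 := by
  have h2 : ∀ᶠ N : ℕ in Filter.atTop, D * Real.log (Real.log N) ^ 2 ≤ Real.log N / 2 := by
    have hlim : Filter.Tendsto (fun N : ℕ => Real.log (N : ℝ)) Filter.atTop Filter.atTop :=
      Real.tendsto_log_atTop.comp (tendsto_natCast_atTop_atTop (R := ℝ))
    have h3 := (Real.isLittleO_pow_log_id_atTop (n := 2)).bound (show (0 : ℝ) < 1 / (2 * (|D| + 1)) by positivity)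
    filter_upwards [hlim.eventually h3, hlim.eventually_ge_atTop 1] with N h4 h5
    rw [Real.norm_eq_abs, Real.norm_eq_abs, abs_of_nonneg (by positivity : 0 ≤ Real.log (Real.log N) ^ 2), id, abs_of_nonneg (by linarith : 0 ≤ Real.log N)] at h4
    have h6 : D ≤ |D| + 1 := by linarith [le_abs_self D]
    calc D * Real.log (Real.log N) ^ 2 ≤ (|D| + 1) * Real.log (Real.log N) ^ 2 := by gcongr
      _ ≤ (|D| + 1) * (1 / (2 * (|D| + 1)) * Real.log N) := by gcongr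
      _ = _ := by field_simp
  exact Filter.eventually_atTop.1 h2

theorem model (f : ℤ[X]) (hl : 0 < f.leadingCoeff) (U E1 : ℕ) : ∃ n1 : ℕ, ∀ x : ℕ, n1 ≤ x → ∀ z : ℕ, Real.log x ≤ z →
    (z : ℝ) ≤ Real.log x ^ E1 → ∀ b : ℕ, 1 ≤ b → (0 ≤ Cs f b z ∧ Cs f b z ≤ Real.log x) ∧ ∀ y : ℕ, y ≤ x →
      |∑ n ∈ Icc 1 y, lamzI z ((b : ℤ) + f.eval (n : ℤ)) - Cs f b z * y| ≤ x / Real.log x ^ U := by
  obtain ⟨C1, z0, n0, hC1, hz0, hmod⟩ := model_cls (fun _ : Fin 1 => f) (fun _ => hl)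
  obtain ⟨n2, h2⟩ := Vz_inv_small E1
  obtain ⟨n3, h3⟩ := ev_L' ((z0 : ℝ) + 10 + n0)
  set Wd : ℕ := U + 2 with hWd
  obtain ⟨n4, h4⟩ := ev_loglog ((E1 * C1 * (C1 + 2 * Wd + 1) + Wd : ℕ) : ℝ)
  obtain ⟨n5, h5⟩ := ev_log' (U + 3) 1
  refine ⟨n2 + n3 + n4 + n5 + 3, fun x hx z hz1 hz2 b hb => ?_⟩
  have hL := h3 x (by omega)
  have hLL := h4 x (by omega)
  have hbig := h5 x (by omega)
  have hx1 : (1 : ℝ) ≤ x := by exact_mod_cast (by omega : 1 ≤ x)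
  have hx0 : (0 : ℝ) < x := by linarith
  have hz0r : (0 : ℝ) ≤ z0 := Nat.cast_nonneg _
  have hn0r : (0 : ℝ) ≤ n0 := Nat.cast_nonneg _
  have hV := h2 x (by omega) z (by
    have : (1 : ℝ) ≤ z := by linarith
    exact_mod_cast this) hz2
  set L := Real.log x with hLd
  have hL1 : 1 ≤ L := by linarith
  have hL0 : 0 < L := by linarith
  have hz0z : z0 ≤ z := by
    have : (z0 : ℝ) ≤ z := by linarith
    exact_mod_cast this
  have hVp : 0 < (Vz z)⁻¹ := by have := Vz_pos z; positivity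
  have hG0 := Gz_nonneg (Hp (fun _ : Fin 1 => f) (fun _ => b)) z 1
  have hG1 := Gz_le_one (Hp (fun _ : Fin 1 => f) (fun _ => b)) z 1
  refine ⟨⟨?_, ?_⟩, fun y hy => ?_⟩
  · rw [Cs_eq]; positivity
  · rw [Cs_eq, pow_one, Nat.cast_one, div_one]
    calc (Vz z)⁻¹ * Gz (Hp (fun _ : Fin 1 => f) (fun _ => b)) z 1 ≤ (Vz z)⁻¹ * 1 := mul_le_mul_of_nonneg_left hG1 hVp.le
      _ ≤ _ := by linarith
  set ℓ := Real.log L with hℓ
  have hℓ1 : 1 ≤ ℓ := by
    rw [hℓ, Real.le_log_iff_exp_le hL0]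
    have := Real.exp_one_lt_d9
    linarith
  have hℓ0 : 0 < ℓ := by linarith
  have hℓ2 : ℓ ≤ ℓ ^ 2 := by nlinarith
  have hLe : ∀ n : ℕ, L ^ n = Real.exp (n * ℓ) := by
    intro n
    rw [hℓ, mul_comm, Real.exp_mul, Real.exp_log hL0, Real.rpow_natCast]
  obtain ⟨b', hb'⟩ : ∃ b' : ℕ, b' = C1 + ⌈2 * Wd * ℓ⌉₊ := ⟨_, rfl⟩
  have hb1 : (b' : ℝ) ≤ (C1 + 2 * Wd + 1) * ℓ := by
    have h6 := Nat.ceil_lt_add_one (by positivity : 0 ≤ 2 * (Wd : ℝ) * ℓ)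
    rw [hb']
    push_cast
    have h7 : (C1 : ℝ) ≤ C1 * ℓ := le_mul_of_one_le_right (Nat.cast_nonneg _) hℓ1
    nlinarith
  have hb2 : 2 * Wd * ℓ ≤ b' := by
    have h6 := Nat.le_ceil (2 * (Wd : ℝ) * ℓ)
    rw [hb']
    push_cast
    have : (0 : ℝ) ≤ C1 := Nat.cast_nonneg _
    linarith
  have hhalf : (1 / 2 : ℝ) ^ b' ≤ 1 / L ^ Wd := by
    rw [one_div_pow]
    apply one_div_le_one_div_of_le (by positivity)
    rw [hLe]
    have e1 : (2 : ℝ) ^ b' = Real.exp (b' * Real.log 2) := by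
      rw [mul_comm, Real.exp_mul, Real.exp_log (by norm_num), Real.rpow_natCast]
    rw [e1]
    apply Real.exp_le_exp.2
    have h6 := Real.log_two_gt_d9
    have h7 : 0 ≤ 2 * (Wd : ℝ) * ℓ := by positivity
    nlinarith
  have hzb : (z : ℝ) ^ (C1 * b') ≤ x / L ^ Wd := by
    rw [le_div_iff₀ (by positivity)]
    have h9 : (z : ℝ) ^ (C1 * b') * L ^ Wd ≤ Real.exp ((E1 * C1 * (C1 + 2 * Wd + 1) + Wd : ℕ) * ℓ ^ 2) := by
      calc (z : ℝ) ^ (C1 * b') * L ^ Wd ≤ (L ^ E1) ^ (C1 * b') * L ^ Wd := by gcongr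
        _ = Real.exp ((E1 * (C1 * b') + Wd : ℕ) * ℓ) := by rw [← pow_mul, ← pow_add, hLe]
        _ ≤ Real.exp ((E1 * C1 * (C1 + 2 * Wd + 1) + Wd : ℕ) * ℓ ^ 2) := by
            apply Real.exp_le_exp.2
            push_cast
            have h6 : (E1 : ℝ) * (C1 * b') * ℓ ≤ E1 * C1 * (C1 + 2 * Wd + 1) * ℓ ^ 2 := by
              have h7 : (E1 : ℝ) * C1 * ℓ * b' ≤ E1 * C1 * ℓ * ((C1 + 2 * Wd + 1) * ℓ) := mul_le_mul_of_nonneg_left hb1 (by positivity)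
              calc (E1 : ℝ) * (C1 * b') * ℓ = E1 * C1 * ℓ * b' := by ring
                _ ≤ _ := h7
                _ = _ := by ring
            have h8 : (Wd : ℝ) * ℓ ≤ Wd * ℓ ^ 2 := mul_le_mul_of_nonneg_left hℓ2 (Nat.cast_nonneg _)
            linarith
    refine h9.trans ?_
    have h10 : (x : ℝ) = Real.exp L := by rw [hLd, Real.exp_log hx0]
    rw [h10]
    apply Real.exp_le_exp.2
    linarith
  have hm := hmod b' (by omega) z hz0z (fun _ => b) 1 0 y (fun _ => hb) le_rfl (by norm_num) (by simp)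
  have e1 : ∑ n ∈ cls y 1 0, ∏ i : Fin 1, lamzI z (va (fun _ : Fin 1 => f) (fun _ => b) i n) = ∑ n ∈ Icc 1 y, lamzI z ((b : ℤ) + f.eval (n : ℤ)) := by
    unfold cls
    rw [filter_true_of_mem (by intro n _; exact Nat.mod_one n)]
    apply sum_congr rfl
    intro n _
    rw [Fin.prod_univ_one]
    rfl
  rw [e1, ← Cs_eq] at hm
  refine hm.trans ?_
  rw [pow_one, Nat.cast_one, div_one]
  have hyx : (y : ℝ) ≤ x := by exact_mod_cast hy
  have g1 : (1 / 2 : ℝ) ^ b' * y ≤ x / L ^ Wd := by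
    calc (1 / 2 : ℝ) ^ b' * y ≤ 1 / L ^ Wd * x := mul_le_mul hhalf hyx (Nat.cast_nonneg _) (by positivity)
      _ = _ := by ring
  have g2 : (n0 : ℝ) ≤ x / L ^ Wd := by
    rw [le_div_iff₀ (by positivity)]
    have hsx : Real.sqrt x ≤ x := by
      rw [Real.sqrt_le_left (by linarith)]
      nlinarith
    calc (n0 : ℝ) * L ^ Wd ≤ L * L ^ Wd := by gcongr; linarith
      _ = 1 * L ^ (U + 3) := by rw [hWd]; ring
      _ ≤ _ := hbig.trans hsx
  calc (Vz z)⁻¹ * ((1 / 2 : ℝ) ^ b' * y + (z : ℝ) ^ (C1 * b') + n0) ≤ L * (x / L ^ Wd + x / L ^ Wd + x / L ^ Wd) := by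
        apply mul_le_mul hV _ (by positivity) hL0.le
        linarith
    _ = (3 / L) * (x / L ^ U) := by rw [hWd, pow_add]; field_simp; ring
    _ ≤ 1 * (x / L ^ U) := by
        apply mul_le_mul_of_nonneg_right _ (by positivity)
        rw [div_le_one hL0]; linarith
    _ = _ := one_mul _

/-- prime powers -/
theorem pps (f : ℤ[X]) (e : ℕ) (he : 1 ≤ e) (hd : f.natDegree = e + 1) (U G : ℕ) : ∃ n1 : ℕ, ∀ x : ℕ, n1 ≤ x → ∀ A a0 : ℕ,
    (x : ℝ) ^ e * Real.log x ^ (G + U + 4) ≤ A → (A : ℝ) + a0 ≤ (x : ℝ) ^ (e + 1) * Real.log x ^ G →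
      ∑ a ∈ Icc 1 A, ∑ n ∈ Icc 1 x, (lamI ((a : ℤ) + (f + C (a0 : ℤ)).eval (n : ℤ)) - lamP ((a : ℤ) + (f + C (a0 : ℤ)).eval (n : ℤ))) ≤
        A * x / Real.log x ^ U := by
  obtain ⟨n2, h2⟩ := ed_vals f e hd G 0
  obtain ⟨n3, h3⟩ := ev_L' (2 * (2 * cf f * 3 ^ (e + 1)) + e + 10)
  obtain ⟨n4, h4⟩ := ev_log' (G + 1) 1
  refine ⟨n2 + n3 + n4 + 3, fun x hx A a0 hA1 hA2 => ?_⟩
  have hL := h3 x (by omega)
  have hbig := h4 x (by omega)
  have hx1 : (1 : ℝ) ≤ x := by exact_mod_cast (by omega : 1 ≤ x)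
  have hx0 : (0 : ℝ) < x := by linarith
  have hvals := h2 x (by omega) A a0 hA2 1 le_rfl (by simp)
  set l := Real.log x with hld
  have he0 : (0 : ℝ) ≤ e := Nat.cast_nonneg _
  have hc0 : (0 : ℝ) ≤ 2 * cf f * 3 ^ (e + 1) := by positivity
  obtain ⟨κ, hκ⟩ : ∃ κ : ℝ, κ = 2 * cf f * 3 ^ (e + 1) := ⟨_, rfl⟩
  rw [← hκ] at hL hc0
  simp only [← hκ] at hvals
  have hl1 : 1 ≤ l := by linarith
  have hl0 : 0 < l := by linarith
  obtain ⟨X, hX⟩ : ∃ X : ℕ, X = ⌈κ * ((x : ℝ) ^ (e + 1) * l ^ G)⌉₊ + 1 := ⟨_, rfl⟩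
  have hX1 : 1 ≤ X := by omega
  have hXa : κ * ((x : ℝ) ^ (e + 1) * l ^ G) ≤ X := by
    have := Nat.le_ceil (κ * ((x : ℝ) ^ (e + 1) * l ^ G))
    rw [hX]
    push_cast
    linarith
  have hXb : (X : ℝ) ≤ l * ((x : ℝ) ^ (e + 1) * l ^ G) := by
    have h5 := Nat.ceil_lt_add_one (by positivity : 0 ≤ κ * ((x : ℝ) ^ (e + 1) * l ^ G))
    have h6 : 1 ≤ (x : ℝ) ^ (e + 1) * l ^ G := one_le_mul_of_one_le_of_one_le (one_le_pow₀ hx1) (one_le_pow₀ hl1)
    have h7 : (κ + 2) * ((x : ℝ) ^ (e + 1) * l ^ G) ≤ l * ((x : ℝ) ^ (e + 1) * l ^ G) := by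
      apply mul_le_mul_of_nonneg_right _ (by positivity)
      linarith
    rw [hX]
    push_cast
    linarith
  have hsq : Real.sqrt X ≤ (x : ℝ) ^ e * l ^ (G + 1) := by
    rw [Real.sqrt_le_left (by positivity)]
    calc (X : ℝ) ≤ l * ((x : ℝ) ^ (e + 1) * l ^ G) := hXb
      _ = (x : ℝ) ^ (e + 1) * l ^ (G + 1) := by ring
      _ ≤ (x : ℝ) ^ (2 * e) * l ^ (2 * (G + 1)) := by
          have h5 : (x : ℝ) ^ (e + 1) ≤ (x : ℝ) ^ (2 * e) := pow_le_pow_right₀ hx1 (by omega)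
          have h6 : l ^ (G + 1) ≤ l ^ (2 * (G + 1)) := pow_le_pow_right₀ hl1 (by omega)
          gcongr
      _ = _ := by rw [pow_mul, pow_mul]; ring
  have hlog : Real.log X ≤ l ^ 2 := by
    have hsx : Real.sqrt x ≤ x := by
      rw [Real.sqrt_le_left (by linarith)]
      nlinarith
    have h5 : (X : ℝ) ≤ (x : ℝ) ^ (e + 2) := by
      refine hXb.trans ?_
      calc l * ((x : ℝ) ^ (e + 1) * l ^ G) = (x : ℝ) ^ (e + 1) * (1 * l ^ (G + 1)) := by ring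
        _ ≤ (x : ℝ) ^ (e + 1) * x := mul_le_mul_of_nonneg_left (hbig.trans hsx) (by positivity)
        _ = _ := by ring
    have h6 := Real.log_le_log (by exact_mod_cast hX1) h5
    rw [Real.log_pow] at h6
    refine h6.trans ?_
    rw [sq]
    apply mul_le_mul_of_nonneg_right _ hl0.le
    push_cast
    linarith
  have hlog0 : 0 ≤ Real.log X := Real.log_nonneg (by exact_mod_cast hX1)
  rw [sum_comm]
  have h5 : ∀ n ∈ Icc 1 x, ∑ a ∈ Icc 1 A, (lamI ((a : ℤ) + (f + C (a0 : ℤ)).eval (n : ℤ)) - lamP ((a : ℤ) + (f + C (a0 : ℤ)).eval (n : ℤ))) ≤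
      A / l ^ U := by
    intro n hn
    rw [mem_Icc] at hn
    refine (pp_sum A X _ hX1 ?_).trans ?_
    · intro a ha
      have h6 := (hvals a ha n (mem_Icc.2 (by omega))).1.trans hXa
      exact_mod_cast h6
    · rw [le_div_iff₀ (by positivity)]
      refine le_trans ?_ hA1
      calc 2 * Real.sqrt X * Real.log X * l ^ U ≤ l * ((x : ℝ) ^ e * l ^ (G + 1)) * l ^ 2 * l ^ U := by
            gcongr
            linarith
        _ = (x : ℝ) ^ e * l ^ (G + U + 4) := by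
            rw [show G + U + 4 = (G + 1) + 2 + U + 1 by ring, pow_add, pow_add, pow_add]; ring
  refine (sum_le_sum h5).trans (le_of_eq ?_)
  rw [sum_const, Nat.card_Icc, nsmul_eq_mul, Nat.add_sub_cancel]
  ring

open Classical in
theorem xver (hSI : S_SI3) (f : ℤ[X]) (e : ℕ) (he : 1 ≤ e) (hd : f.natDegree = e + 1) (hl : 0 < f.leadingCoeff) (U G : ℕ) :
    ∃ C0 E0 : ℕ, ∀ E1 : ℕ, ∃ n1 : ℕ, ∀ x : ℕ, n1 ≤ x → ∀ A a0 : ℕ, (x : ℝ) ^ e * Real.log x ^ C0 ≤ A →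
      (A : ℝ) + a0 ≤ (x : ℝ) ^ (e + 1) * Real.log x ^ G → ∀ z : ℕ, Real.log x ^ E0 ≤ z → (z : ℝ) ≤ Real.log x ^ E1 →
      ∃ Bad ⊆ Icc 1 A, (#Bad : ℝ) ≤ A / Real.log x ^ U ∧ ∀ a ∈ Icc 1 A, a ∉ Bad → ∀ y : ℕ, y ≤ x →
        |∑ n ∈ Icc 1 y, lamP (((a + a0 : ℕ) : ℤ) + f.eval (n : ℤ)) - Cs f (a + a0) z * y| ≤ x / Real.log x ^ U := by
  obtain ⟨C0, E0, h0⟩ := fm hSI f e he hd hl (3 * U + 6) G
  refine ⟨C0 + (G + (3 * U + 6) + 4), E0 + 1, fun E1 => ?_⟩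
  obtain ⟨n2, h2⟩ := h0 E1
  obtain ⟨n3, h3⟩ := pps f e he hd (3 * U + 6) G
  obtain ⟨n4, h4⟩ := model f hl (U + 2) E1
  obtain ⟨n5, h5⟩ := ev_L' 10
  obtain ⟨n6, h6⟩ := ev_log' (U + 2) 2
  refine ⟨n2 + n3 + n4 + n5 + n6 + 3, fun x hx A a0 hA1 hA2 z hz1 hz2 => ?_⟩
  have hL := h5 x (by omega)
  have hbig := h6 x (by omega)
  have hx1 : (1 : ℝ) ≤ x := by exact_mod_cast (by omega : 1 ≤ x)
  have hx0 : (0 : ℝ) < x := by linarith
  have hl1' : 1 ≤ Real.log x := by linarith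
  have hfm := h2 x (by omega) A a0 (le_trans (mul_le_mul_of_nonneg_left (pow_le_pow_right₀ hl1' (by omega)) (by positivity)) hA1) hA2 z
    (le_trans (pow_le_pow_right₀ hl1' (by omega)) hz1) hz2
  have hpp := h3 x (by omega) A a0 (le_trans (mul_le_mul_of_nonneg_left (pow_le_pow_right₀ hl1' (by omega)) (by positivity)) hA1) hA2
  have hmod := h4 x (by omega) z (le_trans (le_self_pow₀ hl1' (by omega)) hz1) hz2
  set l := Real.log x with hld
  have hl1 : 1 ≤ l := hl1'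
  have hl0 : 0 < l := by linarith
  have p0 : ∀ i : ℕ, 0 < l ^ i := fun i => by positivity
  have p1 : ∀ i : ℕ, 1 ≤ l ^ i := fun i => one_le_pow₀ hl1
  have hsx : Real.sqrt x ≤ x := by
    rw [Real.sqrt_le_left (by linarith)]
    nlinarith
  obtain ⟨Gd, hGd⟩ : ∃ Gd : ℕ, Gd = ⌈l ^ (U + 2)⌉₊ := ⟨_, rfl⟩
  have hG1 : l ^ (U + 2) ≤ Gd := by rw [hGd]; exact Nat.le_ceil _
  have hG2 : (Gd : ℝ) ≤ 2 * l ^ (U + 2) := by
    have := Nat.ceil_lt_add_one (p0 (U + 2)).le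
    rw [hGd]
    linarith [p1 (U + 2)]
  have hGn : 1 ≤ Gd := by
    have : (1 : ℝ) ≤ Gd := (p1 _).trans hG1
    exact_mod_cast this
  have hG0 : (0 : ℝ) < Gd := by exact_mod_cast hGn
  set v : ℕ → ℕ → ℤ := fun a n => (a : ℤ) + (f + C (a0 : ℤ)).eval (n : ℤ) with hv
  have hve : ∀ a n : ℕ, ((a + a0 : ℕ) : ℤ) + f.eval (n : ℤ) = v a n := by
    intro a n
    simp only [hv]
    rw [eval_add, eval_C]
    push_cast
    ring
  set Tpp : ℕ → ℝ := fun a => ∑ n ∈ Icc 1 x, (lamI (v a n) - lamP (v a n)) with hTpp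
  set Tj : ℕ → ℕ → ℝ := fun j a => |∑ n ∈ Icc 1 (j * x / Gd), Ed z (v a n)| with hTj
  have hTpp0 : ∀ a, 0 ≤ Tpp a := fun a => sum_nonneg fun n _ => by
    have := lamP_le (v a n)
    linarith
  have hgrid : ∀ j ∈ range (Gd + 1), j * x / Gd ≤ x := by
    intro j hj
    rw [mem_range] at hj
    apply Nat.div_le_of_le_mul
    exact Nat.mul_le_mul_right x (by omega)
  set T : ℕ → ℝ := fun a => ∑ j ∈ range (Gd + 1), Tj j a + Tpp a with hT
  have hT0 : ∀ a, 0 ≤ T a := by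
    intro a
    simp only [hT]
    have h7 : 0 ≤ ∑ j ∈ range (Gd + 1), Tj j a := sum_nonneg fun j _ => abs_nonneg _
    linarith [hTpp0 a]
  have hTs : ∑ a ∈ Icc 1 A, T a ≤ 4 * l ^ (U + 2) * (A * x / l ^ (3 * U + 6)) := by
    have h7 : ∑ a ∈ Icc 1 A, T a = ∑ j ∈ range (Gd + 1), ∑ a ∈ Icc 1 A, Tj j a + ∑ a ∈ Icc 1 A, Tpp a := by
      simp only [hT]
      rw [sum_add_distrib, sum_comm]
    rw [h7]
    have h8 : ∀ j ∈ range (Gd + 1), ∑ a ∈ Icc 1 A, Tj j a ≤ A * x / l ^ (3 * U + 6) := fun j hj => hfm _ (hgrid j hj)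
    have h9 := sum_le_sum h8
    rw [sum_const, card_range, nsmul_eq_mul] at h9
    push_cast at h9
    have h10 : 0 ≤ (A : ℝ) * x / l ^ (3 * U + 6) := by positivity
    have h11 : ((Gd : ℝ) + 1 + 1) * (A * x / l ^ (3 * U + 6)) ≤ 4 * l ^ (U + 2) * (A * x / l ^ (3 * U + 6)) := by
      apply mul_le_mul_of_nonneg_right _ h10
      linarith [p1 (U + 2)]
    linarith
  refine ⟨(Icc 1 A).filter (fun a => x / l ^ (U + 1) < T a), filter_subset _ _, ?_, ?_⟩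
  · refine (markov (Icc 1 A) T hT0 _ _ (by positivity) hTs).trans ?_
    calc 4 * l ^ (U + 2) * (A * x / l ^ (3 * U + 6)) / (x / l ^ (U + 1)) = (4 / l ^ 3) * (A / l ^ U) := by
          rw [show 3 * U + 6 = (U + 2) + (U + 1) + 3 + U by ring, pow_add l (U + 2 + (U + 1) + 3), pow_add l (U + 2 + (U + 1)), pow_add l (U + 2)]
          field_simp
      _ ≤ 1 * (A / l ^ U) := by
          apply mul_le_mul_of_nonneg_right _ (by positivity)
          rw [div_le_one (by positivity)]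
          have : l ≤ l ^ 3 := le_self_pow₀ hl1 (by norm_num)
          linarith
      _ = _ := one_mul _
  · intro a ha hab y hy
    have hTa : T a ≤ x / l ^ (U + 1) := by
      by_contra hc
      push Not at hc
      exact hab (mem_filter.2 ⟨ha, hc⟩)
    rw [mem_Icc] at ha
    obtain ⟨⟨m1, m2⟩, m3⟩ := hmod (a + a0) (by omega)
    set θ : ℕ → ℝ := fun y => ∑ n ∈ Icc 1 y, lamP (((a + a0 : ℕ) : ℤ) + f.eval (n : ℤ)) with hθ
    have hθm : ∀ y y', y ≤ y' → θ y ≤ θ y' := by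
      intro y y' h
      simp only [hθ]
      apply sum_le_sum_of_subset_of_nonneg (Icc_subset_Icc le_rfl h)
      intro _ _ _
      exact lamP_nonneg _
    obtain ⟨j, hj, hgr⟩ := grid θ hθm x Gd y (Cs f (a + a0) z) (by omega) hGn m1 hy
    have hjx := hgrid j hj
    have g1 := m3 _ hjx
    have hTjT : Tj j a + Tpp a ≤ T a := by
      simp only [hT]
      have := single_le_sum (f := fun j => Tj j a) (fun _ _ => abs_nonneg _) hj
      linarith
    have g2 : |θ (j * x / Gd) - Cs f (a + a0) z * ((j * x / Gd : ℕ) : ℝ)| ≤ Tj j a + Tpp a + x / l ^ (U + 2) := by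
      have e1 : θ (j * x / Gd) - Cs f (a + a0) z * ((j * x / Gd : ℕ) : ℝ) =
          ∑ n ∈ Icc 1 (j * x / Gd), Ed z (v a n) - ∑ n ∈ Icc 1 (j * x / Gd), (lamI (v a n) - lamP (v a n)) +
          (∑ n ∈ Icc 1 (j * x / Gd), lamzI z (((a + a0 : ℕ) : ℤ) + f.eval (n : ℤ)) - Cs f (a + a0) z * ((j * x / Gd : ℕ) : ℝ)) := by
        simp only [hθ, hve]
        unfold Ed
        rw [sum_sub_distrib, sum_sub_distrib]
        ring
      rw [e1]
      refine (abs_add_le _ _).trans (add_le_add ?_ g1)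
      refine (abs_sub _ _).trans (add_le_add le_rfl ?_)
      rw [abs_of_nonneg (sum_nonneg fun n _ => by linarith [lamP_le (v a n)])]
      simp only [hTpp]
      apply sum_le_sum_of_subset_of_nonneg (Icc_subset_Icc le_rfl hjx)
      intro n _ _
      linarith [lamP_le (v a n)]
    have g3 : Cs f (a + a0) z * ((x : ℝ) / Gd + 1) ≤ 2 * (x / l ^ (U + 1)) := by
      have e1 : (x : ℝ) / Gd ≤ x / l ^ (U + 2) := div_le_div_of_nonneg_left hx0.le (p0 _) hG1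
      have e2 : (1 : ℝ) ≤ x / l ^ (U + 2) := by
        rw [one_le_div (p0 _)]
        have := p0 (U + 2)
        linarith
      calc Cs f (a + a0) z * ((x : ℝ) / Gd + 1) ≤ l * (x / l ^ (U + 2) + x / l ^ (U + 2)) := by
            apply mul_le_mul m2 _ (by positivity) hl0.le
            linarith
        _ = _ := by rw [pow_succ l (U + 1)]; field_simp; ring
    have g4 : (x : ℝ) / l ^ (U + 2) ≤ x / l ^ (U + 1) := by
      apply div_le_div_of_nonneg_left hx0.le (p0 _)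
      exact pow_le_pow_right₀ hl1 (by omega)
    have g5 : 4 * ((x : ℝ) / l ^ (U + 1)) ≤ x / l ^ U := by
      calc 4 * ((x : ℝ) / l ^ (U + 1)) = (4 / l) * (x / l ^ U) := by rw [pow_succ]; field_simp
        _ ≤ 1 * (x / l ^ U) := by
            apply mul_le_mul_of_nonneg_right _ (by positivity)
            rw [div_le_one hl0]; linarith
        _ = _ := one_mul _
    have g6 : |∑ n ∈ Icc 1 y, lamP (((a + a0 : ℕ) : ℤ) + f.eval (n : ℤ)) - Cs f (a + a0) z * y| =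
        |θ y - Cs f (a + a0) z * y| := rfl
    rw [g6]
    linarith

end Pool.Agent.H544.SR
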