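import Mathlib
import Pool.Agent.H544.SR.S11

/-!
One exceptional set for all lengths.
-/

set_option autoImplicit false

namespace Pool.Agent.H544.SR
open Finset Polynomial
open Pool.Agent.H561.SW (S_SI3)
open Pool.Agent.H373R2.T7 (lamP lamP_nonneg)

lemma ev_root (e k : ℕ) (c : ℝ) : ∃ n1 : ℕ, ∀ A : ℕ, n1 ≤ A → c * Real.log A ^ k ≤ (A : ℝ) ^ (1 / ((e : ℝ) + 1)) := by
  have he : 0 < 1 / ((e : ℝ) + 1) := by positivity
  have h := (isLittleO_log_rpow_rpow_atTop (k : ℝ) he).bound (show 0 < 1 / (|c| + 1) by positivity)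
  have h2 := (tendsto_natCast_atTop_atTop (R := ℝ)).eventually h
  obtain ⟨x0, hx0⟩ := Filter.eventually_atTop.1 h2
  refine ⟨max x0 1, fun x hx => ?_⟩
  have h3 := hx0 x (le_trans (le_max_left _ _) hx)
  have hx1 : (1 : ℝ) ≤ x := by exact_mod_cast (le_trans (le_max_right _ _) hx)
  have hl : 0 ≤ Real.log x := Real.log_nonneg hx1
  rw [Real.norm_eq_abs, Real.norm_eq_abs, abs_of_nonneg (by positivity : 0 ≤ Real.log (x : ℝ) ^ (k : ℝ)),
    abs_of_nonneg (by positivity : 0 ≤ (x : ℝ) ^ (1 / ((e : ℝ) + 1))), Real.rpow_natCast] at h3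
  have h4 : c ≤ |c| + 1 := by linarith [le_abs_self c]
  calc c * Real.log x ^ k ≤ (|c| + 1) * Real.log x ^ k := by gcongr
    _ ≤ (|c| + 1) * (1 / (|c| + 1) * (x : ℝ) ^ (1 / ((e : ℝ) + 1))) := by gcongr
    _ = _ := by field_simp

lemma ev_log3 (c : ℝ) : ∃ n1 : ℕ, ∀ A : ℕ, n1 ≤ A → c ≤ Real.log A := Pool.Agent.H373R2.T7.ev_L' c

open Classical in
theorem uver (hSI : S_SI3) (f : ℤ[X]) (e : ℕ) (he : 1 ≤ e) (hd : f.natDegree = e + 1) (hl : 0 < f.leadingCoeff) (U G : ℕ) :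
    ∃ C0 E0 : ℕ, ∀ E1 : ℕ, ∃ n1 : ℕ, ∀ A : ℕ, n1 ≤ A → ∀ a0 : ℕ, (a0 : ℝ) ≤ A * Real.log A ^ G →
      ∀ z : ℕ, Real.log A ^ E0 ≤ z → (z : ℝ) ≤ Real.log A ^ E1 →
      ∃ Bad ⊆ Icc 1 A, (#Bad : ℝ) ≤ A / Real.log A ^ U ∧ ∀ a ∈ Icc 1 A, a ∉ Bad → ∀ y : ℕ, (y : ℝ) ^ e * Real.log A ^ C0 ≤ A →
        |∑ n ∈ Icc 1 y, lamP (((a + a0 : ℕ) : ℤ) + f.eval (n : ℤ)) - Cs f (a + a0) z * y| ≤
          (y + (A : ℝ) ^ (1 / ((e : ℝ) + 1))) / Real.log A ^ U := by
  obtain ⟨C1, E0, h0⟩ := xver hSI f e he hd hl (U + 3) (G + 1)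
  refine ⟨C1 + 1, E0, fun E1 => ?_⟩
  obtain ⟨n2, h2⟩ := h0 (E1 + 1)
  obtain ⟨cc, hcc⟩ : ∃ cc : ℕ, cc = 20 + 5 * (e + 1) ^ (U + 3) + 3 * (e + 1) ^ (G + 1) + (e + 1) * (e + 1) ^ E1 + 2 * (e + 1) * (e + 1) ^ G + 2 ^ e := ⟨_, rfl⟩
  obtain ⟨n3, h3⟩ := ev_log3 cc
  obtain ⟨n4, h4⟩ := ev_root e (C1 + 1) ((2 : ℝ) ^ e + n2 + 3)
  refine ⟨n3 + n4 + 3, fun A hA a0 ha0 z hz1 hz2 => ?_⟩
  have hL := h3 A (by omega)
  have hroot := h4 A (by omega)
  have hA1 : (1 : ℝ) ≤ A := by exact_mod_cast (by omega : 1 ≤ A)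
  have hA0 : (0 : ℝ) < A := by linarith
  set Λ := Real.log A with hΛ
  set ξ : ℝ := (A : ℝ) ^ (1 / ((e : ℝ) + 1)) with hξ
  have he0 : (1 : ℝ) ≤ e := by exact_mod_cast he
  have hen : (0 : ℝ) < (e : ℝ) + 1 := by linarith
  rw [hcc] at hL
  push_cast at hL
  have q1 : (0 : ℝ) ≤ 5 * ((e : ℝ) + 1) ^ (U + 3) := by positivity
  have q2 : (0 : ℝ) ≤ 3 * ((e : ℝ) + 1) ^ (G + 1) := by positivity
  have q3 : (0 : ℝ) ≤ ((e : ℝ) + 1) * ((e : ℝ) + 1) ^ E1 := by positivity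
  have q4 : (0 : ℝ) ≤ 2 * ((e : ℝ) + 1) * ((e : ℝ) + 1) ^ G := by positivity
  have q5 : (0 : ℝ) ≤ (2 : ℝ) ^ e := by positivity
  have hΛ1 : 1 ≤ Λ := by linarith
  have hΛ0 : 0 < Λ := by linarith
  have hξp : ξ ^ (e + 1) = A := by
    rw [hξ, ← Real.rpow_natCast, ← Real.rpow_mul hA0.le]
    push_cast
    rw [one_div_mul_cancel hen.ne', Real.rpow_one]
  have hξ0 : 0 < ξ := by rw [hξ]; positivity
  have hΛk : 1 ≤ Λ ^ (C1 + 1) := one_le_pow₀ hΛ1
  have hn2r : (0 : ℝ) ≤ n2 := Nat.cast_nonneg _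
  have hξbig : (2 : ℝ) ^ e + n2 + 3 ≤ ξ := by
    refine le_trans ?_ hroot
    exact le_mul_of_one_le_right (by positivity) hΛk
  have hξbig2 : (2 : ℝ) ^ e * Λ ^ (C1 + 1) ≤ ξ := by
    refine le_trans ?_ hroot
    apply mul_le_mul_of_nonneg_right _ (by positivity)
    linarith
  have hξ1 : 1 ≤ ξ := by linarith
  -- the lengths
  obtain ⟨x0, hx0⟩ : ∃ x0 : ℕ, x0 = ⌈ξ⌉₊ := ⟨_, rfl⟩
  have hx0a : ξ ≤ x0 := by rw [hx0]; exact Nat.le_ceil _
  have hx0b : (x0 : ℝ) ≤ 2 * ξ := by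
    have := Nat.ceil_lt_add_one hξ0.le
    rw [hx0]
    linarith
  set X : ℕ → ℕ := fun j => 2 ^ j * x0 with hX
  have hXx0 : ∀ j, x0 ≤ X j := fun j => Nat.le_mul_of_pos_left _ (by positivity)
  have hlogX : ∀ j, Λ ≤ ((e : ℝ) + 1) * Real.log (X j) := by
    intro j
    have h5 : ξ ≤ (X j : ℝ) := hx0a.trans (by exact_mod_cast hXx0 j)
    have h6 : (A : ℝ) ≤ (X j : ℝ) ^ (e + 1) := by
      rw [← hξp]
      exact pow_le_pow_left₀ hξ0.le h5 _
    have h7 := Real.log_le_log hA0 h6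
    rw [Real.log_pow] at h7
    push_cast at h7
    exact h7
  have hlogX0 : ∀ j, 0 < Real.log (X j) := by
    intro j
    have := hlogX j
    by_contra hc
    push Not at hc
    have h5 : ((e : ℝ) + 1) * Real.log (X j) ≤ 0 := mul_nonpos_of_nonneg_of_nonpos hen.le hc
    linarith
  -- the exceptional sets
  have hch : ∀ j : ℕ, ∃ Bad ⊆ Icc 1 A, (#Bad : ℝ) ≤ A / Real.log (X j) ^ (U + 3) ∧
      ((X j : ℝ) ^ e * Real.log (X j) ^ C1 ≤ A → ∀ a ∈ Icc 1 A, a ∉ Bad → ∀ y : ℕ, y ≤ X j →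
        |∑ n ∈ Icc 1 y, lamP (((a + a0 : ℕ) : ℤ) + f.eval (n : ℤ)) - Cs f (a + a0) z * y| ≤ (X j : ℝ) / Real.log (X j) ^ (U + 3)) := by
    intro j
    by_cases hj : (X j : ℝ) ^ e * Real.log (X j) ^ C1 ≤ A
    · have hlj := hlogX j
      have hlj0 := hlogX0 j
      set l := Real.log (X j) with hl
      have hXj1 : (1 : ℝ) ≤ X j := by
        have h5 : ξ ≤ (X j : ℝ) := hx0a.trans (by exact_mod_cast hXx0 j)
        linarith
      -- lower bound for l
      have hl1 : 5 * ((e : ℝ) + 1) ^ (U + 3) + 3 * ((e : ℝ) + 1) ^ (G + 1) ≤ ((e : ℝ) + 1) * l := by linarith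
      have hlbig : 3 * ((e : ℝ) + 1) ^ G ≤ l := by
        have h5 : ((e : ℝ) + 1) * (3 * ((e : ℝ) + 1) ^ G) ≤ ((e : ℝ) + 1) * l := by
          calc ((e : ℝ) + 1) * (3 * ((e : ℝ) + 1) ^ G) = 3 * ((e : ℝ) + 1) ^ (G + 1) := by ring
            _ ≤ _ := by linarith
        exact le_of_mul_le_mul_left h5 hen
      have hlbig2 : ((e : ℝ) + 1) ^ E1 ≤ l := by
        have h5 : ((e : ℝ) + 1) * ((e : ℝ) + 1) ^ E1 ≤ ((e : ℝ) + 1) * l := by linarith
        exact le_of_mul_le_mul_left h5 hen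
      have hl1' : 1 ≤ l := by
        have h5 : (1 : ℝ) ≤ ((e : ℝ) + 1) ^ G := one_le_pow₀ (by linarith)
        linarith
      have hXA : (X j : ℝ) ≤ A := by
        refine le_trans ?_ hj
        calc (X j : ℝ) ≤ (X j : ℝ) ^ e := le_self_pow₀ hXj1 (by omega)
          _ ≤ _ := le_mul_of_one_le_right (by positivity) (one_le_pow₀ hl1')
      have hlΛ : l ≤ Λ := Real.log_le_log (by linarith) hXA
      have hn2X : n2 ≤ X j := by
        have h5 : (n2 : ℝ) ≤ X j := by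
          have h5 : ξ ≤ (X j : ℝ) := hx0a.trans (by exact_mod_cast hXx0 j)
          linarith
        exact_mod_cast h5
      obtain ⟨Bad, b1, b2, b3⟩ := h2 (X j) hn2X A a0 hj (by
        have h5 : (A : ℝ) ≤ (X j : ℝ) ^ (e + 1) := by
          rw [← hξp]
          exact pow_le_pow_left₀ hξ0.le (hx0a.trans (by exact_mod_cast hXx0 j)) _
        have h6 : Λ ^ G ≤ ((e : ℝ) + 1) ^ G * l ^ G := by
          rw [← mul_pow]
          exact pow_le_pow_left₀ hΛ0.le hlj _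
        have h7 : 1 ≤ Λ ^ G := one_le_pow₀ hΛ1
        calc (A : ℝ) + a0 ≤ A * Λ ^ G + A * Λ ^ G := by nlinarith
          _ = A * (2 * Λ ^ G) := by ring
          _ ≤ (X j : ℝ) ^ (e + 1) * (2 * (((e : ℝ) + 1) ^ G * l ^ G)) := by gcongr
          _ = (X j : ℝ) ^ (e + 1) * ((2 * ((e : ℝ) + 1) ^ G) * l ^ G) := by ring
          _ ≤ (X j : ℝ) ^ (e + 1) * (l * l ^ G) := by
              gcongr
              have : 0 ≤ ((e : ℝ) + 1) ^ G := by positivity
              linarith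
          _ = _ := by ring) z
        (le_trans (pow_le_pow_left₀ hlj0.le hlΛ _) hz1)
        (by
          refine hz2.trans ?_
          calc Λ ^ E1 ≤ (((e : ℝ) + 1) * l) ^ E1 := pow_le_pow_left₀ hΛ0.le hlj _
            _ = ((e : ℝ) + 1) ^ E1 * l ^ E1 := mul_pow _ _ _
            _ ≤ l * l ^ E1 := by gcongr
            _ = _ := by ring)
      exact ⟨Bad, b1, b2, fun _ => b3⟩
    · refine ⟨∅, empty_subset _, ?_, fun h => absurd h hj⟩
      rw [card_empty]
      have := hlogX0 j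
      push_cast
      positivity
  choose Bd hBd using hch
  obtain ⟨J, hJ⟩ : ∃ J : ℕ, J = ⌊2 * Λ⌋₊ + 3 := ⟨_, rfl⟩
  have hJ1 : (J : ℝ) ≤ 5 * Λ := by
    rw [hJ]
    push_cast
    have := Nat.floor_le (by positivity : 0 ≤ 2 * Λ)
    linarith
  have hcmp : ∀ j, ∀ w : ℝ, 0 ≤ w → w / Real.log (X j) ^ (U + 3) ≤ (((e : ℝ) + 1) ^ (U + 3) / Λ ^ 3) * (w / Λ ^ U) := by
    intro j w hw
    have h5 := hlogX j
    have h6 := hlogX0 j
    have h7 : Λ ^ (U + 3) ≤ ((e : ℝ) + 1) ^ (U + 3) * Real.log (X j) ^ (U + 3) := by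
      rw [← mul_pow]
      exact pow_le_pow_left₀ hΛ0.le h5 _
    rw [div_le_iff₀ (by positivity)]
    have e1 : ((e : ℝ) + 1) ^ (U + 3) / Λ ^ 3 * (w / Λ ^ U) * Real.log (X j) ^ (U + 3) =
        w * ((((e : ℝ) + 1) ^ (U + 3) * Real.log (X j) ^ (U + 3)) / Λ ^ (U + 3)) := by
      rw [pow_add Λ U 3]
      field_simp
    rw [e1]
    apply le_mul_of_one_le_right hw
    rw [one_le_div (by positivity)]
    exact h7
  have hcmp2 : ∀ j, ∀ w : ℝ, 0 ≤ w → 5 * Λ * (w / Real.log (X j) ^ (U + 3)) ≤ w / Λ ^ U := by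
    intro j w hw
    calc 5 * Λ * (w / Real.log (X j) ^ (U + 3)) ≤ 5 * Λ * ((((e : ℝ) + 1) ^ (U + 3) / Λ ^ 3) * (w / Λ ^ U)) := by
          have := hcmp j w hw
          gcongr
      _ = ((5 * ((e : ℝ) + 1) ^ (U + 3)) / Λ ^ 2) * (w / Λ ^ U) := by field_simp
      _ ≤ 1 * (w / Λ ^ U) := by
          apply mul_le_mul_of_nonneg_right _ (by positivity)
          rw [div_le_one (by positivity)]
          have : Λ ≤ Λ ^ 2 := le_self_pow₀ hΛ1 (by norm_num)
          linarith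
      _ = _ := one_mul _
  refine ⟨(range J).biUnion Bd, ?_, ?_, ?_⟩
  · intro a ha
    rw [mem_biUnion] at ha
    obtain ⟨j, _, hj⟩ := ha
    exact (hBd j).1 hj
  · have h5 : (#((range J).biUnion Bd) : ℝ) ≤ ∑ j ∈ range J, (#(Bd j) : ℝ) := by exact_mod_cast card_biUnion_le
    have h6 : ∀ j ∈ range J, (#(Bd j) : ℝ) ≤ (A / Λ ^ U) / (5 * Λ) := by
      intro j _
      refine (hBd j).2.1.trans ?_
      rw [le_div_iff₀ (by positivity)]
      have := hcmp2 j A hA0.le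
      linarith
    refine h5.trans ((sum_le_sum h6).trans ?_)
    rw [sum_const, card_range, nsmul_eq_mul]
    calc (J : ℝ) * ((A / Λ ^ U) / (5 * Λ)) ≤ 5 * Λ * ((A / Λ ^ U) / (5 * Λ)) := by gcongr
      _ = _ := by field_simp
  · intro a ha hab y hy
    have hnot : ∀ j < J, a ∉ Bd j := fun j hj h => hab (mem_biUnion.2 ⟨j, mem_range.2 hj, h⟩)
    have hyr : (0 : ℝ) ≤ y := Nat.cast_nonneg _
    -- the length
    by_cases hyx : y ≤ x0
    · have hX0 : X 0 = x0 := by simp only [hX]; ring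
      have hXr : (X 0 : ℝ) ≤ 2 * ξ := by rw [hX0]; exact hx0b
      have hXA : (X 0 : ℝ) ≤ A := by
        refine hXr.trans ?_
        have h5 : ξ * ξ ≤ ξ ^ (e + 1) := by
          calc ξ * ξ = ξ ^ 2 := by ring
            _ ≤ _ := pow_le_pow_right₀ hξ1 (by omega)
        rw [hξp] at h5
        nlinarith
      have hX1 : (1 : ℝ) ≤ X 0 := by rw [hX0]; linarith
      have hlΛ : Real.log (X 0) ≤ Λ := Real.log_le_log (by linarith) hXA
      have hv : (X 0 : ℝ) ^ e * Real.log (X 0) ^ C1 ≤ A := by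
        calc (X 0 : ℝ) ^ e * Real.log (X 0) ^ C1 ≤ (2 * ξ) ^ e * Λ ^ (C1 + 1) := by
              apply mul_le_mul (pow_le_pow_left₀ (by linarith) hXr _) _ (pow_nonneg (hlogX0 0).le _) (by positivity)
              exact (pow_le_pow_left₀ (hlogX0 0).le hlΛ _).trans (pow_le_pow_right₀ hΛ1 (by omega))
          _ = ξ ^ e * (2 ^ e * Λ ^ (C1 + 1)) := by rw [mul_pow]; ring
          _ ≤ ξ ^ e * ξ := by gcongr
          _ = A := by rw [← pow_succ, hξp]
      have h5 := (hBd 0).2.2 hv a ha (hnot 0 (by omega)) y (by rw [hX0]; exact hyx)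
      refine h5.trans ?_
      have h6 := hcmp2 0 (X 0) (by linarith)
      have h7 : (X 0 : ℝ) / Real.log (X 0) ^ (U + 3) ≤ ((X 0 : ℝ) / Λ ^ U) / 5 := by
        have h8 : 0 ≤ (X 0 : ℝ) / Real.log (X 0) ^ (U + 3) := div_nonneg (by linarith) (pow_nonneg (hlogX0 0).le _)
        have h9 : 5 * ((X 0 : ℝ) / Real.log (X 0) ^ (U + 3)) ≤ 5 * Λ * ((X 0 : ℝ) / Real.log (X 0) ^ (U + 3)) := by
          nlinarith
        linarith
      refine h7.trans ?_
      rw [div_div, mul_comm (Λ ^ U) 5, ← div_div]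
      apply div_le_div_of_nonneg_right _ (by positivity)
      linarith
    · push Not at hyx
      -- the least j with y ≤ X j
      have hex : ∃ j, y ≤ X j := by
        refine ⟨y, ?_⟩
        simp only [hX]
        have h5 : y < 2 ^ y := Nat.lt_two_pow_self
        have h6 : 1 ≤ x0 := by
          have : (1 : ℝ) ≤ x0 := by linarith
          exact_mod_cast this
        calc y ≤ 2 ^ y * 1 := by omega
          _ ≤ _ := Nat.mul_le_mul_left _ h6
      set j := Nat.find hex with hj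
      have hj1 : y ≤ X j := Nat.find_spec hex
      have hj0 : j ≠ 0 := by
        intro h0
        rw [h0] at hj1
        have : X 0 = x0 := by simp only [hX]; ring
        omega
      obtain ⟨i, hi⟩ : ∃ i, j = i + 1 := ⟨j - 1, by omega⟩
      have hj2 : X i < y := by
        have := Nat.find_min hex (show i < Nat.find hex by omega)
        omega
      have hX2 : X j = 2 * X i := by
        rw [hi]
        simp only [hX]
        ring
      have hXy : (X j : ℝ) ≤ 2 * y := by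
        have : X j ≤ 2 * y := by omega
        exact_mod_cast this
      have hy1 : (1 : ℝ) ≤ y := by
        have : (x0 : ℝ) < y := by exact_mod_cast hyx
        linarith
      have hyA : (y : ℝ) * Λ ^ (C1 + 1) ≤ A := by
        refine le_trans ?_ hy
        apply mul_le_mul_of_nonneg_right _ (by positivity)
        exact le_self_pow₀ hy1 (by omega)
      have hXA : (X j : ℝ) ≤ A := by
        refine hXy.trans ?_
        refine le_trans ?_ hyA
        have h5 : Λ ≤ Λ ^ (C1 + 1) := le_self_pow₀ hΛ1 (by omega)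
        nlinarith
      have hX1 : (1 : ℝ) ≤ X j := by
        have h5 : ξ ≤ (X j : ℝ) := hx0a.trans (by exact_mod_cast hXx0 j)
        linarith
      have hlΛ : Real.log (X j) ≤ Λ := Real.log_le_log (by linarith) hXA
      have hv : (X j : ℝ) ^ e * Real.log (X j) ^ C1 ≤ A := by
        refine le_trans ?_ hy
        calc (X j : ℝ) ^ e * Real.log (X j) ^ C1 ≤ (2 * y) ^ e * Λ ^ C1 := by
              apply mul_le_mul (pow_le_pow_left₀ (by linarith) hXy _) _ (pow_nonneg (hlogX0 j).le _) (by positivity)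
              exact pow_le_pow_left₀ (hlogX0 j).le hlΛ _
          _ = (y : ℝ) ^ e * (2 ^ e * Λ ^ C1) := by rw [mul_pow]; ring
          _ ≤ (y : ℝ) ^ e * (Λ * Λ ^ C1) := by
              gcongr
              linarith
          _ = _ := by ring
      have hjJ : j < J := by
        rw [hJ]
        have h5 : (2 : ℝ) ^ j ≤ A := by
          refine le_trans ?_ hXA
          simp only [hX]
          push_cast
          apply le_mul_of_one_le_right (by positivity)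
          linarith
        have h6 := Real.log_le_log (by positivity) h5
        rw [Real.log_pow] at h6
        have h7 := Real.log_two_gt_d9
        have h8 : (0 : ℝ) ≤ j := Nat.cast_nonneg _
        have h9 : (j : ℝ) ≤ 2 * Λ := by nlinarith
        have h10 : j ≤ ⌊2 * Λ⌋₊ := Nat.le_floor h9
        omega
      have h5 := (hBd j).2.2 hv a ha (hnot j hjJ) y hj1
      refine h5.trans ?_
      have h6 := hcmp2 j (X j) (by linarith)
      have h7 : (X j : ℝ) / Real.log (X j) ^ (U + 3) ≤ ((X j : ℝ) / Λ ^ U) / 5 := by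
        have h8 : 0 ≤ (X j : ℝ) / Real.log (X j) ^ (U + 3) := div_nonneg (by linarith) (pow_nonneg (hlogX0 j).le _)
        have h9 : 5 * ((X j : ℝ) / Real.log (X j) ^ (U + 3)) ≤ 5 * Λ * ((X j : ℝ) / Real.log (X j) ^ (U + 3)) := by
          nlinarith
        linarith
      refine h7.trans ?_
      rw [div_div, mul_comm (Λ ^ U) 5, ← div_div]
      apply div_le_div_of_nonneg_right _ (by positivity)
      linarith

end Pool.Agent.H544.SR
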